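import Pool.Agent.Y66.HC.Defs

/-!
# Acyclicity of a clique complex from a contracting homotopy
-/

set_option autoImplicit false

namespace Pool.Agent.R662.HC.M8

open Pool.Agent.W326.DU
open Pool.Agent.Y66.HC

/-- sign of the ordered pair `(b, c)` with respect to `p` -/
def A2 {V : Type} [DecidableEq V] (p : V × V) (b c : V) : ℤ :=
  (if p = (b, c) then 1 else 0) - (if p = (c, b) then 1 else 0)

/-- sign of the ordered triple `(a, b, c)` with respect to `t` -/
def A3 {V : Type} [DecidableEq V] (t : V × V × V) (a b c : V) : ℤ :=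
  (if t = (a, b, c) then 1 else 0) - (if t = (a, c, b) then 1 else 0)
  + (if t = (b, c, a) then 1 else 0) - (if t = (b, a, c) then 1 else 0)
  + (if t = (c, a, b) then 1 else 0) - (if t = (c, b, a) then 1 else 0)

section basic

variable {V : Type} [Fintype V] [DecidableEq V]

omit [Fintype V] in
theorem A2_swap (p : V × V) (b c : V) : A2 p b c = - A2 p c b := by
  unfold A2
  ring

omit [Fintype V] in
theorem A3_swap1 (t : V × V × V) (a b c : V) : A3 t a b c = - A3 t b a c := by
  unfold A3
  ring

omit [Fintype V] in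
theorem A3_swap2 (t : V × V × V) (a b c : V) : A3 t a b c = - A3 t a c b := by
  unfold A3
  ring

theorem sum_A2 (p : V × V) (b : V) :
    ∑ a, A2 p a b = (if p.2 = b then 1 else 0) - (if p.1 = b then 1 else 0) := by
  obtain ⟨p, q⟩ := p
  unfold A2
  rw [Finset.sum_sub_distrib]
  congr 1
  · simp only [Prod.mk.injEq, ite_and]
    simp
  · simp only [Prod.mk.injEq]
    rw [Finset.sum_eq_single q]
    · simp
    · intro a _ ha
      rw [if_neg]
      rintro ⟨-, h⟩
      exact ha h.symm
    · simp

theorem sum_A3 (t : V × V × V) (b c : V) :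
    ∑ a, A3 t a b c = A2 (t.2.1, t.2.2) b c - A2 (t.1, t.2.2) b c + A2 (t.1, t.2.1) b c := by
  obtain ⟨t0, t1, t2⟩ := t
  have key : ∀ (x : V) (R : V → Prop) (P : Prop) [DecidablePred R] [Decidable P],
      (∀ a, R a ↔ (x = a ∧ P)) → ∑ a, (if R a then (1 : ℤ) else 0) = if P then 1 else 0 := by
    intro x R P _ _ h
    rw [Finset.sum_eq_single x]
    · by_cases hP : P
      · rw [if_pos hP, if_pos ((h x).2 ⟨rfl, hP⟩)]
      · rw [if_neg hP, if_neg fun h' => hP ((h x).1 h').2]
    · intro a _ ha
      rw [if_neg]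
      intro h'
      exact ha ((h a).1 h').1.symm
    · simp
  unfold A3 A2
  simp only [Finset.sum_sub_distrib, Finset.sum_add_distrib]
  rw [key t0 (fun a => (t0, t1, t2) = (a, b, c)) ((t1, t2) = (b, c)) (by simp [Prod.ext_iff]),
    key t0 (fun a => (t0, t1, t2) = (a, c, b)) ((t1, t2) = (c, b)) (by simp [Prod.ext_iff]),
    key t2 (fun a => (t0, t1, t2) = (b, c, a)) ((t0, t1) = (b, c)) (by
      intro a; simp only [Prod.mk.injEq]; tauto),
    key t1 (fun a => (t0, t1, t2) = (b, a, c)) ((t0, t2) = (b, c)) (by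
      intro a; simp only [Prod.mk.injEq]; tauto),
    key t1 (fun a => (t0, t1, t2) = (c, a, b)) ((t0, t2) = (c, b)) (by
      intro a; simp only [Prod.mk.injEq]; tauto),
    key t2 (fun a => (t0, t1, t2) = (c, b, a)) ((t0, t1) = (c, b)) (by
      intro a; simp only [Prod.mk.injEq]; tauto)]
  ring

end basic

/-- The data: sorted lists of the edges and of the triangles, and a contracting homotopy. -/
structure HData {V : Type} [Fintype V] [LinearOrder V] (ad : V → V → Prop) {nE nT : ℕ}
    (e : Fin nE → V × V) (t : Fin nT → V × V × V) (f0 f1 f2 : Fin nT → Fin nE)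
    (S0 : Fin nE → V → ℤ) (S1 : Fin nT → Fin nE → ℤ) (co : Fin nE → List (Fin nT × ℤ)) :
    Prop where
  symm : ∀ a b, ad a b → ad b a
  irr : ∀ a, ¬ ad a a
  e_ad : ∀ i, ad (e i).1 (e i).2
  e_lt : ∀ i, (e i).1 < (e i).2
  e_inj : ∀ i j, e i = e j → i = j
  e_ex : ∀ a b, ad a b → a < b → ∃ i, e i = (a, b)
  t_ad : ∀ j, ad (t j).1 (t j).2.1 ∧ ad (t j).2.1 (t j).2.2 ∧ ad (t j).1 (t j).2.2
  t_lt : ∀ j, (t j).1 < (t j).2.1 ∧ (t j).2.1 < (t j).2.2
  t_inj : ∀ i j, t i = t j → i = j
  t_ex : ∀ a b c, ad a b → ad b c → ad a c → a < b → b < c → ∃ j, t j = (a, b, c)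
  h0 : ∀ j, e (f0 j) = ((t j).2.1, (t j).2.2)
  h1 : ∀ j, e (f1 j) = ((t j).1, (t j).2.2)
  h2 : ∀ j, e (f2 j) = ((t j).1, (t j).2.1)
  hS1 : ∀ j j', S1 j (f0 j') - S1 j (f1 j') + S1 j (f2 j') = if j = j' then 1 else 0
  hco : ∀ i j, ((if f0 j = i then 1 else 0) - (if f1 j = i then 1 else 0) +
    (if f2 j = i then 1 else 0) : ℤ) = ((co i).map fun p => if p.1 = j then p.2 else 0).sum
  hS0 : ∀ i i', S0 i (e i').2 - S0 i (e i').1 +
    ((co i).map fun p => p.2 * S1 p.1 i').sum = if i = i' then 1 else 0
  conn : ∀ a b, Relation.ReflTransGen ad a b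
  ne : Nonempty V

namespace HData

variable {V : Type} [Fintype V] [LinearOrder V] {ad : V → V → Prop} {nE nT : ℕ}
  {e : Fin nE → V × V} {t : Fin nT → V × V × V} {f0 f1 f2 : Fin nT → Fin nE}
  {S0 : Fin nE → V → ℤ} {S1 : Fin nT → Fin nE → ℤ} {co : Fin nE → List (Fin nT × ℤ)}
  (h : HData ad e t f0 f1 f2 S0 S1 co)

include h

theorem A2_lt {a b : V} (hab : a < b) (i : Fin nE) :
    A2 (e i) a b = if e i = (a, b) then 1 else 0 := by
  unfold A2
  have h1 : e i ≠ (b, a) := by
    intro h2
    have h3 := h.e_lt i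
    rw [h2] at h3
    exact absurd h3 (not_lt.2 hab.le)
  rw [if_neg h1, sub_zero]

theorem A3_lt {a b c : V} (hab : a < b) (hbc : b < c) (j : Fin nT) :
    A3 (t j) a b c = if t j = (a, b, c) then 1 else 0 := by
  unfold A3
  have hac := hab.trans hbc
  obtain ⟨h1, h2⟩ := h.t_lt j
  have n1 : t j ≠ (a, c, b) := fun h3 => by
    rw [h3] at h2
    exact absurd h2 (not_lt.2 hbc.le)
  have n2 : t j ≠ (b, c, a) := fun h3 => by
    rw [h3] at h2
    exact absurd h2 (not_lt.2 hac.le)
  have n3 : t j ≠ (b, a, c) := fun h3 => by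
    rw [h3] at h1
    exact absurd h1 (not_lt.2 hab.le)
  have n4 : t j ≠ (c, a, b) := fun h3 => by
    rw [h3] at h1
    exact absurd h1 (not_lt.2 hac.le)
  have n5 : t j ≠ (c, b, a) := fun h3 => by
    rw [h3] at h1
    exact absurd h1 (not_lt.2 hbc.le)
  rw [if_neg n1, if_neg n2, if_neg n3, if_neg n4, if_neg n5]
  ring

theorem A2_ad {i : Fin nE} {a b : V} (h1 : ¬ ad a b) : A2 (e i) a b = 0 := by
  unfold A2
  have h2 := h.e_ad i
  rw [if_neg, if_neg, sub_zero]
  · intro h3
    rw [h3] at h2
    exact h1 (h.symm _ _ h2)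
  · intro h3
    rw [h3] at h2
    exact h1 h2

theorem A3_ad {j : Fin nT} {a b c : V} (h1 : ¬ (ad a b ∧ ad b c ∧ ad a c)) :
    A3 (t j) a b c = 0 := by
  unfold A3
  obtain ⟨h2, h3, h4⟩ := h.t_ad j
  have s := h.symm
  rw [if_neg, if_neg, if_neg, if_neg, if_neg, if_neg]
  · ring
  all_goals
    intro h5
    rw [h5] at h2 h3 h4
    dsimp only at h2 h3 h4
    have h2' := s _ _ h2
    have h3' := s _ _ h3
    have h4' := s _ _ h4
    exact h1 ⟨by assumption, by assumption, by assumption⟩

section rep

variable {M : Type} [AddCommGroup M]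

theorem rep2 {y : V → V → M} (hy : IsAlt2 ad Set.univ y) (a b : V) :
    y a b = ∑ i, A2 (e i) a b • y (e i).1 (e i).2 := by
  have key : ∀ a b, a < b → y a b = ∑ i, A2 (e i) a b • y (e i).1 (e i).2 := by
    intro a b hab
    simp only [h.A2_lt hab]
    by_cases had : ad a b
    · obtain ⟨i, hi⟩ := h.e_ex a b had hab
      rw [Finset.sum_eq_single i]
      · rw [if_pos hi, hi, one_smul]
      · intro j _ hj
        rw [if_neg, zero_smul]
        intro h1
        exact hj (h.e_inj _ _ (h1.trans hi.symm))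
      · simp
    · rw [hy.2 a b (fun h1 => had h1.2.2)]
      symm
      refine Finset.sum_eq_zero fun i _ => ?_
      rw [if_neg, zero_smul]
      intro h1
      have h2 := h.e_ad i
      rw [h1] at h2
      exact had h2
  rcases lt_trichotomy a b with hab | rfl | hab
  · exact key a b hab
  · rw [hy.2 a a (fun h1 => h.irr a h1.2.2)]
    symm
    refine Finset.sum_eq_zero fun i _ => ?_
    rw [h.A2_ad (h.irr a), zero_smul]
  · rw [hy.1 a b, key b a hab, ← Finset.sum_neg_distrib]
    refine Finset.sum_congr rfl fun i _ => ?_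
    rw [A2_swap (e i) a b, neg_smul]

theorem rep3 {z : V → V → V → M} (hz : IsAlt3 ad Set.univ z) (a b c : V) :
    z a b c = ∑ j, A3 (t j) a b c • z (t j).1 (t j).2.1 (t j).2.2 := by
  have key : ∀ a b c, a < b → b < c →
      z a b c = ∑ j, A3 (t j) a b c • z (t j).1 (t j).2.1 (t j).2.2 := by
    intro a b c hab hbc
    simp only [h.A3_lt hab hbc]
    by_cases had : ad a b ∧ ad b c ∧ ad a c
    · obtain ⟨j, hj⟩ := h.t_ex a b c had.1 had.2.1 had.2.2 hab hbc
      rw [Finset.sum_eq_single j]
      · rw [if_pos hj, hj, one_smul]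
      · intro k _ hk
        rw [if_neg, zero_smul]
        intro h1
        exact hk (h.t_inj _ _ (h1.trans hj.symm))
      · simp
    · rw [hz.2.2 a b c (fun h1 => had ⟨h1.2.2.2.1, h1.2.2.2.2.1, h1.2.2.2.2.2⟩)]
      symm
      refine Finset.sum_eq_zero fun j _ => ?_
      rw [if_neg, zero_smul]
      intro h1
      have h2 := h.t_ad j
      rw [h1] at h2
      exact had h2
  by_cases had : ad a b ∧ ad b c ∧ ad a c
  swap
  · rw [hz.2.2 a b c (fun h1 => had ⟨h1.2.2.2.1, h1.2.2.2.2.1, h1.2.2.2.2.2⟩)]
    symm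
    refine Finset.sum_eq_zero fun j _ => ?_
    rw [h.A3_ad had, zero_smul]
  -- the difference is alternating
  set D : V → V → V → M := fun a b c =>
    z a b c - ∑ j, A3 (t j) a b c • z (t j).1 (t j).2.1 (t j).2.2 with hD
  have d1 : ∀ a b c, D a b c = - D b a c := by
    intro a b c
    simp only [hD]
    rw [hz.1 a b c, neg_sub, sub_eq_add_neg, sub_eq_add_neg, add_comm]
    congr 1
    rw [← Finset.sum_neg_distrib]
    refine Finset.sum_congr rfl fun j _ => ?_
    rw [A3_swap1 (t j) a b c, neg_smul, neg_neg]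
  have d2 : ∀ a b c, D a b c = - D a c b := by
    intro a b c
    simp only [hD]
    rw [hz.2.1 a b c, neg_sub, sub_eq_add_neg, sub_eq_add_neg, add_comm]
    congr 1
    rw [← Finset.sum_neg_distrib]
    refine Finset.sum_congr rfl fun j _ => ?_
    rw [A3_swap2 (t j) a b c, neg_smul, neg_neg]
  have d0 : ∀ a b c, a < b → b < c → D a b c = 0 := by
    intro a b c hab hbc
    simp only [hD]
    rw [key a b c hab hbc, sub_self]
  have hne : ∀ x y, ad x y → x ≠ y := by
    rintro x y hxy rfl
    exact h.irr x hxy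
  have d3 : ∀ a b c, a < b → b ≠ c → a ≠ c → D a b c = 0 := by
    intro a b c hab hbc hac
    rcases lt_or_gt_of_ne hbc with h1 | h1
    · exact d0 a b c hab h1
    · rw [d2]
      rcases lt_or_gt_of_ne hac with h2 | h2
      · rw [d0 a c b h2 h1, neg_zero]
      · rw [d1, neg_neg]
        exact d0 c a b h2 hab
  have d4 : D a b c = 0 := by
    have n1 := hne _ _ had.1
    have n2 := hne _ _ had.2.1
    have n3 := hne _ _ had.2.2
    rcases lt_or_gt_of_ne n1 with h1 | h1
    · exact d3 a b c h1 n2 n3
    · rw [d1, d3 b a c h1 n3 n2, neg_zero]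
  exact sub_eq_zero.1 d4

/-- The boundary operator on indexed functions. -/
def bd (f0 f1 f2 : Fin nT → Fin nE) (u : Fin nT → M) (i : Fin nE) : M :=
  ∑ j, ((if f0 j = i then 1 else 0) - (if f1 j = i then 1 else 0) +
    (if f2 j = i then 1 else 0) : ℤ) • u j

theorem sum_alt3 (u : Fin nT → M) (b c : V) :
    ∑ a, ∑ j, A3 (t j) a b c • u j = ∑ i, A2 (e i) b c • bd f0 f1 f2 u i := by
  rw [Finset.sum_comm]
  have h1 : ∀ j, ∑ a, A3 (t j) a b c • u j =
      ∑ i, A2 (e i) b c • (((if f0 j = i then 1 else 0) - (if f1 j = i then 1 else 0) +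
        (if f2 j = i then 1 else 0) : ℤ) • u j) := by
    intro j
    rw [← Finset.sum_smul, sum_A3, ← h.h0 j, ← h.h1 j, ← h.h2 j]
    simp only [smul_smul]
    rw [← Finset.sum_smul]
    congr 1
    simp only [mul_add, mul_sub, Finset.sum_add_distrib, Finset.sum_sub_distrib, mul_ite, mul_one,
      mul_zero, Finset.sum_ite_eq, Finset.mem_univ, if_true]
  simp only [h1, bd, Finset.smul_sum]
  rw [Finset.sum_comm]

theorem list_sum_smul (i : Fin nE) (F : Fin nT → M) :
    bd f0 f1 f2 F i = ((co i).map fun p => p.2 • F p.1).sum := by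
  unfold bd
  simp only [h.hco i]
  generalize co i = l
  induction l with
  | nil => simp
  | cons p l ih =>
    simp only [List.map_cons, List.sum_cons, add_smul, Finset.sum_add_distrib]
    rw [ih]
    congr 1
    simp only [ite_smul, zero_smul, Finset.sum_ite_eq, Finset.mem_univ, if_true]

theorem bd_S1 {w : Fin nE → M}
    (hw : ∀ v, ∑ i, ((if (e i).2 = v then 1 else 0) - (if (e i).1 = v then 1 else 0) : ℤ) • w i = 0)
    (i : Fin nE) : bd f0 f1 f2 (fun j => ∑ i', S1 j i' • w i') i = w i := by
  rw [h.list_sum_smul]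
  have h1 : ((co i).map fun p => p.2 • ∑ i', S1 p.1 i' • w i').sum =
      ∑ i', (((co i).map fun p => p.2 * S1 p.1 i').sum) • w i' := by
    generalize co i = l
    induction l with
    | nil => simp
    | cons p l ih =>
      simp only [List.map_cons, List.sum_cons, add_smul, Finset.sum_add_distrib]
      rw [ih]
      congr 1
      rw [Finset.smul_sum]
      refine Finset.sum_congr rfl fun i' _ => ?_
      rw [smul_smul]
  rw [h1]
  have h2 : ∀ i', ((co i).map fun p => p.2 * S1 p.1 i').sum =
      (if i = i' then 1 else 0) - (S0 i (e i').2 - S0 i (e i').1) := by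
    intro i'
    have := h.hS0 i i'
    linarith
  simp only [h2, sub_smul (M := M), Finset.sum_sub_distrib, ite_smul, one_smul, zero_smul,
    Finset.sum_ite_eq, Finset.mem_univ, if_true]
  have h3 : ∑ i', S0 i (e i').2 • w i' - ∑ i', S0 i (e i').1 • w i' =
      ∑ v, S0 i v • ∑ i', ((if (e i').2 = v then 1 else 0) -
        (if (e i').1 = v then 1 else 0) : ℤ) • w i' := by
    simp only [Finset.smul_sum]
    rw [Finset.sum_comm, ← Finset.sum_sub_distrib]
    refine Finset.sum_congr rfl fun i' _ => ?_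
    have h4 : ∀ v, S0 i v • (((if (e i').2 = v then 1 else 0) -
        (if (e i').1 = v then 1 else 0) : ℤ) • w i') =
          (if (e i').2 = v then S0 i v • w i' else 0) -
            (if (e i').1 = v then S0 i v • w i' else 0) := by
      intro v
      split_ifs <;> simp
    simp only [h4, Finset.sum_sub_distrib, Finset.sum_ite_eq, Finset.mem_univ, if_true]
  rw [h3]
  simp only [hw, smul_zero, Finset.sum_const_zero, sub_zero]

theorem S1_bd (u : Fin nT → M) (j : Fin nT) : ∑ i, S1 j i • bd f0 f1 f2 u i = u j := by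
  unfold bd
  simp only [Finset.smul_sum, smul_smul]
  rw [Finset.sum_comm]
  simp only [← Finset.sum_smul, mul_add, mul_sub, Finset.sum_add_distrib, Finset.sum_sub_distrib,
    mul_ite, mul_one, mul_zero, Finset.sum_ite_eq, Finset.mem_univ, if_true, h.hS1 j, ite_smul,
    one_smul, zero_smul]

end rep

theorem acyc : Acyc ad where
  ac1 M _ x hx := by
    obtain ⟨r⟩ := h.ne
    -- paths
    have hpath : ∀ b : V, ∀ m : M, ∃ y : V → V → M, IsAlt2 ad Set.univ y ∧
        ∀ c, ∑ a, y a c = (if c = b then m else 0) - (if c = r then m else 0) := by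
      intro b m
      induction h.conn r b with
      | refl => exact ⟨0, ⟨by simp, by simp⟩, by simp⟩
      | @tail b c _ hbc ih =>
        obtain ⟨y, hy, hy'⟩ := ih
        refine ⟨fun p q => y p q + ((if p = b ∧ q = c then m else 0) -
          (if p = c ∧ q = b then m else 0)), ⟨?_, ?_⟩, ?_⟩
        · intro p q
          dsimp only
          rw [hy.1 p q]
          have e1 : (p = b ∧ q = c) = (q = c ∧ p = b) := propext and_comm
          have e2 : (p = c ∧ q = b) = (q = b ∧ p = c) := propext and_comm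
          simp only [e1, e2]
          abel
        · intro p q hpq
          dsimp only
          rw [hy.2 p q hpq, zero_add, if_neg, if_neg, sub_zero]
          · rintro ⟨rfl, rfl⟩
            exact hpq ⟨trivial, trivial, h.symm _ _ hbc⟩
          · rintro ⟨rfl, rfl⟩
            exact hpq ⟨trivial, trivial, hbc⟩
        · intro q
          rw [Finset.sum_add_distrib, hy', Finset.sum_sub_distrib]
          have e1 : ∑ p, (if p = b ∧ q = c then m else 0) = if q = c then m else 0 := by
            rw [Finset.sum_eq_single b]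
            · simp
            · intro p _ hp
              rw [if_neg fun h1 => hp h1.1]
            · simp
          have e2 : ∑ p, (if p = c ∧ q = b then m else 0) = if q = b then m else 0 := by
            rw [Finset.sum_eq_single c]
            · simp
            · intro p _ hp
              rw [if_neg fun h1 => hp h1.1]
            · simp
          rw [e1, e2]
          abel
    choose Y hY hY' using hpath
    refine ⟨fun p q => ∑ b, Y b (x b) p q, ⟨?_, ?_⟩, ?_⟩
    · intro p q
      rw [← Finset.sum_neg_distrib]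
      exact Finset.sum_congr rfl fun b _ => (hY b (x b)).1 p q
    · intro p q hpq
      exact Finset.sum_eq_zero fun b _ => (hY b (x b)).2 p q hpq
    · intro q
      rw [Finset.sum_comm]
      simp only [hY', Finset.sum_sub_distrib]
      have e1 : ∑ b, (if q = r then x b else 0) = 0 := by
        by_cases hq : q = r
        · simp only [if_pos hq]
          exact hx
        · simp [if_neg hq]
      rw [e1, sub_zero]
      simp
  ac2 M _ y hy hb := by
    set w : Fin nE → M := fun i => y (e i).1 (e i).2 with hw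
    have hw' : ∀ v, ∑ i, ((if (e i).2 = v then 1 else 0) -
        (if (e i).1 = v then 1 else 0) : ℤ) • w i = 0 := by
      intro v
      rw [← hb v]
      have h1 : ∀ a, y a v = ∑ i, A2 (e i) a v • w i := fun a => h.rep2 hy a v
      simp only [h1]
      rw [Finset.sum_comm]
      refine Finset.sum_congr rfl fun i _ => ?_
      rw [← Finset.sum_smul, sum_A2]
    refine ⟨fun a b c => ∑ j, A3 (t j) a b c • ∑ i', S1 j i' • w i', ⟨?_, ?_, ?_⟩, ?_⟩
    · intro a b c
      rw [← Finset.sum_neg_distrib]
      refine Finset.sum_congr rfl fun j _ => ?_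
      rw [A3_swap1 (t j) a b c, neg_smul]
    · intro a b c
      rw [← Finset.sum_neg_distrib]
      refine Finset.sum_congr rfl fun j _ => ?_
      rw [A3_swap2 (t j) a b c, neg_smul]
    · intro a b c habc
      refine Finset.sum_eq_zero fun j _ => ?_
      rw [h.A3_ad, zero_smul]
      rintro ⟨h1, h2, h3⟩
      exact habc ⟨trivial, trivial, trivial, h1, h2, h3⟩
    · intro b c
      rw [h.sum_alt3 (fun j => ∑ i', S1 j i' • w i') b c]
      simp only [h.bd_S1 hw']
      exact h.rep2 hy b c
  ac3 M _ z hz hb := by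
    set u : Fin nT → M := fun j => z (t j).1 (t j).2.1 (t j).2.2 with hu
    have h1 : ∀ i, bd f0 f1 f2 u i = 0 := by
      intro i
      have h2 := hb (e i).1 (e i).2
      have h3 : ∀ a, z a (e i).1 (e i).2 = ∑ j, A3 (t j) a (e i).1 (e i).2 • u j :=
        fun a => h.rep3 hz a _ _
      simp only [h3] at h2
      rw [h.sum_alt3, Finset.sum_eq_single i] at h2
      · rw [h.A2_lt (h.e_lt i), if_pos rfl, one_smul] at h2
        exact h2
      · intro k _ hk
        rw [h.A2_lt (h.e_lt i), if_neg, zero_smul]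
        intro h4
        exact hk (h.e_inj _ _ h4)
      · simp
    have h2 : ∀ j, u j = 0 := by
      intro j
      rw [← h.S1_bd u j]
      simp [h1]
    intro a b c
    rw [h.rep3 hz]
    refine Finset.sum_eq_zero fun j _ => ?_
    have h3 := h2 j
    simp only [hu] at h3
    rw [h3, smul_zero]

end HData

end Pool.Agent.R662.HC.M8
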