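import Pool.Agent.R662.HC.Stm
import Pool.Agent.Helper158.Bridge

/-!
# The homological 1-2-3 conjecture fails: comparison of `FPc` and `FPs`
-/

set_option autoImplicit false

namespace Pool.Agent.R662.HC.Conv

open CategoryTheory Function
open Pool.Agent.W386 (FPs Triv ZG FGF aug aug_of sumAug sumAug_surj)
open Pool.Agent.Helper158
open Pool.Agent.Y66.HC (FPc)

section cover

variable (R : Type) [Ring R]

/-- a submodule of a free module -/
structure St where
  /-- the basis -/
  ι : Type
  /-- the submodule -/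
  K : Submodule R (ι →₀ R)

variable {R}

theorem exists_cover (s : St R) : ∃ (ι' : Type) (f : (ι' →₀ R) →ₗ[R] s.K),
    Surjective f ∧ (s.K.FG → Finite ι') := by
  by_cases h : s.K.FG
  · have : Module.Finite R s.K := Module.Finite.iff_fg.2 h
    obtain ⟨n, f, hf⟩ := Module.Finite.exists_fin' R s.K
    exact ⟨Fin n, f ∘ₗ (Finsupp.linearEquivFunOnFinite R R (Fin n)).toLinearMap,
      hf.comp (Finsupp.linearEquivFunOnFinite R R (Fin n)).surjective, fun _ => inferInstance⟩
  · exact ⟨s.K, Finsupp.linearCombination R id, fun x => ⟨Finsupp.single x 1, by simp⟩,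
      fun h' => absurd h' h⟩

/-- the basis of the cover -/
def nxι (s : St R) : Type := (exists_cover s).choose

/-- the cover -/
noncomputable def cov (s : St R) : (nxι s →₀ R) →ₗ[R] s.K := (exists_cover s).choose_spec.choose

theorem cov_surj (s : St R) : Surjective (cov s) := (exists_cover s).choose_spec.choose_spec.1

theorem nxι_finite (s : St R) (h : s.K.FG) : Finite (nxι s) :=
  (exists_cover s).choose_spec.choose_spec.2 h

/-- the next state -/
noncomputable def nx (s : St R) : St R := ⟨nxι s, LinearMap.ker (cov s)⟩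

/-- the sequence of states -/
noncomputable def st (s : St R) : ℕ → St R
  | 0 => s
  | i + 1 => nx (st s i)

/-- the differentials -/
noncomputable def dd (s : St R) (i : ℕ) : ((st s (i + 1)).ι →₀ R) →ₗ[R] ((st s i).ι →₀ R) :=
  (st s i).K.subtype ∘ₗ cov (st s i)

theorem dd_apply (s : St R) (i : ℕ) (x : (st s (i + 1)).ι →₀ R) :
    dd s i x = (cov (st s i) x : (st s i).ι →₀ R) := rfl

theorem range_dd (s : St R) (i : ℕ) : LinearMap.range (dd s i) = (st s i).K := by
  ext x
  constructor
  · rintro ⟨y, rfl⟩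
    exact (cov (st s i) y).2
  · intro hx
    obtain ⟨y, hy⟩ := cov_surj (st s i) ⟨x, hx⟩
    exact ⟨y, congrArg Subtype.val hy⟩

theorem ker_dd (s : St R) (i : ℕ) (x : (st s (i + 1)).ι →₀ R) :
    dd s i x = 0 ↔ x ∈ (st s (i + 1)).K := by
  rw [dd_apply]
  change _ ↔ cov (st s i) x = 0
  exact ZeroMemClass.coe_eq_zero

theorem fg_of_fps {M : Type} [AddCommGroup M] [Module R M] {j : ℕ} (h : FPs R (j + 1) M) :
    Module.Finite R M := by
  obtain ⟨k, f, hf, -⟩ := h
  exact Module.Finite.of_surjective f hf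

theorem fgf_finsupp {ι : Type} [Finite ι] : FGF R (ι →₀ R) := by
  have := Fintype.ofFinite ι
  exact ⟨Fintype.card ι, ⟨(Finsupp.linearEquivFunOnFinite R R ι).trans
    (LinearEquiv.funCongrLeft R R (Fintype.equivFin ι).symm)⟩⟩

theorem st_fps (s : St R) (hs : Finite s.ι) (m : ℕ) (h : FPs R m s.K) :
    ∀ i ≤ m, FPs R (m - i) (st s i).K ∧ Finite (st s i).ι := by
  intro i
  induction i with
  | zero => intro _; exact ⟨h, hs⟩
  | succ i ih =>
    intro hi
    obtain ⟨h1, h2⟩ := ih (by omega)
    have h3 : m - i = (m - (i + 1)) + 1 := by omega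
    rw [h3] at h1
    have h4 : (st s i).K.FG := Module.Finite.iff_fg.1 (fg_of_fps h1)
    have h5 : Finite (nxι (st s i)) := nxι_finite _ h4
    exact ⟨FPs.ker_of_cover fgf_finsupp h1 (cov (st s i)) (cov_surj _), h5⟩

end cover

section c2

variable {G : Type} [Group G]

/-- the augmentation of the free module of rank one -/
noncomputable def ε0 (G : Type) [Group G] : (Fin 1 →₀ ZG G) →ₗ[ZG G] Triv G :=
  sumAug G 1 ∘ₗ (Finsupp.linearEquivFunOnFinite (ZG G) (ZG G) (Fin 1)).toLinearMap

theorem ε0_surj : Surjective (ε0 G) :=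
  (sumAug_surj ⟨fun _ => 1, by simp⟩).comp
    (Finsupp.linearEquivFunOnFinite (ZG G) (ZG G) (Fin 1)).surjective

/-- the initial state -/
noncomputable def s0 (G : Type) [Group G] : St (ZG G) := ⟨Fin 1, LinearMap.ker (ε0 G)⟩

theorem reso : Reso (G := G) (fun i => ((st (s0 G) i).ι →₀ ZG G)) (dd (s0 G))
    (ε0 G).toAddMonoidHom where
  surj := ε0_surj
  equi g x := by
    have h1 := (ε0 G).map_smul (MonoidAlgebra.of ℤ G g) x
    have h2 : aug G (MonoidAlgebra.of ℤ G g) • (show ℤ from ε0 G x) =
        (show ℤ from ε0 G x) := by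
      rw [aug_of, one_smul]
    exact h1.trans h2
  ex0 x := by
    rw [range_dd]
    rfl
  ex i x := by
    rw [range_dd]
    exact ker_dd _ _ _

theorem smul_mem_span {M : Type} [AddCommGroup M] [Module (ZG G) M] (s : Set M) (r : ZG G)
    (y : M) (hy : y ∈ s) :
    r • y ∈ Submodule.span ℤ (Set.range fun p : G × s => MonoidAlgebra.of ℤ G p.1 • (p.2 : M)) := by
  induction r using MonoidAlgebra.induction_on with
  | of g => exact Submodule.subset_span ⟨(g, ⟨y, hy⟩), rfl⟩
  | add a b ha hb => rw [add_smul]; exact add_mem ha hb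
  | smul n a ha => rw [smul_assoc]; exact Submodule.smul_mem _ _ ha

theorem single_span {ι : Type} [Fintype ι] (x : ι →₀ ZG G) (s : Set (ι →₀ ZG G))
    (hs : ∀ j, Finsupp.single j 1 ∈ s) :
    x ∈ Submodule.span ℤ
      (Set.range fun p : G × s => MonoidAlgebra.of ℤ G p.1 • (p.2 : ι →₀ ZG G)) := by
  have h1 : x = ∑ j, x j • Finsupp.single j (1 : ZG G) := by
    classical
    ext1 j
    simp
  rw [h1]
  exact sum_mem fun j _ => smul_mem_span s _ _ (hs j)

theorem c2 : PropC2 := by
  intro m G _ h
  refine ⟨(reso (G := G)).pr, fun k hk => ?_⟩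
  have h1 : FPs (ZG G) m (LinearMap.ker (ε0 G)) :=
    FPs.ker_of_cover fgf_finsupp h (ε0 G) ε0_surj
  have h2 : Finite (st (s0 G) k).ι := (st_fps (s0 G) (inferInstanceAs (Finite (Fin 1))) m h1 k hk).2
  have := Fintype.ofFinite (st (s0 G) k).ι
  classical
  let s : Finset ((st (s0 G) k).ι →₀ ZG G) :=
    Finset.univ.image fun j => Finsupp.single j (1 : ZG G)
  refine ⟨s, fun x => ?_⟩
  exact single_span x (s : Set ((st (s0 G) k).ι →₀ ZG G))
    (fun j => Finset.mem_coe.2 (Finset.mem_image_of_mem _ (Finset.mem_univ j)))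

end c2

section c1

theorem fps_proj {R : Type} [Ring R] (j : ℕ) : ∀ (P : Type) [AddCommGroup P] [Module R P]
    [Module.Finite R P] [Module.Projective R P], FPs R j P := by
  induction j with
  | zero => intros; trivial
  | succ j ih =>
    intro P _ _ _ _
    obtain ⟨n, f, hf⟩ := Module.Finite.exists_fin' R P
    obtain ⟨s, hs⟩ := Module.projective_lifting_property f LinearMap.id hf
    have hs' : ∀ x, f (s x) = x := fun x => LinearMap.congr_fun hs x
    let r : (Fin n → R) →ₗ[R] LinearMap.ker f := (LinearMap.id - s ∘ₗ f).codRestrict _ (by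
      intro b
      rw [LinearMap.mem_ker]
      simp [hs'])
    have hr : ∀ b, ((r b : LinearMap.ker f) : Fin n → R) = b - s (f b) := fun b => rfl
    have hri : r ∘ₗ (LinearMap.ker f).subtype = LinearMap.id := by
      ext1 x
      apply Subtype.ext
      change ((r x.1 : LinearMap.ker f) : Fin n → R) = x.1
      rw [hr, LinearMap.mem_ker.1 x.2, map_zero, sub_zero]
    have h1 : Module.Finite R (LinearMap.ker f) := Module.Finite.of_surjective r (by
      intro x
      exact ⟨x.1, LinearMap.congr_fun hri x⟩)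
    have h2 : Module.Projective R (LinearMap.ker f) :=
      Module.Projective.of_split (LinearMap.ker f).subtype r hri
    exact ⟨n, f, hf, ih _⟩

variable {G : Type} [Group G]

/-- a representation as a module over the group ring -/
noncomputable abbrev F (G : Type) [Group G] : Rep ℤ G ⥤ ModuleCat (ZG G) :=
  Rep.toModuleMonoidAlgebra

theorem F_proj (X : Rep.{0} ℤ G) [Projective X] : Module.Projective (ZG G) ((F G).obj X) := by
  have h : Projective ((Rep.equivalenceModuleMonoidAlgebra (k := ℤ) (G := G)).functor.obj X) :=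
    (Rep.equivalenceModuleMonoidAlgebra.map_projective_iff X).2 inferInstance
  exact (IsProjective.iff_projective _).2 h

theorem F_fin' {k : Type} [CommRing k] (X : Rep.{0} k G) (s : Finset X.V)
    (hs : ∀ x : X.V, x ∈ Submodule.span k (Set.range (fun p : G × s => X.ρ p.1 (p.2 : X.V)))) :
    Module.Finite (MonoidAlgebra k G) (Rep.toModuleMonoidAlgebra.obj X) := by
  have key : ∀ y : X.V, X.ρ.asModuleEquiv.symm y ∈ Submodule.span (MonoidAlgebra k G)
        (X.ρ.asModuleEquiv.symm '' (s : Set X.V)) := by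
    intro y
    have hy := hs y
    induction hy using Submodule.span_induction with
    | mem y hy =>
      obtain ⟨⟨g, a⟩, rfl⟩ := hy
      simp only
      rw [Representation.asModuleEquiv_symm_map_rho]
      exact Submodule.smul_mem _ _ (Submodule.subset_span ⟨a, a.2, rfl⟩)
    | zero => rw [map_zero]; exact zero_mem _
    | add a b _ _ ha hb => rw [map_add]; exact add_mem ha hb
    | smul n a _ ha =>
      have : X.ρ.asModuleEquiv.symm (n • a) =
          algebraMap k (MonoidAlgebra k G) n • X.ρ.asModuleEquiv.symm a := by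
        rw [algebraMap_smul, map_smul]
      rw [this]
      exact Submodule.smul_mem _ _ ha
  classical
  have h2 : Module.Finite (MonoidAlgebra k G) X.ρ.asModule := by
    refine ⟨⟨s.image X.ρ.asModuleEquiv.symm, ?_⟩⟩
    rw [eq_top_iff]
    intro x _
    rw [Finset.coe_image]
    exact key (X.ρ.asModuleEquiv x)
  exact h2

theorem span_int {V : Type} [AddCommGroup V] (i₁ i₂ : Module ℤ V) (S : Set V) (x : V)
    (h : x ∈ @Submodule.span ℤ V _ _ i₁ S) : x ∈ @Submodule.span ℤ V _ _ i₂ S := by
  obtain rfl : i₁ = i₂ := Subsingleton.elim _ _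
  exact h

theorem F_fin (X : Rep.{0} ℤ G) (s : Finset X.V)
    (hs : ∀ x : X.V, x ∈ Submodule.span ℤ (Set.range (fun p : G × s => X.ρ p.1 (p.2 : X.V)))) :
    Module.Finite (ZG G) ((F G).obj X) :=
  F_fin' X s fun x => span_int _ _ _ _ (hs x)

theorem F_triv : Nonempty ((F G).obj (Rep.trivial ℤ G ℤ) ≃ₗ[ZG G] Triv G) := by
  let f : (Rep.trivial ℤ G ℤ).ρ.asModule →ₗ[ℤ] Triv G :=
    ((Rep.trivial ℤ G ℤ).ρ.asModuleEquiv.toAddEquiv.toAddMonoidHom : _ →+ ℤ).toIntLinearMap
  have hf : ∀ x, f x = (Rep.trivial ℤ G ℤ).ρ.asModuleEquiv x := fun x => rfl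
  have h : ∀ (g : G) (x), f (MonoidAlgebra.of ℤ G g • x) = MonoidAlgebra.of ℤ G g • f x := by
    intro g x
    have h2 : aug G (MonoidAlgebra.of ℤ G g) • (show ℤ from f x) = (show ℤ from f x) := by
      rw [aug_of, one_smul]
    refine Eq.trans ?_ h2.symm
    change (Rep.trivial ℤ G ℤ).ρ.asModuleEquiv (MonoidAlgebra.of ℤ G g • x) =
      (Rep.trivial ℤ G ℤ).ρ.asModuleEquiv x
    rw [Representation.asModuleEquiv_map_smul]
    simp
  refine ⟨LinearEquiv.ofBijective (mkLin (k := ℤ) f h) ⟨?_, ?_⟩⟩
  · intro x y hxy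
    exact (Rep.trivial ℤ G ℤ).ρ.asModuleEquiv.injective hxy
  · intro x
    exact (Rep.trivial ℤ G ℤ).ρ.asModuleEquiv.surjective x

theorem c1 : PropC1 := by
  intro m G _ ⟨R, hR⟩
  let A : ℕ → ModuleCat (ZG G) := fun k => (F G).obj (R.complex.X k)
  let d : ∀ k, A (k + 1) →ₗ[ZG G] A k := fun k => ((F G).map (R.complex.d (k + 1) k)).hom
  let ε : A 0 →ₗ[ZG G] (F G).obj (Rep.trivial ℤ G ℤ) := ((F G).map (R.π.f 0)).hom
  have hex : ∀ k, LinearMap.ker (d k) = LinearMap.range (d (k + 1)) := by
    intro k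
    have := (R.exact_succ k).map (F G)
    have h2 := (ShortComplex.moduleCat_exact_iff_range_eq_ker _).1 this
    exact h2.symm
  have hex0 : LinearMap.ker ε = LinearMap.range (d 0) := by
    have := R.exact₀.map (F G)
    have h2 := (ShortComplex.moduleCat_exact_iff_range_eq_ker _).1 this
    exact h2.symm
  have hsurj : Surjective ε := by
    have h1 : Epi ((F G).map (R.π.f 0)) := inferInstance
    exact (ModuleCat.epi_iff_surjective _).1 h1
  have hfin : ∀ k ≤ m, Module.Finite (ZG G) (A k) := fun k hk => by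
    obtain ⟨s, hs⟩ := hR k hk
    exact F_fin _ s hs
  have hproj : ∀ k, Module.Projective (ZG G) (A k) := fun k => by
    have := R.projective k
    exact F_proj _
  have key : ∀ i k, k + i = m → FPs (ZG G) i (LinearMap.range (d k)) := by
    intro i
    induction i with
    | zero => intros; trivial
    | succ i ih =>
      intro k hk
      have h1 := ih (k + 1) (by omega)
      have h2 : Module.Finite (ZG G) (A (k + 1)) := hfin _ (by omega)
      have h3 : Module.Projective (ZG G) (A (k + 1)) := hproj _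
      refine FPs.quot (d k).rangeRestrict (d k).surjective_rangeRestrict ?_ (fps_proj _ _)
      rw [LinearMap.ker_rangeRestrict, hex]
      exact h1
  obtain ⟨e⟩ := F_triv (G := G)
  refine FPs.equiv e ?_
  have h2 : Module.Finite (ZG G) (A 0) := hfin _ (by omega)
  have h3 : Module.Projective (ZG G) (A 0) := hproj _
  refine FPs.quot ε hsurj ?_ (fps_proj _ _)
  rw [hex0]
  exact key m 0 (by omega)

end c1

end Pool.Agent.R662.HC.Conv
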