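import Pool.Agent.R662.HC.Stm
import Pool.Agent.W490.DU.Grp
import Pool.Agent.W571.DU.BC
import Pool.Agent.W326.DU.Aug

/-!
# Left ideals of group rings attached to subgroups
-/

set_option autoImplicit false

namespace Pool.Agent.R662.HC

open Pool.Agent.W326.DU (IL StarP PropAUG augm)
open Pool.Agent.W490.DU (of_sub_mem_IL IL_le)
open Pool.Agent.W386
open Function

section cos

variable {P : Type} [Group P]

/-- push forward of an element of the group ring along a map -/
noncomputable def pushf {X : Type} (ψ : P → X) : ZG P →+ (X →₀ ℤ) where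
  toFun x := x.coeff.mapDomain ψ
  map_zero' := by simp
  map_add' x y := by rw [MonoidAlgebra.coeff_add, Finsupp.mapDomain_add]

theorem pushf_single {X : Type} (ψ : P → X) (g : P) (r : ℤ) :
    pushf ψ (MonoidAlgebra.single g r) = Finsupp.single (ψ g) r := by
  change (MonoidAlgebra.single g r : MonoidAlgebra ℤ P).coeff.mapDomain ψ = _
  rw [MonoidAlgebra.coeff_single, Finsupp.mapDomain_single]

theorem pushf_mul {X : Type} (ψ : P → X) (e : P) (he : ∀ g, ψ (g * e) = ψ g) (x : ZG P) :
    pushf ψ (x * (MonoidAlgebra.of ℤ P e - 1)) = 0 := by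
  have key : (pushf ψ).comp (AddMonoidHom.mulRight (MonoidAlgebra.of ℤ P e - 1)) = 0 := by
    refine MonoidAlgebra.addMonoidHom_ext fun g r => ?_
    change pushf ψ (MonoidAlgebra.single g r * (MonoidAlgebra.of ℤ P e - 1)) = 0
    rw [mul_sub, mul_one, MonoidAlgebra.of_apply, MonoidAlgebra.single_mul_single, mul_one,
      map_sub, pushf_single, pushf_single, he, sub_self]
  exact DFunLike.congr_fun key x

theorem pushf_IL {X : Type} (ψ : P → X) (S : Set P) (he : ∀ e ∈ S, ∀ g, ψ (g * e) = ψ g)
    (x : ZG P) (hx : x ∈ IL ℤ S) : pushf ψ x = 0 := by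
  have h : ∀ a : ZG P, pushf ψ (a * x) = 0 := by
    unfold IL at hx
    induction hx using Submodule.span_induction with
    | mem x hx =>
      intro a
      obtain ⟨s, hs, rfl⟩ := hx
      exact pushf_mul ψ s (he s hs) a
    | zero => intro a; rw [mul_zero, map_zero]
    | add x y _ _ hx hy => intro a; rw [mul_add, map_add, hx, hy, add_zero]
    | smul b x _ hx => intro a; rw [smul_eq_mul, ← mul_assoc]; exact hx _
  have := h 1
  rwa [one_mul] at this

/-- the criterion -/
theorem mem_IL_of_pushf (E : Subgroup P) (x : ZG P)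
    (h : pushf (QuotientGroup.mk : P → P ⧸ E) x = 0) : x ∈ IL ℤ (E : Set P) := by
  classical
  let mk := (IL ℤ (E : Set P)).mkQ
  let D : ((P ⧸ E) →₀ ℤ) →+ (ZG P ⧸ IL ℤ (E : Set P)) :=
    Finsupp.liftAddHom (fun c => mk.toAddMonoidHom.comp
      ((MonoidAlgebra.singleAddHom (R := ℤ) c.out)))
  have hD : ∀ c r, D (Finsupp.single c r) = mk (MonoidAlgebra.single c.out r) := by
    intro c r
    simp [D]
  have key : mk.toAddMonoidHom = D.comp (pushf (QuotientGroup.mk : P → P ⧸ E)) := by
    refine MonoidAlgebra.addMonoidHom_ext fun g r => ?_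
    change mk (MonoidAlgebra.single g r) = D (pushf _ (MonoidAlgebra.single g r))
    rw [pushf_single, hD]
    rw [← sub_eq_zero, ← map_sub]
    change Submodule.Quotient.mk _ = _
    rw [Submodule.Quotient.mk_eq_zero]
    set s := (QuotientGroup.mk g : P ⧸ E).out with hs
    have h1 : s⁻¹ * g ∈ E := by
      rw [← QuotientGroup.eq, hs, QuotientGroup.out_eq']
    have h2 : (MonoidAlgebra.single g r : ZG P) - MonoidAlgebra.single s r =
        (MonoidAlgebra.single s r : ZG P) * (MonoidAlgebra.of ℤ P (s⁻¹ * g) - 1) := by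
      rw [mul_sub, mul_one, MonoidAlgebra.of_apply, MonoidAlgebra.single_mul_single, mul_one,
        mul_inv_cancel_left]
    rw [h2]
    exact Submodule.smul_mem _ _ (Submodule.subset_span ⟨_, h1, rfl⟩)
  have h3 : mk x = 0 := by
    have := DFunLike.congr_fun key x
    change mk x = D (pushf _ x) at this
    rw [this, h, map_zero]
  exact (Submodule.Quotient.mk_eq_zero _).1 h3

theorem of_sub_mem_IL_iff (E : Subgroup P) (e : P) :
    MonoidAlgebra.of ℤ P e - 1 ∈ IL ℤ (E : Set P) ↔ e ∈ E := by
  constructor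
  · intro h
    have h1 := pushf_IL (QuotientGroup.mk : P → P ⧸ E) (E : Set P) (by
      intro e he g
      rw [QuotientGroup.eq]
      simpa using he) _ h
    rw [map_sub, MonoidAlgebra.of_apply, MonoidAlgebra.one_def, pushf_single, pushf_single,
      sub_eq_zero] at h1
    have h2 := (Finsupp.single_eq_single_iff _ _ _ _).1 h1
    rcases h2 with h2 | h2
    · have := h2.1
      rw [eq_comm, QuotientGroup.eq] at this
      simpa using this
    · exact absurd h2.1 one_ne_zero
  · intro h
    exact of_sub_mem_IL ℤ (by rw [Subgroup.closure_eq]; exact h)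

/-- a subgroup whose left ideal is finitely generated is finitely generated -/
theorem fg_of_IL_fg (E : Subgroup P) (h : (IL ℤ (E : Set P)).FG) : E.FG := by
  classical
  obtain ⟨T, hT, hfg⟩ := (Submodule.fg_span_iff_fg_span_finset_subset _).1 h
  choose! f hf1 hf2 using fun t (ht : t ∈ (T : Set (ZG P))) => hT ht
  refine ⟨T.image f, ?_⟩
  apply le_antisymm
  · rw [Subgroup.closure_le]
    intro x hx
    rw [Finset.coe_image] at hx
    obtain ⟨t, ht, rfl⟩ := hx
    exact hf1 t ht
  · intro e he
    rw [← of_sub_mem_IL_iff]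
    have h1 : MonoidAlgebra.of ℤ P e - 1 ∈ IL ℤ (E : Set P) := (of_sub_mem_IL_iff E e).2 he
    have h2 : IL ℤ (E : Set P) ≤
        IL ℤ ((Subgroup.closure (↑(T.image f) : Set P) : Subgroup P) : Set P) := by
      unfold IL
      rw [hfg]
      refine Submodule.span_mono ?_
      intro t ht
      refine ⟨f t, Subgroup.subset_closure ?_, hf2 t ht⟩
      rw [Finset.coe_image]
      exact ⟨t, ht, rfl⟩
    exact h2 h1

/-- pulling back -/
theorem mem_IL_comap {G : Type} [Group G] (p : P →* G) (hp : Surjective p) (A : Subgroup G)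
    (x : ZG P) (hx : MonoidAlgebra.mapDomainRingHom ℤ p x ∈ IL ℤ (A : Set G)) :
    x ∈ IL ℤ (A.comap p : Set P) := by
  apply mem_IL_of_pushf
  choose s hs using hp
  let ψ : G → P ⧸ A.comap p := fun g => QuotientGroup.mk (s g)
  have h1 := pushf_IL ψ (A : Set G) (by
    intro e he g
    change (QuotientGroup.mk (s (g * e)) : P ⧸ A.comap p) = QuotientGroup.mk (s g)
    rw [eq_comm, QuotientGroup.eq, Subgroup.mem_comap, map_mul, map_inv, hs, hs]
    simpa using he) _ hx
  have h2 : (pushf ψ).comp (MonoidAlgebra.mapDomainRingHom ℤ p).toAddMonoidHom =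
      pushf (QuotientGroup.mk : P → P ⧸ A.comap p) := by
    refine MonoidAlgebra.addMonoidHom_ext fun g r => ?_
    change pushf ψ (MonoidAlgebra.mapDomainRingHom ℤ p (MonoidAlgebra.single g r)) = _
    rw [MonoidAlgebra.mapDomainRingHom_apply, MonoidAlgebra.mapDomain_single, pushf_single,
      pushf_single]
    congr 1
    change (QuotientGroup.mk (s (p g)) : P ⧸ A.comap p) = QuotientGroup.mk g
    rw [QuotientGroup.eq, Subgroup.mem_comap, map_mul, map_inv, hs]
    simp
  have h3 := DFunLike.congr_fun h2 x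
  rw [← h3]
  exact h1

theorem map_IL {G : Type} [Group G] (p : P →* G) (S : Set P) (T : Set G) (h : ∀ s ∈ S, p s ∈ T)
    (x : ZG P) (hx : x ∈ IL ℤ S) : MonoidAlgebra.mapDomainRingHom ℤ p x ∈ IL ℤ T := by
  have := Pool.Agent.W571.DU.BC.map_mem ℤ p S x hx
  refine (Submodule.span_mono ?_ : IL ℤ (p '' S) ≤ IL ℤ T) this
  apply Set.image_mono
  rintro _ ⟨s, hs, rfl⟩
  exact h s hs

end cos

end Pool.Agent.R662.HC
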