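import Pool.Agent.R662.HC.Push

/-!
# Exactness of the slab complex
-/

set_option autoImplicit false

namespace Pool.Agent.R662.HC

open Pool.Agent.W326.DU (Reg IsAlt2 IsAlt3 Im)
open Pool.Agent.Y66.HC (Acyc)

section

variable {V M : Type} [Fintype V] [AddCommGroup M] {ad : V → V → Prop} {τ : V → M ≃+ M}
  {P : ℤ → M →+ M}

omit [Fintype V] in
theorem GM.bound (h : GM ad τ P) {ι : Type} [Finite ι] (x : ι → M) :
    ∃ N : ℕ, ∀ i, In P (-N) N (x i) := by
  classical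
  have := Fintype.ofFinite ι
  choose N hN using fun i => h.fin (x i)
  refine ⟨Finset.univ.sup N, fun i m hm => hN i m ?_⟩
  have : N i ≤ Finset.univ.sup N := Finset.le_sup (Finset.mem_univ i)
  omega

theorem dd2 (hR : Reg ad (RT τ)) (hirr : ∀ a, ¬ ad a a) {y : V → V → M}
    (hy : IsAlt2 ad Set.univ y) : ∑ b, RT τ b (∑ a, RT τ a (y a b)) = 0 :=
  Pool.Agent.W304.DU.dd (RT τ) hR hirr y hy.1 (fun a b hab => hy.2 a b (fun h => hab h.2.2))

theorem dd3 (hR : Reg ad (RT τ)) (hirr : ∀ a, ¬ ad a a) {z : V → V → V → M}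
    (hz : IsAlt3 ad Set.univ z) (c : V) : ∑ b, RT τ b (∑ a, RT τ a (z a b c)) = 0 :=
  Pool.Agent.W304.DU.dd (RT τ) hR hirr (fun a b => z a b c) (fun a b => hz.1 a b c)
    (fun a b hab => hz.2.2 a b c (fun h => hab h.2.2.2.1))

theorem alt2_d3 {z : V → V → V → M} (hz : IsAlt3 ad Set.univ z) :
    IsAlt2 ad Set.univ (fun b c => ∑ a, RT τ a (z a b c)) := by
  constructor
  · intro b c
    rw [← Finset.sum_neg_distrib]
    refine Finset.sum_congr rfl fun a _ => ?_
    rw [hz.2.1 a b c, map_neg]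
  · intro b c hbc
    refine Finset.sum_eq_zero fun a _ => ?_
    rw [hz.2.2 a b c (fun h => hbc ⟨trivial, trivial, h.2.2.2.2.1⟩), map_zero]

omit [Fintype V] in
theorem IsAlt2.add' {y y' : V → V → M} (hy : IsAlt2 ad Set.univ y)
    (hy' : IsAlt2 ad Set.univ y') : IsAlt2 ad Set.univ (fun b c => y b c + y' b c) :=
  ⟨fun a b => by beta_reduce; rw [hy.1 a b, hy'.1 a b]; abel,
    fun a b h => by beta_reduce; rw [hy.2 a b h, hy'.2 a b h, add_zero]⟩

omit [Fintype V] in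
theorem IsAlt2.sub' {y y' : V → V → M} (hy : IsAlt2 ad Set.univ y)
    (hy' : IsAlt2 ad Set.univ y') : IsAlt2 ad Set.univ (fun b c => y b c - y' b c) :=
  ⟨fun a b => by beta_reduce; rw [hy.1 a b, hy'.1 a b]; abel,
    fun a b h => by beta_reduce; rw [hy.2 a b h, hy'.2 a b h, sub_zero]⟩

variable (h : GM ad τ P) (ac : Acyc ad) (hR : Reg ad (RT τ)) (hirr : ∀ a, ¬ ad a a)
include h ac hR hirr

theorem bot1_iter (hi : ℤ) (h1 : 1 ≤ hi) : ∀ (k : ℕ) (w : V → M), (∀ v, In P (-k) hi (w v)) →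
    In P 0 2 (∑ v, RT τ v (w v)) →
    ∃ w' : V → M, (∀ v, In P 0 hi (w' v)) ∧ ∑ v, RT τ v (w' v) = ∑ v, RT τ v (w v) := by
  intro k
  induction k with
  | zero =>
    intro w hw _
    exact ⟨w, by simpa using hw, rfl⟩
  | succ k ih =>
    intro w hw hd
    obtain ⟨y, hy, -, hy3⟩ := h.bot1 ac (by omega) hw (hd _ (by omega))
    have h2 : ∑ v, RT τ v (w v + ∑ a, RT τ a (y a v)) = ∑ v, RT τ v (w v) := by
      simp only [map_add, Finset.sum_add_distrib]
      rw [dd2 hR hirr hy, add_zero]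
    obtain ⟨w', h3, h4⟩ := ih (fun v => w v + ∑ a, RT τ a (y a v)) (fun v => by
      have := hy3 v
      have e : -((k + 1 : ℕ) : ℤ) + 1 = -k := by push_cast; ring
      rwa [e] at this) (by rw [h2]; exact hd)
    exact ⟨w', h3, by rw [h4, h2]⟩

theorem top1_iter : ∀ (k : ℕ) (w : V → M), (∀ v, In P 0 (1 + k) (w v)) →
    In P 0 2 (∑ v, RT τ v (w v)) →
    ∃ w' : V → M, (∀ v, In P 0 1 (w' v)) ∧ ∑ v, RT τ v (w' v) = ∑ v, RT τ v (w v) := by
  intro k
  induction k with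
  | zero =>
    intro w hw _
    exact ⟨w, by simpa using hw, rfl⟩
  | succ k ih =>
    intro w hw hd
    obtain ⟨y, hy, -, hy3⟩ := h.top1 ac (by omega) hw (hd _ (by omega))
    have h2 : ∑ v, RT τ v (w v - ∑ a, RT τ a (y a v)) = ∑ v, RT τ v (w v) := by
      simp only [map_sub, Finset.sum_sub_distrib]
      rw [dd2 hR hirr hy, sub_zero]
    obtain ⟨w', h3, h4⟩ := ih (fun v => w v - ∑ a, RT τ a (y a v)) (fun v => by
      have := hy3 v
      have e : 1 + ((k + 1 : ℕ) : ℤ) - 1 = 1 + k := by push_cast; ring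
      rwa [e] at this) (by rw [h2]; exact hd)
    exact ⟨w', h3, by rw [h4, h2]⟩

/-- exactness at `C₀` -/
theorem slab0 (w : V → M) (hw : In P 0 2 (∑ v, RT τ v (w v))) :
    ∃ w' : V → M, (∀ v, In P 0 1 (w' v)) ∧ ∑ v, RT τ v (w' v) = ∑ v, RT τ v (w v) := by
  obtain ⟨N, hN⟩ := h.bound w
  obtain ⟨w1, h1, h2⟩ := bot1_iter h ac hR hirr (1 + N) (by omega) N w
    (fun v => (hN v).mono le_rfl (by omega)) hw
  obtain ⟨w2, h3, h4⟩ := top1_iter h ac hR hirr N w1 h1 (by rw [h2]; exact hw)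
  exact ⟨w2, h3, by rw [h4, h2]⟩

theorem bot2_iter (hi : ℤ) (h1 : 0 ≤ hi) : ∀ (k : ℕ) (y : V → V → M), IsAlt2 ad Set.univ y →
    (∀ a b, In P (-k) hi (y a b)) → (∀ c, In P 0 1 (∑ b, RT τ b (y b c))) →
    ∃ y' : V → V → M, IsAlt2 ad Set.univ y' ∧ (∀ a b, In P 0 hi (y' a b)) ∧
      ∀ c, ∑ b, RT τ b (y' b c) = ∑ b, RT τ b (y b c) := by
  intro k
  induction k with
  | zero =>
    intro y hy hy' _
    exact ⟨y, hy, by simpa using hy', fun _ => rfl⟩
  | succ k ih =>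
    intro y hy hy' hd
    obtain ⟨z, hz, -, hz3⟩ := h.bot2 ac (by omega) hy hy' (fun c => hd c _ (by omega))
    have h2 : ∀ c, ∑ b, RT τ b (y b c + ∑ a, RT τ a (z a b c)) = ∑ b, RT τ b (y b c) := by
      intro c
      simp only [map_add, Finset.sum_add_distrib]
      rw [dd3 hR hirr hz, add_zero]
    obtain ⟨w', h3, h4, h5⟩ := ih (fun b c => y b c + ∑ a, RT τ a (z a b c))
      (IsAlt2.add' hy (alt2_d3 hz)) (fun b c => by
        have := hz3 b c
        have e : -((k + 1 : ℕ) : ℤ) + 1 = -k := by push_cast; ring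
        rwa [e] at this) (fun c => by rw [h2]; exact hd c)
    exact ⟨w', h3, h4, fun c => by rw [h5, h2]⟩

theorem top2_iter : ∀ (k : ℕ) (y : V → V → M), IsAlt2 ad Set.univ y →
    (∀ a b, In P 0 k (y a b)) → (∀ c, In P 0 1 (∑ b, RT τ b (y b c))) →
    ∃ y' : V → V → M, IsAlt2 ad Set.univ y' ∧ (∀ a b, In P 0 0 (y' a b)) ∧
      ∀ c, ∑ b, RT τ b (y' b c) = ∑ b, RT τ b (y b c) := by
  intro k
  induction k with
  | zero =>
    intro y hy hy' _
    exact ⟨y, hy, by simpa using hy', fun _ => rfl⟩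
  | succ k ih =>
    intro y hy hy' hd
    obtain ⟨z, hz, -, hz3⟩ := h.top2 ac (by omega) hy hy' (fun c => hd c _ (by omega))
    have h2 : ∀ c, ∑ b, RT τ b (y b c - ∑ a, RT τ a (z a b c)) = ∑ b, RT τ b (y b c) := by
      intro c
      simp only [map_sub, Finset.sum_sub_distrib]
      rw [dd3 hR hirr hz, sub_zero]
    obtain ⟨w', h3, h4, h5⟩ := ih (fun b c => y b c - ∑ a, RT τ a (z a b c))
      (IsAlt2.sub' hy (alt2_d3 hz)) (fun b c => by
        have := hz3 b c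
        have e : ((k + 1 : ℕ) : ℤ) - 1 = k := by push_cast; ring
        rwa [e] at this) (fun c => by rw [h2]; exact hd c)
    exact ⟨w', h3, h4, fun c => by rw [h5, h2]⟩

/-- exactness at `C₁` -/
theorem slab1 (y : V → V → M) (hy : IsAlt2 ad Set.univ y)
    (hd : ∀ c, In P 0 1 (∑ b, RT τ b (y b c))) :
    ∃ y' : V → V → M, IsAlt2 ad Set.univ y' ∧ (∀ a b, In P 0 0 (y' a b)) ∧
      ∀ c, ∑ b, RT τ b (y' b c) = ∑ b, RT τ b (y b c) := by
  obtain ⟨N, hN⟩ := h.bound (fun p : V × V => y p.1 p.2)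
  obtain ⟨w1, h1, h2, h3⟩ := bot2_iter h ac hR hirr N (by omega) N y hy
    (fun a b => hN (a, b)) hd
  obtain ⟨w2, h4, h5, h6⟩ := top2_iter h ac hR hirr N w1 h1 h2 (fun c => by rw [h3]; exact hd c)
  exact ⟨w2, h4, h5, fun c => by rw [h6, h3]⟩

omit hR hirr in
theorem slab2 (z : V → V → V → M) (hz : IsAlt3 ad Set.univ z)
    (hd : ∀ b c, In P 0 0 (∑ a, RT τ a (z a b c))) : ∀ a b c, z a b c = 0 := by
  obtain ⟨N, hN⟩ := h.bound (fun p : V × V × V => z p.1 p.2.1 p.2.2)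
  have h1 : ∀ k : ℕ, k ≤ N → ∀ a b c, In P (-(N : ℤ) + k) N (z a b c) := by
    intro k
    induction k with
    | zero => intro _ a b c; simpa using hN (a, b, c)
    | succ k ih =>
      intro hk a b c
      have := h.bot3 ac hz (ih (by omega)) (fun b c => hd b c _ (by omega)) a b c
      have e : -(N : ℤ) + ((k + 1 : ℕ) : ℤ) = -N + k + 1 := by push_cast; ring
      rw [e]
      exact this
  have h2 : ∀ k : ℕ, k ≤ N + 1 → ∀ a b c, In P 0 ((N : ℤ) - k) (z a b c) := by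
    intro k
    induction k with
    | zero =>
      intro _ a b c
      have := h1 N le_rfl a b c
      simpa using this
    | succ k ih =>
      intro hk a b c
      have := h.top3 ac hz (ih (by omega)) (fun b c => hd b c _ (by omega)) a b c
      have e : (N : ℤ) - ((k + 1 : ℕ) : ℤ) = N - k - 1 := by push_cast; ring
      rw [e]
      exact this
  intro a b c
  apply h.sep
  intro n
  exact h2 (N + 1) le_rfl a b c n (by omega)

end

end Pool.Agent.R662.HC
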