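import Pool.Agent.R662.HC.Cos

/-!
# The Mayer-Vietoris type sequence of an HNN extension, in terms of left ideals
-/

set_option autoImplicit false

namespace Pool.Agent.R662.HC

open Pool.Agent.W326.DU (IL StarP PropAUG augm)
open Pool.Agent.W490.DU (of_sub_mem_IL IL_le)
open Pool.Agent.W386
open Function

theorem fps_one_of_fg {R M : Type} [Ring R] [AddCommGroup M] [Module R M] (S : Submodule R M)
    (h : S.FG) : FPs R 1 S := by
  have : Module.Finite R S := Module.Finite.iff_fg.2 h
  obtain ⟨n, f, hf⟩ := Module.Finite.exists_fin' R S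
  exact ⟨n, f, hf, trivial⟩

theorem fg_of_fps_one {R M : Type} [Ring R] [AddCommGroup M] [Module R M] (S : Submodule R M)
    (h : FPs R 1 S) : S.FG := by
  obtain ⟨n, f, hf, -⟩ := h
  have : Module.Finite R S := Module.Finite.of_surjective f hf
  exact Module.Finite.iff_fg.1 this

section

variable {G : Type} [Group G]

/-- the augmentation as a linear map -/
noncomputable def augL (G : Type) [Group G] : ZG G →ₗ[ZG G] Triv G where
  toFun := fun x => aug G x
  map_add' := fun x y => map_add (aug G) x y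
  map_smul' := fun r x => map_mul (aug G) r x

theorem augL_surj : Surjective (augL G) := by
  intro z
  refine ⟨MonoidAlgebra.single (1 : G) (id z : ℤ), ?_⟩
  exact aug_single (1 : G) (id z : ℤ)

theorem ker_augL : LinearMap.ker (augL G) = IL ℤ (Set.univ : Set G) := by
  apply le_antisymm
  · intro x hx
    have h : augm G x = 0 := hx
    refine Pool.Agent.W326.DU.aug_th G Set.univ ?_ x h
    exact Subgroup.closure_univ
  · refine Submodule.span_le.2 ?_
    rintro _ ⟨g, -, rfl⟩
    change aug G (MonoidAlgebra.of ℤ G g - 1) = 0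
    rw [map_sub, aug_of, map_one, sub_self]

theorem fps_IL_univ {j : ℕ} (h : FPs (ZG G) (j + 1) (Triv G)) :
    FPs (ZG G) j (IL ℤ (Set.univ : Set G)) := by
  rw [← ker_augL]
  exact FPs.ker_of_cover FGF.self h (augL G) augL_surj

theorem fps_triv {j : ℕ} (h : FPs (ZG G) j (IL ℤ (Set.univ : Set G))) :
    FPs (ZG G) (j + 1) (Triv G) := by
  rw [← ker_augL] at h
  exact FPs.of_cover_aux FGF.self (augL G) augL_surj h

/-- induction of the augmentation ideal along an injective homomorphism -/
theorem fps_ind {H : Type} [Group H] (ι : H →* G) (hι : Injective ι) {j : ℕ}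
    (h : FPs (ZG H) j (IL ℤ (Set.univ : Set H))) :
    FPs (ZG G) j (IL ℤ (Set.range ι)) := by
  have hmap : ∀ x ∈ IL ℤ (Set.univ : Set H),
      MonoidAlgebra.mapDomainRingHom ℤ ι x ∈ IL ℤ (Set.range ι) :=
    fun x hx => map_IL ι Set.univ (Set.range ι) (fun s _ => ⟨s, rfl⟩) x hx
  let κ : IL ℤ (Set.univ : Set H) →+ IL ℤ (Set.range ι) :=
    { toFun := fun x => ⟨MonoidAlgebra.mapDomainRingHom ℤ ι x.1, hmap x.1 x.2⟩
      map_zero' := by
        apply Subtype.ext
        exact map_zero (MonoidAlgebra.mapDomainRingHom ℤ ι)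
      map_add' := fun x y => by
        apply Subtype.ext
        exact map_add (MonoidAlgebra.mapDomainRingHom ℤ ι) x.1 y.1 }
  have hrange : Set.range ι = ι '' Set.univ := Set.image_univ.symm
  have hpi : ∀ (a x : ZG G), x ∈ IL ℤ (Set.range ι) →
      Pool.Agent.W571.DU.BC.pi ℤ ι hι 1 (a * x) ∈ IL ℤ (Set.univ : Set H) := by
    intro a x hx
    rw [hrange] at hx
    exact Pool.Agent.W571.DU.BC.pi_mem ℤ ι hι Set.univ x hx a 1
  let χ : IL ℤ (Set.range ι) →+ IL ℤ (Set.univ : Set H) :=
    { toFun := fun x => ⟨Pool.Agent.W571.DU.BC.pi ℤ ι hι 1 x.1, by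
        have := hpi 1 x.1 x.2
        rwa [one_mul] at this⟩
      map_zero' := by
        apply Subtype.ext
        exact map_zero _
      map_add' := fun x y => by
        apply Subtype.ext
        exact map_add _ _ _ }
  have hpm : ∀ y : ZG H, Pool.Agent.W571.DU.BC.pi ℤ ι hι 1
      (MonoidAlgebra.mapDomainRingHom ℤ ι y) = y := by
    intro y
    apply MonoidAlgebra.ext
    ext a
    rw [Pool.Agent.W571.DU.BC.pi_coeff, one_mul, MonoidAlgebra.mapDomainRingHom_apply,
      MonoidAlgebra.coeff_mapDomain, Finsupp.mapDomain_apply hι]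
  have hind : IsInd ι κ := by
    refine ⟨?_, ?_, χ, ?_, ?_⟩
    · intro n m
      apply Subtype.ext
      change MonoidAlgebra.mapDomainRingHom ℤ ι (MonoidAlgebra.of ℤ H n * m.1) =
        MonoidAlgebra.of ℤ G (ι n) * MonoidAlgebra.mapDomainRingHom ℤ ι m.1
      rw [map_mul, mapDomain_of]
    · rintro S hS ⟨a, ha⟩
      have key : ∀ b : ZG G, ∀ hb : b * a ∈ IL ℤ (Set.range ι), (⟨b * a, hb⟩ :
          IL ℤ (Set.range ι)) ∈ S := by
        have ha2 := ha
        unfold IL at ha
        induction ha using Submodule.span_induction with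
        | mem x hx =>
          obtain ⟨_, ⟨n, rfl⟩, rfl⟩ := hx
          intro b hb
          induction b using MonoidAlgebra.induction_on with
          | of g =>
            have h1 := hS g ⟨MonoidAlgebra.of ℤ H n - 1,
              Submodule.subset_span ⟨n, trivial, rfl⟩⟩
            have h2 : (⟨MonoidAlgebra.of ℤ G g * (MonoidAlgebra.of ℤ G (ι n) - 1), hb⟩ :
                IL ℤ (Set.range ι)) = act g (κ ⟨MonoidAlgebra.of ℤ H n - 1,
              Submodule.subset_span ⟨n, trivial, rfl⟩⟩) := by
              apply Subtype.ext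
              change MonoidAlgebra.of ℤ G g * (MonoidAlgebra.of ℤ G (ι n) - 1) =
                MonoidAlgebra.of ℤ G g * MonoidAlgebra.mapDomainRingHom ℤ ι
                  (MonoidAlgebra.of ℤ H n - 1)
              rw [map_sub, map_one, mapDomain_of]
            rw [h2]
            exact h1
          | add c d hc hd =>
            have h1 : c * (MonoidAlgebra.of ℤ G (ι n) - 1) ∈ IL ℤ (Set.range ι) :=
              Submodule.smul_mem _ _ ha2
            have h2 : d * (MonoidAlgebra.of ℤ G (ι n) - 1) ∈ IL ℤ (Set.range ι) :=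
              Submodule.smul_mem _ _ ha2
            have := S.add_mem (hc h1) (hd h2)
            convert this using 1
            apply Subtype.ext
            exact add_mul _ _ _
          | smul r c hc =>
            have h1 : c * (MonoidAlgebra.of ℤ G (ι n) - 1) ∈ IL ℤ (Set.range ι) :=
              Submodule.smul_mem _ _ ha2
            have := S.zsmul_mem (hc h1) r
            convert this using 1
            apply Subtype.ext
            exact smul_mul_assoc _ _ _
        | zero =>
          intro b hb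
          convert S.zero_mem using 1
          apply Subtype.ext
          exact mul_zero _
        | add x y hx' hy' hx hy =>
          intro b hb
          have h1 := hx hx' b (Submodule.smul_mem _ b hx')
          have h2 := hy hy' b (Submodule.smul_mem _ b hy')
          have := S.add_mem h1 h2
          convert this using 1
          apply Subtype.ext
          exact mul_add _ _ _
        | smul r x hx' hx =>
          intro b hb
          have h1 := hx hx' (b * r) (Submodule.smul_mem _ (b * r) hx')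
          convert h1 using 1
          apply Subtype.ext
          exact (mul_assoc _ _ _).symm
      have := key 1 (by rw [one_mul]; exact ha)
      convert this using 1
      apply Subtype.ext
      exact (one_mul _).symm
    · rintro ⟨m, hm⟩
      apply Subtype.ext
      exact hpm m
    · rintro p hp ⟨m, hm⟩
      apply Subtype.ext
      change Pool.Agent.W571.DU.BC.pi ℤ ι hι 1 (MonoidAlgebra.of ℤ G p *
        MonoidAlgebra.mapDomainRingHom ℤ ι m) = 0
      apply MonoidAlgebra.ext
      ext a
      rw [Pool.Agent.W571.DU.BC.pi_coeff, one_mul, MonoidAlgebra.of_apply,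
        MonoidAlgebra.coeff_single_mul_apply, one_mul, MonoidAlgebra.mapDomainRingHom_apply,
        MonoidAlgebra.coeff_mapDomain, Finsupp.mapDomain_of_notMem_range]
      · rfl
      · rintro ⟨b, hb⟩
        apply hp
        refine ⟨a * b⁻¹, ?_⟩
        rw [map_mul, map_inv, hb]
        simp
  exact FPs.ind hι j hind h

theorem fps_IL_range_one {H : Type} [Group H] [Group.FG H] (ι : H →* G) :
    FPs (ZG G) 1 (IL ℤ (Set.range ι)) := by
  classical
  obtain ⟨T, hT⟩ := (Group.FG.out : (⊤ : Subgroup H).FG)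
  apply fps_one_of_fg
  have h1 : IL ℤ (Set.range ι) = IL ℤ (↑(T.image ι) : Set G) := by
    apply le_antisymm
    · apply IL_le
      rintro _ ⟨h, rfl⟩
      rw [Finset.coe_image, SetLike.mem_coe, ← MonoidHom.map_closure, hT]
      exact ⟨h, trivial, rfl⟩
    · refine Submodule.span_mono (Set.image_mono ?_)
      rw [Finset.coe_image]
      rintro _ ⟨h, -, rfl⟩
      exact ⟨h, rfl⟩
  rw [h1]
  unfold IL
  rw [← Finset.coe_image]
  exact ⟨_, rfl⟩

/-- HNN data (the stable letter centralises the associated subgroup) -/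
structure HD (H A : Subgroup G) (t : G) : Prop where
  gen : Subgroup.closure ((H : Set G) ∪ {t}) = ⊤
  le : A ≤ H
  comm : ∀ a ∈ A, t * a = a * t
  star : ∀ x : ZG G, x * (MonoidAlgebra.of ℤ G t - 1) ∈ IL ℤ (H : Set G) → x ∈ IL ℤ (A : Set G)

variable {H A : Subgroup G} {t : G}

theorem HD.mul_mem (h : HD H A t) {x : ZG G} (hx : x ∈ IL ℤ (A : Set G)) :
    x * (MonoidAlgebra.of ℤ G t - 1) ∈ IL ℤ (H : Set G) := by
  unfold IL at hx
  induction hx using Submodule.span_induction with
  | mem x hx =>
    obtain ⟨a, ha, rfl⟩ := hx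
    have h1 : (MonoidAlgebra.of ℤ G a - 1) * (MonoidAlgebra.of ℤ G t - 1) =
        (MonoidAlgebra.of ℤ G t - 1) * (MonoidAlgebra.of ℤ G a - 1) := by
      apply Pool.Agent.W490.DU.comm_sub_one
      rw [← map_mul, ← map_mul, h.comm a ha]
    change (MonoidAlgebra.of ℤ G a - 1) * (MonoidAlgebra.of ℤ G t - 1) ∈ _
    rw [h1]
    exact Submodule.smul_mem _ _ (Submodule.subset_span ⟨a, h.le ha, rfl⟩)
  | zero => rw [zero_mul]; exact Submodule.zero_mem _
  | add x y _ _ hx hy => rw [add_mul]; exact Submodule.add_mem _ hx hy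
  | smul b x _ hx => rw [smul_eq_mul, mul_assoc]; exact Submodule.smul_mem _ _ hx

/-- the quotient module -/
noncomputable abbrev CC (H : Subgroup G) : Submodule (ZG G) (ZG G ⧸ IL ℤ (H : Set G)) :=
  (IL ℤ (Set.univ : Set G)).map (IL ℤ (H : Set G)).mkQ

/-- the projection -/
noncomputable def pC (H : Subgroup G) : IL ℤ (Set.univ : Set G) →ₗ[ZG G] CC H :=
  (IL ℤ (H : Set G)).mkQ.submoduleMap (IL ℤ (Set.univ : Set G))

theorem pC_surj (H : Subgroup G) : Surjective (pC H) := LinearMap.submoduleMap_surjective _ _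

theorem fps_ker_pC {j : ℕ} (H : Subgroup G) :
    FPs (ZG G) j (IL ℤ (H : Set G)) → FPs (ZG G) j (LinearMap.ker (pC H)) := by
  have hle : IL ℤ (H : Set G) ≤ IL ℤ (Set.univ : Set G) :=
    Submodule.span_mono (Set.image_mono (Set.subset_univ _))
  have h1 : LinearMap.ker (pC H) = (IL ℤ (H : Set G)).submoduleOf (IL ℤ (Set.univ : Set G)) := by
    ext x
    rw [LinearMap.mem_ker]
    change _ ↔ x.1 ∈ IL ℤ (H : Set G)
    constructor
    · intro h
      have h2 : (IL ℤ (H : Set G)).mkQ x.1 = 0 := congrArg Subtype.val h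
      exact (Submodule.Quotient.mk_eq_zero _).1 h2
    · intro h
      apply Subtype.ext
      exact (Submodule.Quotient.mk_eq_zero _).2 h
  intro h
  rw [h1]
  exact FPs.equiv (Submodule.submoduleOfEquivOfLe hle).symm h

/-- the map `x ↦ x (t - 1)` -/
noncomputable def rC (H : Subgroup G) (t : G) : ZG G →ₗ[ZG G] CC H :=
  ((IL ℤ (H : Set G)).mkQ ∘ₗ
    LinearMap.toSpanSingleton (ZG G) (ZG G) (MonoidAlgebra.of ℤ G t - 1)).codRestrict _ (by
      intro x
      refine ⟨x • (MonoidAlgebra.of ℤ G t - 1), ?_, rfl⟩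
      exact Submodule.smul_mem _ _ (Submodule.subset_span ⟨t, trivial, rfl⟩))

theorem HD.rC_surj (h : HD H A t) : Surjective (rC H t) := by
  rintro ⟨_, ⟨y, hy, rfl⟩⟩
  have h1 : IL ℤ (Set.univ : Set G) ≤ IL ℤ ((H : Set G) ∪ {t}) := by
    apply IL_le
    rw [h.gen]
    intro x _
    trivial
  have h2 := h1 hy
  unfold IL at h2
  rw [Set.image_union, Submodule.span_union, Set.image_singleton] at h2
  obtain ⟨a, ha, b, hb, rfl⟩ := Submodule.mem_sup.1 h2
  obtain ⟨c, rfl⟩ := Submodule.mem_span_singleton.1 hb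
  refine ⟨c, ?_⟩
  apply Subtype.ext
  change (IL ℤ (H : Set G)).mkQ (c • (MonoidAlgebra.of ℤ G t - 1)) =
    (IL ℤ (H : Set G)).mkQ (a + c • (MonoidAlgebra.of ℤ G t - 1))
  have h3 : (IL ℤ (H : Set G)).mkQ a = 0 := (Submodule.Quotient.mk_eq_zero _).2 ha
  rw [map_add, h3, zero_add]

theorem HD.ker_rC (h : HD H A t) : LinearMap.ker (rC H t) = IL ℤ (A : Set G) := by
  ext x
  rw [LinearMap.mem_ker]
  constructor
  · intro hx
    have h2 : (IL ℤ (H : Set G)).mkQ (x • (MonoidAlgebra.of ℤ G t - 1)) = 0 :=
      congrArg Subtype.val hx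
    exact h.star x ((Submodule.Quotient.mk_eq_zero _).1 h2)
  · intro hx
    apply Subtype.ext
    exact (Submodule.Quotient.mk_eq_zero _).2 (h.mul_mem hx)

theorem HD.up (h : HD H A t) {j : ℕ} (hH : FPs (ZG G) (j + 1) (IL ℤ (H : Set G)))
    (hA : FPs (ZG G) j (IL ℤ (A : Set G))) : FPs (ZG G) (j + 2) (Triv G) := by
  apply fps_triv
  have h1 : FPs (ZG G) (j + 1) (CC H) := by
    refine FPs.of_cover_aux FGF.self (rC H t) h.rC_surj ?_
    rw [h.ker_rC]
    exact hA
  exact FPs.ext (j + 1) (pC H) (pC_surj H) (fps_ker_pC H hH) h1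

theorem HD.down (h : HD H A t) {j : ℕ} (hG : FPs (ZG G) (j + 2) (Triv G))
    (hH : FPs (ZG G) j (IL ℤ (H : Set G))) : FPs (ZG G) j (IL ℤ (A : Set G)) := by
  have h1 : FPs (ZG G) (j + 1) (CC H) :=
    FPs.quot (pC H) (pC_surj H) (fps_ker_pC H hH) (fps_IL_univ hG)
  have h2 := FPs.ker_of_cover FGF.self h1 (rC H t) h.rC_surj
  rwa [h.ker_rC] at h2

/-- pull back of HNN data -/
theorem HD.comap (h : HD H A t) {P : Type} [Group P] (p : P →* G) (hp : Surjective p) (s : P)
    (hs : p s = t) (hc : ∀ a, p a ∈ A → s * a = a * s) : HD (H.comap p) (A.comap p) s := by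
  refine ⟨?_, fun x hx => h.le hx, fun a ha => hc a ha, ?_⟩
  · rw [eq_top_iff]
    intro x _
    have h1 : (Subgroup.closure (((H.comap p : Subgroup P) : Set P) ∪ {s})).map p = ⊤ := by
      rw [eq_top_iff, ← h.gen, Subgroup.closure_le]
      rintro g (hg | hg)
      · obtain ⟨y, rfl⟩ := hp g
        exact ⟨y, Subgroup.subset_closure (Or.inl hg), rfl⟩
      · rw [Set.mem_singleton_iff] at hg
        subst hg
        exact ⟨s, Subgroup.subset_closure (Or.inr rfl), hs⟩
    have h2 : p x ∈ (Subgroup.closure (((H.comap p : Subgroup P) : Set P) ∪ {s})).map p := by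
      rw [h1]; trivial
    obtain ⟨y, hy, hyx⟩ := h2
    have h3 : x * y⁻¹ ∈ Subgroup.closure (((H.comap p : Subgroup P) : Set P) ∪ {s}) := by
      apply Subgroup.subset_closure
      left
      change p (x * y⁻¹) ∈ H
      rw [map_mul, map_inv, hyx, mul_inv_cancel]
      exact H.one_mem
    have := Subgroup.mul_mem _ h3 hy
    simpa using this
  · intro x hx
    apply mem_IL_comap p hp A x
    apply h.star
    have h1 := map_IL p _ (H : Set G) (fun s hs => hs) _ hx
    rw [map_mul, map_sub, map_one, mapDomain_of, hs] at h1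
    exact h1

end

end Pool.Agent.R662.HC
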