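import Pool.Agent.R662.HC.Grad
import Pool.Agent.R662.HC.Seq

/-!
# The Bestvina-Brady group is of type `FP_3`
-/

set_option autoImplicit false

namespace Pool.Agent.R662.HC

open Pool.Agent.W326.DU (IL StarP RAAG gen rels Reg Im IsAlt2 IsAlt3)
open Pool.Agent.W490.DU (gen_comm)
open Pool.Agent.Y66.HC (GrData Acyc)
open Pool.Agent.W386
open Function

/-- one step of a resolution -/
theorem fps_step {R X Y Z : Type} [Ring R] [AddCommGroup X] [Module R X] [AddCommGroup Y]
    [Module R Y] [AddCommGroup Z] [Module R Z] (hX : FGF R X) (f : X →ₗ[R] Y) (g : Y →ₗ[R] Z)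
    (hfg : ∀ x, g (f x) = 0) (hex : ∀ y, g y = 0 → ∃ x, f x = y) {j : ℕ}
    (h : FPs R j (LinearMap.ker f)) : FPs R (j + 1) (LinearMap.ker g) := by
  have hfg' : ∀ x, f x ∈ LinearMap.ker g := fun x => LinearMap.mem_ker.2 (hfg x)
  refine FPs.of_cover_aux hX (f.codRestrict _ hfg') ?_ ?_
  · rintro ⟨y, hy⟩
    obtain ⟨x, hx⟩ := hex y hy
    exact ⟨x, Subtype.ext hx⟩
  · rw [LinearMap.ker_codRestrict]
    exact h

section

variable {V : Type} [Fintype V] (ad : V → V → Prop)

/-- `x ↦ x (v - 1)`, linear over the Bestvina-Brady group -/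
noncomputable def RL (v : V) :
    Ext (ht ad).ker.subtype →ₗ[ZG (BB ad)] Ext (ht ad).ker.subtype where
  toFun x := RT (tau ad) v (un x)
  map_add' x y := map_add (RT (tau ad) v) (un x) (un y)
  map_smul' r x := by
    change (gr (ht ad).ker.subtype r * un x) * _ - (gr (ht ad).ker.subtype r * un x) =
      gr (ht ad).ker.subtype r * (un x * _ - un x)
    rw [mul_sub, mul_assoc]

omit [Fintype V] in
theorem un_RL (v : V) (x : Ext (ht ad).ker.subtype) : un (RL ad v x) = RT (tau ad) v (un x) := rfl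

omit [Fintype V] in
theorem RL_mem {lo hi : ℤ} (v : V) {x : Ext (ht ad).ker.subtype} (hx : x ∈ SS ad lo hi) :
    RL ad v x ∈ SS ad lo (hi + 1) := by
  intro m hm
  rw [un_RL, (gm ad).PRT, hx _ (by omega), hx _ (by omega), map_zero, sub_zero]

/-- `∂₁` -/
noncomputable def D1 : (V → SS ad 0 1) →ₗ[ZG (BB ad)] SS ad 0 2 :=
  (∑ v, RL ad v ∘ₗ (SS ad 0 1).subtype ∘ₗ LinearMap.proj v).codRestrict _ (by
    intro x
    rw [LinearMap.sum_apply]
    exact Submodule.sum_mem _ fun v _ => RL_mem ad v (x v).2)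

theorem un_sum {ι : Type} (s : Finset ι) (f : ι → Ext (ht ad).ker.subtype) :
    un (∑ i ∈ s, f i) = ∑ i ∈ s, un (f i) := rfl

theorem D1_apply (x : V → SS ad 0 1) :
    un (D1 ad x).1 = ∑ v, RT (tau ad) v (un (x v).1) := by
  change un ((∑ v, RL ad v ∘ₗ (SS ad 0 1).subtype ∘ₗ LinearMap.proj v :
    (V → SS ad 0 1) →ₗ[ZG (BB ad)] Ext (ht ad).ker.subtype) x) = _
  rw [LinearMap.sum_apply]
  rfl

/-- the augmentation -/
noncomputable def D0 : SS ad 0 2 →ₗ[ZG (BB ad)] Triv (BB ad) :=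
  augE (ht ad).ker.subtype ∘ₗ (SS ad 0 2).subtype

/-- the oriented edges -/
abbrev EE : Type := {p : V × V // ad p.1 p.2 ∧ Fintype.equivFin V p.1 < Fintype.equivFin V p.2}

open Classical in
/-- the alternating function of an edge function -/
noncomputable def altl (a b : V) :
    (EE ad → SS ad 0 0) →ₗ[ZG (BB ad)] Ext (ht ad).ker.subtype :=
  if h : ad a b ∧ Fintype.equivFin V a < Fintype.equivFin V b then
    (SS ad 0 0).subtype ∘ₗ LinearMap.proj ⟨(a, b), h⟩
  else if h : ad b a ∧ Fintype.equivFin V b < Fintype.equivFin V a then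
    - ((SS ad 0 0).subtype ∘ₗ LinearMap.proj ⟨(b, a), h⟩)
  else 0

theorem altl_pos (w : EE ad → SS ad 0 0) (a b : V)
    (h : ad a b ∧ Fintype.equivFin V a < Fintype.equivFin V b) :
    altl ad a b w = (w ⟨(a, b), h⟩).1 := by
  unfold altl
  rw [dif_pos h]
  rfl

theorem altl_mem (w : EE ad → SS ad 0 0) (a b : V) : altl ad a b w ∈ SS ad 0 0 := by
  unfold altl
  split_ifs with h1 h2
  · exact (w _).2
  · exact neg_mem (w _).2
  · exact zero_mem _

theorem altl_neg (w : EE ad → SS ad 0 0) (a b : V) : altl ad a b w = - altl ad b a w := by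
  unfold altl
  by_cases h1 : ad a b ∧ Fintype.equivFin V a < Fintype.equivFin V b
  · have h2 : ¬ (ad b a ∧ Fintype.equivFin V b < Fintype.equivFin V a) :=
      fun h => absurd h.2 (not_lt_of_gt h1.2)
    rw [dif_pos h1, dif_neg h2, dif_pos h1, LinearMap.neg_apply, neg_neg]
  · rw [dif_neg h1]
    by_cases h2 : ad b a ∧ Fintype.equivFin V b < Fintype.equivFin V a
    · rw [dif_pos h2, dif_pos h2, LinearMap.neg_apply]
    · rw [dif_neg h2, dif_neg h2, dif_neg h1, LinearMap.zero_apply, neg_zero]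

theorem altl_supp (hsymm : ∀ a b, ad a b → ad b a) (w : EE ad → SS ad 0 0) (a b : V)
    (hab : ¬ ad a b) : altl ad a b w = 0 := by
  unfold altl
  rw [dif_neg (fun h => hab h.1), dif_neg (fun h => hab (hsymm _ _ h.1)), LinearMap.zero_apply]

theorem altl_alt (hsymm : ∀ a b, ad a b → ad b a) (w : EE ad → SS ad 0 0) :
    IsAlt2 ad Set.univ (fun a b => un (altl ad a b w)) :=
  ⟨fun a b => by
    beta_reduce
    rw [altl_neg]
    rfl, fun a b hab => by
    beta_reduce
    rw [altl_supp ad hsymm w a b (fun h => hab ⟨trivial, trivial, h⟩)]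
    rfl⟩

/-- `∂₂` -/
noncomputable def D2 : (EE ad → SS ad 0 0) →ₗ[ZG (BB ad)] (V → SS ad 0 1) :=
  LinearMap.pi fun b => (∑ a, RL ad a ∘ₗ altl ad a b).codRestrict _ (by
    intro x
    rw [LinearMap.sum_apply]
    exact Submodule.sum_mem _ fun a _ => RL_mem ad a (altl_mem ad x a b))

theorem D2_apply (x : EE ad → SS ad 0 0) (b : V) :
    un (D2 ad x b).1 = ∑ a, RT (tau ad) a (un (altl ad a b x)) := by
  change un ((∑ a, RL ad a ∘ₗ altl ad a b :
    (EE ad → SS ad 0 0) →ₗ[ZG (BB ad)] Ext (ht ad).ker.subtype) x) = _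
  rw [LinearMap.sum_apply]
  rfl

theorem D0_surj : Surjective (D0 ad) := by
  intro z
  let x : Ext (ht ad).ker.subtype := (MonoidAlgebra.single (1 : RAAG ad) (id z : ℤ) : ZG (RAAG ad))
  have hx : x ∈ SS ad 0 2 := by
    classical
    intro m hm
    apply MonoidAlgebra.ext
    ext g
    rw [PH_coeff]
    split_ifs with h
    · change (MonoidAlgebra.single (1 : RAAG ad) (id z : ℤ) : ZG (RAAG ad)).coeff g = 0
      rw [MonoidAlgebra.coeff_single, Finsupp.single_apply, if_neg]
      rintro rfl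
      rw [hz_one] at h
      omega
    · rfl
  exact ⟨⟨x, hx⟩, aug_single (1 : RAAG ad) (id z : ℤ)⟩

theorem exists_fox (x : ZG (RAAG ad)) (hx : aug (RAAG ad) x = 0) :
    ∃ w : V → ZG (RAAG ad), ∑ v, RT (tau ad) v (w v) = x := by
  classical
  have h1 : x ∈ IL ℤ (Set.range (gen ad)) :=
    Pool.Agent.W326.DU.aug_th (RAAG ad) _ (Pool.Agent.W490.DU.closure_gen ad) x hx
  have h2 : IL ℤ (Set.range (gen ad)) ≤ LinearMap.range (Pool.Agent.Y66.HC.fox (gen ad)) := by
    refine Submodule.span_le.2 ?_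
    rintro _ ⟨_, ⟨i, rfl⟩, rfl⟩
    refine ⟨Pi.single i 1, ?_⟩
    change ∑ k, (Pi.single i 1 : V → ZG (RAAG ad)) k * (MonoidAlgebra.of ℤ _ (gen ad k) - 1) = _
    rw [Finset.sum_eq_single i]
    · rw [Pi.single_eq_same, one_mul]
    · intro k _ hk
      rw [Pi.single_eq_of_ne hk, zero_mul]
    · intro h
      exact absurd (Finset.mem_univ i) h
  obtain ⟨c, hc⟩ := h2 h1
  refine ⟨c, ?_⟩
  rw [← hc]
  refine Finset.sum_congr rfl fun v _ => ?_
  rw [RT_tau]
  rfl

theorem D01 (x : V → SS ad 0 1) : D0 ad (D1 ad x) = 0 := by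
  change aug (RAAG ad) (un (D1 ad x).1) = 0
  rw [D1_apply, map_sum]
  refine Finset.sum_eq_zero fun v _ => ?_
  rw [RT_tau]
  change aug (RAAG ad) (un (x v).1 * (MonoidAlgebra.of ℤ _ (gen ad v) - 1)) = 0
  rw [map_mul, map_sub, aug_of, map_one, sub_self, mul_zero]

variable {ad}
variable {J : Type} [Group J] {γ : V → V → J} {l : ℕ} {p : ℕ → V} (h : GrData ad γ l p)
include h

theorem hreg : Reg ad (RT (tau ad)) := by
  rw [RT_tau]
  exact reg ad h.symm h.irr

theorem ex1 (x : V → ZG (RAAG ad)) (hx : ∑ v, RT (tau ad) v (x v) = 0) :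
    ∃ y, IsAlt2 ad Set.univ y ∧ ∀ b, x b = ∑ a, RT (tau ad) a (y a b) := by
  have := (Pool.Agent.W304.DU.th V _ ad (RT (tau ad)) h.symm h.irr h.k4 (hreg h)
    Finset.univ).1 x (fun v hv => absurd (Finset.mem_univ v) hv) hx
  rwa [Finset.coe_univ] at this

theorem ex2 (y : V → V → ZG (RAAG ad)) (hy : IsAlt2 ad Set.univ y)
    (hd : ∀ b, ∑ a, RT (tau ad) a (y a b) = 0) :
    ∃ z, IsAlt3 ad Set.univ z ∧ ∀ b c, y b c = ∑ a, RT (tau ad) a (z a b c) := by
  have := (Pool.Agent.W304.DU.th V _ ad (RT (tau ad)) h.symm h.irr h.k4 (hreg h)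
    Finset.univ).2.1 y (by rwa [Finset.coe_univ]) hd
  rwa [Finset.coe_univ] at this

theorem slab_th : FPs (ZG (BB ad)) 4 (Triv (BB ad)) := by
  classical
  have v0 : V := p 0
  refine FPs.of_cover_aux (by exact_mod_cast fgf_SS v0 2) (D0 ad) (D0_surj ad) ?_
  refine fps_step (X := V → SS ad 0 1) (by exact_mod_cast (fgf_SS v0 1).pi) (D1 ad) (D0 ad)
    (D01 ad) ?_ ?_
  · intro x hx
    have h1 : aug (RAAG ad) (un x.1) = 0 := hx
    obtain ⟨w, hw⟩ := exists_fox ad (un x.1) h1
    have h2 : In (PH ad) 0 2 (∑ v, RT (tau ad) v (w v)) := by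
      rw [hw]
      exact x.2
    obtain ⟨w', h3, h4⟩ := slab0 (gm ad) h.acyc (hreg h) h.irr w h2
    refine ⟨fun v => ⟨w' v, h3 v⟩, ?_⟩
    apply Subtype.ext
    change un (D1 ad fun v => ⟨w' v, h3 v⟩).1 = un x.1
    rw [D1_apply, ← hw, ← h4]
    rfl
  · refine fps_step (X := EE ad → SS ad 0 0) (by exact_mod_cast (fgf_SS v0 0).pi) (D2 ad) (D1 ad)
      ?_ ?_ ?_
    · intro w
      apply Subtype.ext
      change un (D1 ad (D2 ad w)).1 = 0
      rw [D1_apply]
      simp only [D2_apply]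
      exact dd2 (hreg h) h.irr (altl_alt ad h.symm w)
    · intro x hx
      have h1 : ∑ v, RT (tau ad) v (un (x v).1) = 0 := by
        rw [← D1_apply]
        exact congrArg Subtype.val hx
      obtain ⟨y, hy, hy2⟩ := ex1 h _ h1
      obtain ⟨y', hy', h3, h4⟩ := slab1 (gm ad) h.acyc (hreg h) h.irr y hy (fun c => by
        rw [← hy2 c]
        exact (x c).2)
      let w : EE ad → SS ad 0 0 := fun e => ⟨y' e.1.1 e.1.2, h3 _ _⟩
      have hw : ∀ a b, un (altl ad a b w) = y' a b := by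
        intro a b
        by_cases hab : ad a b
        · rcases lt_trichotomy (Fintype.equivFin V a) (Fintype.equivFin V b) with hlt | heq | hlt
          · rw [altl_pos ad w a b ⟨hab, hlt⟩]
            rfl
          · have := (Fintype.equivFin V).injective heq
            subst this
            exact absurd hab (h.irr a)
          · rw [altl_neg, altl_pos ad w b a ⟨h.symm _ _ hab, hlt⟩, hy'.1 a b]
            rfl
        · rw [altl_supp ad h.symm w a b hab, hy'.2 a b (fun h => hab h.2.2)]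
          rfl
      refine ⟨w, ?_⟩
      funext b
      apply Subtype.ext
      change un (D2 ad w b).1 = un (x b).1
      rw [D2_apply, hy2 b]
      simp only [hw]
      exact h4 b
    · have hbot : LinearMap.ker (D2 ad) = ⊥ := by
        rw [LinearMap.ker_eq_bot']
        intro w hw
        have h1 : ∀ b, ∑ a, RT (tau ad) a (un (altl ad a b w)) = 0 := by
          intro b
          rw [← D2_apply]
          exact congrArg (fun y : V → SS ad 0 1 => un (y b).1) hw
        obtain ⟨z, hz, hz2⟩ := ex2 h _ (altl_alt ad h.symm w) h1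
        have h2 := slab2 (gm ad) h.acyc z hz (fun b c => by
          rw [← hz2 b c]
          exact altl_mem ad w b c)
        funext e
        apply Subtype.ext
        have h3 := hz2 e.1.1 e.1.2
        rw [altl_pos ad w _ _ e.2] at h3
        simp only [h2, map_zero, Finset.sum_const_zero] at h3
        exact h3
      rw [hbot]
      exact FPs.of_subsingleton _ _

end

theorem slab : PropSLAB := by
  intro V J _ _ _ ad γ l p h
  exact slab_th h

end Pool.Agent.R662.HC
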