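import Pool.Agent.R662.HC.HNN
import Pool.Agent.R662.HC.Slab

/-!
# The homological 1-2-3 conjecture fails: assembly
-/

set_option autoImplicit false

open CategoryTheory

namespace Pool.Agent.R662.HC

open Pool.Agent.W386 (FPs Triv ZG fp_fg)
open Pool.Agent.Y66.HC (FPc GrData Acyc PropM8)

/-- a group of type `FP_1` is finitely generated -/
theorem fg_of_fps {G : Type} [Group G] (h : FPs (ZG G) 2 (Triv G)) : Group.FG G := by
  have h1 : FPs (ZG G) 1 (Pool.Agent.W326.DU.IL ℤ ((⊤ : Subgroup G) : Set G)) := by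
    have := fps_IL_univ h
    rwa [Subgroup.coe_top]
  exact ⟨fg_of_IL_fg _ (fg_of_fps_one _ h1)⟩

theorem final (m8 : PropM8) (c1 : PropC1) (c2 : PropC2) (nfp : PropNFP) :
    ∃ (G₁ G₂ Q : Type) (_ : Group G₁) (_ : Group G₂) (_ : Group Q) (π₁ : G₁ →* Q)
      (π₂ : G₂ →* Q), Function.Surjective π₁ ∧ Function.Surjective π₂ ∧ Group.FG π₁.ker ∧
      FPc 2 G₁ ∧ FPc 2 G₂ ∧ FPc 3 Q ∧
      ¬ FPc 2 ((π₁.comp (MonoidHom.fst G₁ G₂)).eqLocus (π₂.comp (MonoidHom.snd G₁ G₂))) := by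
  obtain ⟨V, _, _, ad, γ, l, p, h⟩ := m8
  have hB : FPs (ZG (BB ad)) 4 (Triv (BB ad)) := slab V _ ad γ l p h
  have hB3 := hB.mono
  have hB2 := hB3.mono
  obtain ⟨G₁, G₂, i1, i2, π₁, π₂, h1, h2, h3, h4, h5, h6⟩ :=
    hnn_th (BB ad) hB3 (fg_of_fps hB2) (nfp V _ ad γ l p h)
  exact ⟨G₁, G₂, BB ad, i1, i2, inferInstance, π₁, π₂, h1, h2, h3, c2 2 G₁ h4, c2 2 G₂ h5,
    c2 3 _ hB, fun hc => h6 (c1 2 _ hc)⟩

end Pool.Agent.R662.HC
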