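import Pool.Agent.R662.HC.Exact
import Pool.Agent.R662.HC.Reg

/-!
# The grading of the group ring of a right-angled Artin group by the height
-/

set_option autoImplicit false

namespace Pool.Agent.R662.HC

open Pool.Agent.W326.DU (IL StarP RAAG gen rels Reg Im)
open Pool.Agent.W490.DU (gen_comm)
open Pool.Agent.W386
open Function

section

variable {V : Type} (ad : V → V → Prop)

/-- the height of an element, as an integer -/
def hz (g : RAAG ad) : ℤ := Multiplicative.toAdd (ht ad g)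

variable {ad}

theorem hz_mul (g h : RAAG ad) : hz ad (g * h) = hz ad g + hz ad h := by
  unfold hz; rw [map_mul, toAdd_mul]

theorem hz_inv (g : RAAG ad) : hz ad g⁻¹ = - hz ad g := by
  unfold hz; rw [map_inv, toAdd_inv]

theorem hz_gen (v : V) : hz ad (gen ad v) = 1 := by
  unfold hz; rw [ht_gen]; rfl

theorem hz_zpow (g : RAAG ad) (n : ℤ) : hz ad (g ^ n) = n * hz ad g := by
  unfold hz; rw [map_zpow, toAdd_zpow, smul_eq_mul]

theorem hz_one : hz ad (1 : RAAG ad) = 0 := by
  unfold hz; rw [map_one]; rfl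

theorem mem_ker_iff (g : RAAG ad) : g ∈ (ht ad).ker ↔ hz ad g = 0 := Iff.rfl

variable (ad)

/-- right multiplication by a generator -/
noncomputable def tau (v : V) : ZG (RAAG ad) ≃+ ZG (RAAG ad) where
  toFun x := x * MonoidAlgebra.of ℤ (RAAG ad) (gen ad v)
  invFun x := x * MonoidAlgebra.of ℤ (RAAG ad) (gen ad v)⁻¹
  left_inv x := by
    beta_reduce
    rw [mul_assoc, ← map_mul, mul_inv_cancel, map_one, mul_one]
  right_inv x := by
    beta_reduce
    rw [mul_assoc, ← map_mul, inv_mul_cancel, map_one, mul_one]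
  map_add' x y := add_mul _ _ _

theorem RT_tau : RT (tau ad) = RR ad := by
  funext v
  refine AddMonoidHom.ext fun x => ?_
  change x * MonoidAlgebra.of ℤ (RAAG ad) (gen ad v) - x =
    x * (MonoidAlgebra.of ℤ (RAAG ad) (gen ad v) - 1)
  rw [mul_sub, mul_one]

open Classical in
/-- the homogeneous components -/
noncomputable def PH (n : ℤ) : ZG (RAAG ad) →+ ZG (RAAG ad) where
  toFun x := MonoidAlgebra.ofCoeff (x.coeff.filter (fun g => hz ad g = n))
  map_zero' := by
    rw [MonoidAlgebra.coeff_zero, Finsupp.filter_zero, MonoidAlgebra.ofCoeff_zero]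
  map_add' x y := by
    rw [MonoidAlgebra.coeff_add, Finsupp.filter_add, MonoidAlgebra.ofCoeff_add]

variable {ad}

open Classical in
theorem PH_coeff (n : ℤ) (x : ZG (RAAG ad)) (g : RAAG ad) :
    (PH ad n x).coeff g = if hz ad g = n then x.coeff g else 0 := by
  change (x.coeff.filter (fun g => hz ad g = n)) g = _
  rw [Finsupp.filter_apply]

theorem tau_coeff (v : V) (x : ZG (RAAG ad)) (g : RAAG ad) :
    (tau ad v x).coeff g = x.coeff (g * (gen ad v)⁻¹) := by
  change (x * MonoidAlgebra.of ℤ (RAAG ad) (gen ad v)).coeff g = _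
  rw [MonoidAlgebra.of_apply, MonoidAlgebra.coeff_mul_single_apply, mul_one]

theorem gm (ad : V → V → Prop) : GM ad (tau ad) (PH ad) := by
  classical
  refine ⟨?_, ?_, ?_, ?_, ?_, ?_⟩
  · intro n x
    apply MonoidAlgebra.ext
    ext g
    rw [PH_coeff, PH_coeff]
    split_ifs <;> rfl
  · intro m n x hmn
    apply MonoidAlgebra.ext
    ext g
    rw [PH_coeff, PH_coeff]
    split_ifs with h1 h2
    · exact absurd (h1.symm.trans h2) hmn
    · rfl
    · rfl
  · intro v n x
    apply MonoidAlgebra.ext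
    ext g
    rw [PH_coeff, tau_coeff, tau_coeff, PH_coeff, hz_mul, hz_inv, hz_gen]
    by_cases h : hz ad g = n + 1
    · rw [if_pos h, if_pos (by omega)]
    · rw [if_neg h, if_neg (by omega)]
  · intro a b hab x
    change x * MonoidAlgebra.of ℤ _ (gen ad b) * MonoidAlgebra.of ℤ _ (gen ad a) =
      x * MonoidAlgebra.of ℤ _ (gen ad a) * MonoidAlgebra.of ℤ _ (gen ad b)
    rw [mul_assoc, mul_assoc, ← map_mul, ← map_mul, gen_comm ad hab]
  · intro x
    refine ⟨x.coeff.support.sup (fun g => (hz ad g).natAbs), fun m hm => ?_⟩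
    apply MonoidAlgebra.ext
    ext g
    rw [PH_coeff]
    split_ifs with h1
    · by_contra h2
      have h3 : g ∈ x.coeff.support := Finsupp.mem_support_iff.2 h2
      have h4 : (hz ad g).natAbs ≤ x.coeff.support.sup (fun g => (hz ad g).natAbs) :=
        Finset.le_sup (f := fun g => (hz ad g).natAbs) h3
      omega
    · rfl
  · intro x hx
    apply MonoidAlgebra.ext
    ext g
    have := congrArg (fun y : ZG (RAAG ad) => y.coeff g) (hx (hz ad g))
    simp only [PH_coeff, if_true] at this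
    rw [this]

/-- the left action of the elements of height zero preserves the components -/
theorem PH_mul (n : ℤ) (r : ZG (BB ad)) (x : ZG (RAAG ad)) :
    PH ad n (gr (ht ad).ker.subtype r * x) = gr (ht ad).ker.subtype r * PH ad n x := by
  classical
  have key : (PH ad n).comp ((AddMonoidHom.mulRight x).comp
        (gr (ht ad).ker.subtype).toAddMonoidHom) =
      (AddMonoidHom.mulRight (PH ad n x)).comp (gr (ht ad).ker.subtype).toAddMonoidHom := by
    refine MonoidAlgebra.addMonoidHom_ext fun b s => ?_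
    change PH ad n (gr (ht ad).ker.subtype (MonoidAlgebra.single b s) * x) =
      gr (ht ad).ker.subtype (MonoidAlgebra.single b s) * PH ad n x
    rw [MonoidAlgebra.mapDomainRingHom_apply, MonoidAlgebra.mapDomain_single]
    apply MonoidAlgebra.ext
    ext g
    rw [PH_coeff, MonoidAlgebra.coeff_single_mul_apply, MonoidAlgebra.coeff_single_mul_apply,
      PH_coeff, hz_mul, hz_inv]
    have hb : hz ad ((ht ad).ker.subtype b) = 0 := b.2
    rw [hb]
    by_cases h : hz ad g = n
    · rw [if_pos h, if_pos (by omega)]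
    · rw [if_neg h, if_neg (by omega), mul_zero]
  exact DFunLike.congr_fun key r

/-- the underlying element of the group ring -/
def un (x : Ext (ht ad).ker.subtype) : ZG (RAAG ad) := x

theorem un_add (x y : Ext (ht ad).ker.subtype) : un (x + y) = un x + un y := rfl
theorem un_smul (r : ZG (BB ad)) (x : Ext (ht ad).ker.subtype) :
    un (r • x) = gr (ht ad).ker.subtype r * un x := rfl

/-- the elements supported in heights `lo..hi` -/
noncomputable def SS (ad : V → V → Prop) (lo hi : ℤ) :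
    Submodule (ZG (BB ad)) (Ext (ht ad).ker.subtype) where
  carrier := {x | In (PH ad) lo hi (un x)}
  add_mem' := by
    intro x y hx hy m hm
    rw [un_add, map_add, hx m hm, hy m hm, add_zero]
  zero_mem' := fun m _ => map_zero _
  smul_mem' := by
    intro r x hx m hm
    rw [un_smul, PH_mul, hx m hm, mul_zero]

theorem mem_SS {lo hi : ℤ} (x : Ext (ht ad).ker.subtype) :
    x ∈ SS ad lo hi ↔ In (PH ad) lo hi (un x) := Iff.rfl

open Classical in
theorem gr_coeff (c : ZG (BB ad)) (g : RAAG ad) :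
    (gr (ht ad).ker.subtype c).coeff g =
      if h : hz ad g = 0 then c.coeff ⟨g, h⟩ else 0 := by
  rw [MonoidAlgebra.mapDomainRingHom_apply, MonoidAlgebra.coeff_mapDomain]
  split_ifs with h
  · have := Finsupp.mapDomain_apply (f := (ht ad).ker.subtype)
      Subtype.val_injective c.coeff ⟨g, h⟩
    exact this
  · rw [Finsupp.mapDomain_of_notMem_range]
    rintro ⟨b, hb⟩
    apply h
    rw [← hb]
    exact b.2

open Classical in
theorem term_coeff (v0 : V) (i : ℤ) (c : ZG (BB ad)) (g : RAAG ad) :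
    (gr (ht ad).ker.subtype c * MonoidAlgebra.of ℤ _ (gen ad v0 ^ i)).coeff g =
      if h : hz ad (g * (gen ad v0 ^ i)⁻¹) = 0 then c.coeff ⟨g * (gen ad v0 ^ i)⁻¹, h⟩ else 0 := by
  rw [MonoidAlgebra.of_apply, MonoidAlgebra.coeff_mul_single_apply, mul_one, gr_coeff]

theorem hz_sub (v0 : V) (i : ℤ) (g : RAAG ad) :
    hz ad (g * (gen ad v0 ^ i)⁻¹) = hz ad g - i := by
  rw [hz_mul, hz_inv, hz_zpow, hz_gen]; ring

/-- the parametrisation -/
noncomputable def Th (v0 : V) (k : ℕ) : (Fin (k + 1) → ZG (BB ad)) →ₗ[ZG (BB ad)] SS ad 0 k where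
  toFun c := ⟨(∑ i : Fin (k + 1), gr (ht ad).ker.subtype (c i) *
      MonoidAlgebra.of ℤ _ (gen ad v0 ^ ((i : ℕ) : ℤ)) : ZG (RAAG ad)), by
    classical
    intro m hm
    change PH ad m (∑ i : Fin (k + 1), gr (ht ad).ker.subtype (c i) *
      MonoidAlgebra.of ℤ _ (gen ad v0 ^ ((i : ℕ) : ℤ)) : ZG (RAAG ad)) = 0
    rw [map_sum]
    refine Finset.sum_eq_zero fun i _ => ?_
    apply MonoidAlgebra.ext
    ext g
    rw [PH_coeff]
    split_ifs with h
    · rw [term_coeff, dif_neg]
      · rfl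
      · rw [hz_sub]
        have := i.2
        omega
    · rfl⟩
  map_add' c d := by
    apply Subtype.ext
    change (∑ i : Fin (k + 1), gr (ht ad).ker.subtype ((c + d) i) *
      MonoidAlgebra.of ℤ _ (gen ad v0 ^ ((i : ℕ) : ℤ)) : ZG (RAAG ad)) =
      (∑ i : Fin (k + 1), gr (ht ad).ker.subtype (c i) *
      MonoidAlgebra.of ℤ _ (gen ad v0 ^ ((i : ℕ) : ℤ))) +
      ∑ i : Fin (k + 1), gr (ht ad).ker.subtype (d i) *
      MonoidAlgebra.of ℤ _ (gen ad v0 ^ ((i : ℕ) : ℤ))
    rw [← Finset.sum_add_distrib]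
    refine Finset.sum_congr rfl fun i _ => ?_
    rw [Pi.add_apply, map_add, add_mul]
  map_smul' r c := by
    apply Subtype.ext
    change (∑ i : Fin (k + 1), gr (ht ad).ker.subtype (r * c i) *
      MonoidAlgebra.of ℤ _ (gen ad v0 ^ ((i : ℕ) : ℤ)) : ZG (RAAG ad)) =
      gr (ht ad).ker.subtype r * ∑ i : Fin (k + 1), gr (ht ad).ker.subtype (c i) *
      MonoidAlgebra.of ℤ _ (gen ad v0 ^ ((i : ℕ) : ℤ))
    rw [Finset.mul_sum]
    refine Finset.sum_congr rfl fun i _ => ?_
    rw [map_mul, mul_assoc]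

theorem Th_coe (v0 : V) (k : ℕ) (c : Fin (k + 1) → ZG (BB ad)) :
    ((Th v0 k c : SS ad 0 k) : Ext (ht ad).ker.subtype) =
    (∑ i : Fin (k + 1), gr (ht ad).ker.subtype (c i) *
      MonoidAlgebra.of ℤ _ (gen ad v0 ^ ((i : ℕ) : ℤ)) : ZG (RAAG ad)) := rfl

theorem mul_zpow_cancel (v0 : V) (i : ℤ) (b : RAAG ad) :
    b * gen ad v0 ^ i * (gen ad v0 ^ i)⁻¹ = b := by group

theorem Th_inj (v0 : V) (k : ℕ) : Injective (Th (ad := ad) v0 k) := by
  classical
  rw [← LinearMap.ker_eq_bot, LinearMap.ker_eq_bot']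
  intro c hc
  have h0 : (∑ i : Fin (k + 1), gr (ht ad).ker.subtype (c i) *
      MonoidAlgebra.of ℤ _ (gen ad v0 ^ ((i : ℕ) : ℤ)) : ZG (RAAG ad)) = 0 :=
    congrArg Subtype.val hc
  funext j
  apply MonoidAlgebra.ext
  ext b
  have h1 := congrArg (fun y : ZG (RAAG ad) => y.coeff (b.1 * gen ad v0 ^ ((j : ℕ) : ℤ))) h0
  simp only [MonoidAlgebra.coeff_sum, Finsupp.finsetSum_apply] at h1
  rw [Finset.sum_eq_single j] at h1
  · rw [term_coeff] at h1
    have hb : hz ad b.1 = 0 := b.2
    have h2 : hz ad (b.1 * gen ad v0 ^ ((j : ℕ) : ℤ) * (gen ad v0 ^ ((j : ℕ) : ℤ))⁻¹) = 0 := by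
      rw [mul_zpow_cancel]; exact hb
    rw [dif_pos h2] at h1
    have h3 : (⟨b.1 * gen ad v0 ^ ((j : ℕ) : ℤ) * (gen ad v0 ^ ((j : ℕ) : ℤ))⁻¹, h2⟩ : BB ad) =
        b := Subtype.ext (mul_zpow_cancel _ _ _)
    rw [h3] at h1
    exact h1
  · intro i _ hij
    rw [term_coeff, dif_neg]
    rw [hz_sub, hz_mul, hz_zpow, hz_gen]
    have hb : hz ad b.1 = 0 := b.2
    rw [hb]
    intro h
    apply hij
    apply Fin.ext
    omega
  · intro h
    exact absurd (Finset.mem_univ j) h

theorem Th_surj (v0 : V) (k : ℕ) : Surjective (Th (ad := ad) v0 k) := by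
  classical
  rintro ⟨x, hx⟩
  have hinj : ∀ i : ℤ, Injective (fun b : BB ad => b.1 * gen ad v0 ^ i) :=
    fun i a b hab => Subtype.ext (mul_right_cancel hab)
  let c : Fin (k + 1) → ZG (BB ad) := fun i =>
    MonoidAlgebra.comapDomainAddMonoidHom (fun b : BB ad => b.1 * gen ad v0 ^ ((i : ℕ) : ℤ))
      (hinj i) (un x)
  have hc : ∀ i b, (c i).coeff b = (un x).coeff (b.1 * gen ad v0 ^ ((i : ℕ) : ℤ)) :=
    fun i b => rfl
  refine ⟨c, ?_⟩
  apply Subtype.ext
  rw [Th_coe]
  change _ = un x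
  refine MonoidAlgebra.ext ?_
  refine Finsupp.ext fun g => ?_
  rw [MonoidAlgebra.coeff_sum, Finsupp.finsetSum_apply]
  by_cases h : 0 ≤ hz ad g ∧ hz ad g ≤ k
  · obtain ⟨j, hj⟩ := Int.eq_ofNat_of_zero_le h.1
    rw [Finset.sum_eq_single (⟨j, by omega⟩ : Fin (k + 1))]
    · have h1 : hz ad (g * (gen ad v0 ^ ((j : ℕ) : ℤ))⁻¹) = 0 := by rw [hz_sub]; omega
      rw [term_coeff, dif_pos h1, hc]
      congr 1
      exact inv_mul_cancel_right g _
    · intro i _ hij
      rw [term_coeff, dif_neg]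
      rw [hz_sub]
      intro h2
      apply hij
      apply Fin.ext
      change (i : ℕ) = j
      omega
    · intro h2
      exact absurd (Finset.mem_univ _) h2
  · have h1 : PH ad (hz ad g) (un x) = 0 := hx _ (by omega)
    have h2 := congrArg (fun y : ZG (RAAG ad) => y.coeff g) h1
    simp only [PH_coeff, if_true] at h2
    rw [h2]
    change _ = (0 : ℤ)
    refine Finset.sum_eq_zero fun i _ => ?_
    rw [term_coeff, dif_neg]
    rw [hz_sub]
    have := i.2
    omega

theorem fgf_SS (v0 : V) (k : ℕ) : FGF (ZG (BB ad)) (SS ad 0 k) :=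
  ⟨k + 1, ⟨(LinearEquiv.ofBijective (Th v0 k) ⟨Th_inj v0 k, Th_surj v0 k⟩).symm⟩⟩

end

end Pool.Agent.R662.HC
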