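import Pool.Agent.R662.HC.Seq
import Pool.Agent.W304.DU.RG
import Pool.Agent.W335.DU.HN

/-!
# The HNN extension
-/

set_option autoImplicit false

namespace Pool.Agent.R662.HC

open Pool.Agent.W326.DU (IL StarP RAAG gen rels)
open Pool.Agent.W490.DU (of_sub_mem_IL IL_le)
open Pool.Agent.W386
open Function

section free

variable (W : Type)

/-- a free group, as a right-angled Artin group -/
abbrev FW : Type := RAAG (fun (_ _ : W) => False)

theorem rels_empty : rels (fun (_ _ : W) => False) = ∅ := by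
  ext x
  constructor
  · rintro ⟨a, b, h, -⟩
    exact h.elim
  · intro h
    exact h.elim

instance [Finite W] : Group.IsFinitelyPresented (FW W) := by
  have : Finite (rels (fun (_ _ : W) => False)) := by
    rw [rels_empty]
    infer_instance
  infer_instance

instance [Finite W] : Group.FG (FW W) := fp_fg inferInstance

theorem FW_lift {W Q : Type} [Group Q] (f : W → Q) : ∃ φ : FW W →* Q, ∀ w, φ (gen _ w) = f w :=
  ⟨PresentedGroup.toGroup (f := f) (by rintro _ ⟨a, b, h, -⟩; exact h.elim),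
    fun w => PresentedGroup.toGroup.of _⟩

theorem FW_surj {Q : Type} [Group Q] (h : Group.FG Q) :
    ∃ (W : Type) (_ : Finite W) (φ : FW W →* Q), Surjective φ := by
  obtain ⟨W, hW, ψ, hψ⟩ := Group.fg_iff_exists_freeGroup_hom_surjective_finite.1 h
  obtain ⟨φ, hφ⟩ := FW_lift (fun w : W => ψ (FreeGroup.of w))
  refine ⟨W, hW, φ, ?_⟩
  intro q
  obtain ⟨x, rfl⟩ := hψ q
  refine ⟨PresentedGroup.mk _ x, ?_⟩
  have : φ.comp (PresentedGroup.mk _) = ψ := by
    ext w
    exact hφ w
  exact DFunLike.congr_fun this x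

theorem fps_FW [Finite W] (j : ℕ) : FPs (ZG (FW W)) j (IL ℤ (Set.univ : Set (FW W))) := by
  classical
  have := Fintype.ofFinite W
  let x : W → FW W := gen _
  have hx : ∀ c : W → ZG (FW W), ∑ i, c i * (MonoidAlgebra.of ℤ _ (x i) - 1) ∈
      IL ℤ (Set.univ : Set (FW W)) := by
    intro c
    refine Submodule.sum_mem _ fun i _ => ?_
    exact Submodule.smul_mem _ _ (Submodule.subset_span ⟨x i, trivial, rfl⟩)
  let f : (W → ZG (FW W)) →ₗ[ZG (FW W)] IL ℤ (Set.univ : Set (FW W)) :=
    (Pool.Agent.Y66.HC.fox x).codRestrict _ hx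
  have hinj : Injective f := by
    rw [← LinearMap.ker_eq_bot, LinearMap.ker_eq_bot']
    intro c hc
    have h0 : ∑ i, c i * (MonoidAlgebra.of ℤ _ (x i) - 1) = 0 := congrArg Subtype.val hc
    funext v
    have h1 := Pool.Agent.W304.DU.RG.th ℤ W (fun _ _ => False) (by simp) (by simp) v (c v) (by
      rw [← Finset.add_sum_erase _ _ (Finset.mem_univ v)] at h0
      rw [eq_neg_of_add_eq_zero_left h0]
      refine Submodule.neg_mem _ (Submodule.sum_mem _ fun i hi => ?_)
      exact Submodule.smul_mem _ _ (Submodule.subset_span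
        ⟨x i, ⟨i, Finset.ne_of_mem_erase hi, rfl⟩, rfl⟩))
    simpa [IL] using h1
  have hsurj : Surjective f := by
    rintro ⟨y, hy⟩
    have h1 : IL ℤ (Set.univ : Set (FW W)) ≤ LinearMap.range (Pool.Agent.Y66.HC.fox x) := by
      have h2 : IL ℤ (Set.univ : Set (FW W)) ≤ IL ℤ (Set.range x) := by
        apply IL_le
        rw [Pool.Agent.W490.DU.closure_gen]
        intro a _
        trivial
      refine h2.trans (Submodule.span_le.2 ?_)
      rintro _ ⟨_, ⟨i, rfl⟩, rfl⟩
      refine ⟨Pi.single i 1, ?_⟩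
      change ∑ k, (Pi.single i 1 : W → ZG (FW W)) k * (MonoidAlgebra.of ℤ _ (x k) - 1) = _
      rw [Finset.sum_eq_single i]
      · rw [Pi.single_eq_same, one_mul]
      · intro k _ hk
        rw [Pi.single_eq_of_ne hk, zero_mul]
      · intro h
        exact absurd (Finset.mem_univ i) h
    obtain ⟨c, hc⟩ := h1 hy
    exact ⟨c, Subtype.ext hc⟩
  exact FPs.equiv (LinearEquiv.ofBijective f ⟨hinj, hsurj⟩) (FPs.of_fgf FGF.self.pi j)

end free

theorem fps_unit (j : ℕ) : FPs (ZG Unit) j (Triv Unit) := by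
  cases j with
  | zero => trivial
  | succ j =>
    apply fps_triv
    have : Subsingleton (IL ℤ (Set.univ : Set Unit)) := by
      have h : IL ℤ (Set.univ : Set Unit) = ⊥ := by
        rw [eq_bot_iff]
        refine Submodule.span_le.2 ?_
        rintro _ ⟨u, -, rfl⟩
        have : u = 1 := rfl
        subst this
        change MonoidAlgebra.of ℤ Unit 1 - 1 = 0
        rw [map_one, sub_self]
      rw [h]
      infer_instance
    exact FPs.of_subsingleton j _

theorem fps_prod {F Q : Type} [Group F] [Group Q] (hF : ∀ j, FPs (ZG F) j (Triv F))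
    (hFfg : Group.FG F) (hQ : FPs (ZG Q) 3 (Triv Q)) (hQfg : Group.FG Q) :
    FPs (ZG (F × Q)) 3 (Triv (F × Q)) := by
  refine main_fp (N := F) (P := F × Q) (G := F) (Γ := Q) (Q := Unit) (MonoidHom.inl F Q)
    (MonoidHom.fst F Q) (MonoidHom.snd F Q) 1 Prod.fst_surjective Prod.snd_surjective
    (fun _ => ⟨1, rfl⟩) (fun x y h => h) ?_ ?_ ?_ ?_ 1 (hF 2) (hF 3) (fps_unit 4) hQ
  · ext ⟨a, b⟩
    rw [MonoidHom.mem_ker]
    constructor
    · intro h
      have : b = 1 := h
      subst this
      exact ⟨a, rfl⟩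
    · rintro ⟨c, hc⟩
      have := congrArg Prod.snd hc
      exact this.symm
  · ext a
    rw [MonoidHom.mem_ker]
    exact ⟨fun _ => ⟨a, rfl⟩, fun _ => rfl⟩
  · infer_instance
  · have h1 : (MonoidHom.fst F Q).ker = (MonoidHom.inr F Q).range := by
      ext ⟨a, b⟩
      rw [MonoidHom.mem_ker]
      constructor
      · intro h
        have : a = 1 := h
        subst this
        exact ⟨b, rfl⟩
      · rintro ⟨c, hc⟩
        have := congrArg Prod.fst hc
        exact this.symm
    have h2 : Group.FG (MonoidHom.fst F Q).ker := by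
      rw [h1]
      infer_instance
    exact Subgroup.IsFinitelyNormallyGenerated.of_FG _

section hnn

variable {F Q : Type} [Group F] [Group Q] (π : F →* Q)

/-- the graph of `π` -/
def gph : Subgroup (F × Q) := ((MonoidHom.id F).prod π).range

theorem mem_gph {x : F × Q} : x ∈ gph π ↔ x.2 = π x.1 := by
  constructor
  · rintro ⟨f, rfl⟩
    rfl
  · intro h
    exact ⟨x.1, Prod.ext rfl h.symm⟩

/-- the HNN extension of `F × Q` centralising the graph of `π` -/
abbrev G1 : Type := HNNExtension (F × Q) (gph π) (gph π) (MulEquiv.refl _)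

/-- the inclusion -/
def o1 : F × Q →* G1 π := HNNExtension.of

/-- the stable letter -/
def t1 : G1 π := HNNExtension.t

/-- the projection to `Q` -/
def p1 : G1 π →* Q := HNNExtension.lift (MonoidHom.snd F Q) 1 (by
  intro a
  simp)

/-- the retraction to `F × Q` -/
def r1 : G1 π →* F × Q := HNNExtension.lift (MonoidHom.id _) 1 (by
  intro a
  simp)

theorem p1_o (x : F × Q) : p1 π (o1 π x) = x.2 := HNNExtension.lift_of _ _ _ _
theorem p1_t : p1 π (t1 π) = 1 := HNNExtension.lift_t _ _ _
theorem r1_o (x : F × Q) : r1 π (o1 π x) = x := HNNExtension.lift_of _ _ _ _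

theorem o1_inj : Injective (o1 π) := fun x y h => by
  have := congrArg (r1 π) h
  rwa [r1_o, r1_o] at this

theorem t_comm (a : F × Q) (ha : a ∈ gph π) : t1 π * o1 π a = o1 π a * t1 π :=
  HNNExtension.t_mul_of (φ := MulEquiv.refl (gph π)) ⟨a, ha⟩

theorem ind1 {motive : G1 π → Prop} (x : G1 π) (of : ∀ g, motive (o1 π g)) (t : motive (t1 π))
    (mul : ∀ x y, motive x → motive y → motive (x * y)) (inv : ∀ x, motive x → motive x⁻¹) :
    motive x := HNNExtension.induction_on x of t mul inv

/-- `K` -/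
def KK : Subgroup (G1 π) := Subgroup.closure (Set.range (fun f : F => o1 π (f, 1)) ∪ {t1 π})

theorem KK_fg (hF : Group.FG F) : (KK π).FG := by
  have h1 : KK π = ((o1 π).comp (MonoidHom.inl F Q)).range ⊔ Subgroup.zpowers (t1 π) := by
    unfold KK
    rw [Subgroup.closure_union]
    congr 1
    · have : Set.range (fun f : F => o1 π (f, 1)) =
          (((o1 π).comp (MonoidHom.inl F Q)).range : Set (G1 π)) := by
        ext x
        simp
      rw [this, Subgroup.closure_eq]
    · rw [Subgroup.zpowers_eq_closure]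
  rw [h1]
  apply Subgroup.FG.sup
  · rw [← Group.fg_iff_subgroup_fg]
    infer_instance
  · rw [Subgroup.zpowers_eq_closure]
    exact ⟨{t1 π}, by simp⟩

theorem KK_o (f : F) : o1 π (f, 1) ∈ KK π := Subgroup.subset_closure (Or.inl ⟨f, rfl⟩)
theorem KK_t : t1 π ∈ KK π := Subgroup.subset_closure (Or.inr rfl)

theorem KK_conj (hπ : Surjective π) (q : Q) (k : G1 π) (hk : k ∈ KK π) :
    o1 π (1, q) * k * (o1 π (1, q))⁻¹ ∈ KK π := by
  unfold KK at hk
  induction hk using Subgroup.closure_induction with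
  | mem x hx =>
    rcases hx with ⟨f, rfl⟩ | hx
    · change o1 π (1, q) * o1 π (f, 1) * (o1 π (1, q))⁻¹ ∈ KK π
      rw [← map_inv, ← map_mul, ← map_mul]
      have : ((1, q) : F × Q) * (f, 1) * (1, q)⁻¹ = (f, 1) := by
        ext <;> simp
      rw [this]
      exact KK_o π f
    · rw [Set.mem_singleton_iff] at hx
      subst hx
      obtain ⟨f, rfl⟩ := hπ q
      have h1 : o1 π (1, π f) = o1 π (f⁻¹, 1) * o1 π (f, π f) := by
        rw [← map_mul]
        congr 1
        ext <;> simp
      have h2 := t_comm π (f, π f) ((mem_gph π).2 rfl)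
      have h3 : o1 π (1, π f) * t1 π * (o1 π (1, π f))⁻¹ =
          o1 π (f⁻¹, 1) * t1 π * (o1 π (f⁻¹, 1))⁻¹ := by
        rw [h1, mul_assoc (o1 π (f⁻¹, 1)), ← h2]
        group
      rw [h3]
      exact mul_mem (mul_mem (KK_o π _) (KK_t π)) (inv_mem (KK_o π _))
  | one => simp
  | mul x y _ _ hx hy =>
    have := mul_mem hx hy
    convert this using 1
    group
  | inv x _ hx =>
    have := inv_mem hx
    convert this using 1
    group

theorem KK_normal (hπ : Surjective π) : (KK π).Normal := by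
  rw [← Subgroup.normalizer_eq_top_iff, eq_top_iff]
  intro x _
  refine ind1 π x ?_ ?_ ?_ ?_
  · rintro ⟨f, q⟩
    have h1 : o1 π (f, q) = o1 π (f, 1) * o1 π (1, q) := by
      rw [← map_mul]
      congr 1
      ext <;> simp
    rw [h1]
    apply mul_mem
    · exact Subgroup.le_normalizer (KK_o π f)
    · rw [Subgroup.mem_normalizer_iff]
      intro k
      constructor
      · exact KK_conj π hπ q k
      · intro hk
        have := KK_conj π hπ q⁻¹ _ hk
        have h2 : o1 π ((1 : F), q⁻¹) = (o1 π (1, q))⁻¹ := by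
          rw [← map_inv]
          congr 1
          ext <;> simp
        rw [h2] at this
        convert this using 1
        group
  · exact Subgroup.le_normalizer (KK_t π)
  · intro x y hx hy
    exact mul_mem hx hy
  · intro x hx
    exact inv_mem hx

theorem KK_eq (hπ : Surjective π) : (p1 π).ker = KK π := by
  have hn := KK_normal π hπ
  have hle : KK π ≤ (p1 π).ker := by
    unfold KK
    rw [Subgroup.closure_le]
    rintro _ (⟨f, rfl⟩ | hx)
    · exact p1_o π _
    · rw [Set.mem_singleton_iff] at hx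
      subst hx
      exact p1_t π
  apply le_antisymm _ hle
  have key : ∀ g : G1 π, g * (o1 π (1, p1 π g))⁻¹ ∈ KK π := by
    intro g
    refine ind1 π (motive := fun g => g * (o1 π (1, p1 π g))⁻¹ ∈ KK π) g ?_ ?_ ?_ ?_
    · rintro ⟨f, q⟩
      rw [p1_o, ← map_inv, ← map_mul]
      have : ((f, q) : F × Q) * (1, q)⁻¹ = (f, 1) := by
        ext <;> simp
      change o1 π ((f, q) * (1, q)⁻¹) ∈ KK π
      rw [this]
      exact KK_o π f
    · rw [p1_t]
      have : o1 π ((1 : F), (1 : Q)) = 1 := map_one _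
      rw [this, inv_one, mul_one]
      exact KK_t π
    · intro x y hx hy
      have h1 : o1 π ((1 : F), p1 π (x * y)) = o1 π (1, p1 π x) * o1 π (1, p1 π y) := by
        rw [← map_mul]
        congr 1
        ext <;> simp
      rw [h1]
      have h2 := mul_mem (hn.conj_mem _ hy x) hx
      convert h2 using 1
      group
    · intro x hx
      have h1 : o1 π ((1 : F), p1 π x⁻¹) = (o1 π (1, p1 π x))⁻¹ := by
        rw [← map_inv]
        congr 1
        ext <;> simp
      rw [h1]
      have h2 := hn.conj_mem _ (inv_mem hx) (o1 π (1, p1 π x))⁻¹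
      convert h2 using 1
      group
  intro g hg
  have h1 := key g
  have h2 : p1 π g = 1 := hg
  have h3 : o1 π ((1 : F), (1 : Q)) = 1 := map_one _
  rw [h2, h3, inv_one, mul_one] at h1
  exact h1


/-- the subgroups of `G1` -/
abbrev H1 : Subgroup (G1 π) := (o1 π).range
/-- the associated subgroup of `G1` -/
abbrev A1 : Subgroup (G1 π) := (gph π).map (o1 π)

theorem hd1 : HD (H1 π) (A1 π) (t1 π) := by
  refine ⟨?_, ?_, ?_, ?_⟩
  · rw [eq_top_iff]
    intro x _
    refine ind1 π (motive := fun x => x ∈ Subgroup.closure ((H1 π : Set (G1 π)) ∪ {t1 π})) x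
      ?_ ?_ ?_ ?_
    · intro g
      exact Subgroup.subset_closure (Or.inl ⟨g, rfl⟩)
    · exact Subgroup.subset_closure (Or.inr rfl)
    · intro x y hx hy
      exact mul_mem hx hy
    · intro x hx
      exact inv_mem hx
  · rintro _ ⟨x, -, rfl⟩
    exact ⟨x, rfl⟩
  · rintro _ ⟨x, hx, rfl⟩
    exact t_comm π x hx
  · have h1 := Pool.Agent.W335.DU.HN.th ℤ (F × Q) (gph π) (gph π) (MulEquiv.refl _)
    intro x hx
    have h2 := h1 x (by
      rw [MonoidHom.coe_range] at hx
      exact hx)
    rw [Subgroup.coe_map]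
    exact h2

theorem fps_G1 (hF : ∀ j, FPs (ZG F) j (Triv F)) (hFfg : Group.FG F)
    (hQ : FPs (ZG Q) 3 (Triv Q)) (hQfg : Group.FG Q) : FPs (ZG (G1 π)) 3 (Triv (G1 π)) := by
  refine (hd1 π).up (j := 1) ?_ ?_
  · rw [MonoidHom.coe_range]
    exact fps_ind (o1 π) (o1_inj π) (fps_IL_univ (fps_prod hF hFfg hQ hQfg))
  · have h1 : (A1 π : Set (G1 π)) = Set.range ((o1 π).comp ((MonoidHom.id F).prod π)) := by
      ext x
      constructor
      · rintro ⟨_, ⟨f, rfl⟩, rfl⟩
        exact ⟨f, rfl⟩
      · rintro ⟨f, rfl⟩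
        exact ⟨_, ⟨f, rfl⟩, rfl⟩
    rw [h1]
    exact fps_IL_range_one _

/-- the fibre product -/
abbrev PP : Subgroup (G1 π × F) :=
  ((p1 π).comp (MonoidHom.fst (G1 π) F)).eqLocus (π.comp (MonoidHom.snd (G1 π) F))

theorem mem_PP {x : G1 π × F} : x ∈ PP π ↔ p1 π x.1 = π x.2 := Iff.rfl

/-- the projection of the fibre product to `G1` -/
def prP : PP π →* G1 π := (MonoidHom.fst (G1 π) F).comp (PP π).subtype

theorem not_fps_PP (hπ : Surjective π) (hF : Group.IsFinitelyPresented F)
    (hQ : ¬ Group.IsFinitelyPresented Q) : ¬ FPs (ZG (PP π)) 3 (Triv (PP π)) := by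
  classical
  intro hP
  apply hQ
  have hFfg : Group.FG F := fp_fg hF
  let s : PP π := ⟨(t1 π, 1), by rw [mem_PP]; change p1 π (t1 π) = π 1; rw [p1_t, map_one]⟩
  have hd : HD ((H1 π).comap (prP π)) ((A1 π).comap (prP π)) s := by
    refine (hd1 π).comap (prP π) ?_ s rfl ?_
    · intro g
      obtain ⟨f, hf⟩ := hπ (p1 π g)
      exact ⟨⟨(g, f), hf.symm⟩, rfl⟩
    · rintro ⟨⟨g, f⟩, hg⟩ ⟨x, hx, hxg⟩
      apply Subtype.ext
      have hxg' : o1 π x = g := hxg
      refine Prod.ext ?_ ?_
      · change t1 π * g = g * t1 π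
        rw [← hxg']
        exact t_comm π x hx
      · change 1 * f = f * 1
        rw [one_mul, mul_one]
  let lam : F × F →* PP π :=
    { toFun := fun x => ⟨(o1 π (x.1, π x.2), x.2), by
        rw [mem_PP]
        exact p1_o π _⟩
      map_one' := by
        apply Subtype.ext
        refine Prod.ext ?_ rfl
        change o1 π ((1 : F), π 1) = 1
        rw [map_one]
        exact map_one _
      map_mul' := fun x y => by
        apply Subtype.ext
        refine Prod.ext ?_ rfl
        change o1 π (x.1 * y.1, π (x.2 * y.2)) = o1 π (x.1, π x.2) * o1 π (y.1, π y.2)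
        rw [← map_mul]
        congr 1
        ext <;> simp }
  have hlam : (((H1 π).comap (prP π) : Subgroup (PP π)) : Set (PP π)) = Set.range lam := by
    ext ⟨⟨g, f⟩, hg⟩
    constructor
    · rintro ⟨⟨a, q⟩, hx⟩
      have hx' : o1 π (a, q) = g := hx
      subst hx'
      have h1 : q = π f := by
        have := hg
        rw [mem_PP] at this
        rw [← this]
        exact (p1_o π (a, q)).symm
      subst h1
      exact ⟨(a, f), rfl⟩
    · rintro ⟨⟨a, b⟩, hx⟩
      refine ⟨(a, π b), ?_⟩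
      rw [← hx]
      rfl
  have h1 : FPs (ZG (PP π)) 1 (IL ℤ (((H1 π).comap (prP π) : Subgroup (PP π)) : Set (PP π))) := by
    rw [hlam]
    exact fps_IL_range_one lam
  have h2 := hd.down (j := 1) hP h1
  obtain ⟨S, hS⟩ := fg_of_IL_fg _ (fg_of_fps_one _ h2)
  -- the two homomorphisms to `F`
  let a : PP π →* F := (MonoidHom.fst F Q).comp ((r1 π).comp (prP π))
  let b : PP π →* F := (MonoidHom.snd (G1 π) F).comp (PP π).subtype
  have hE : ∀ e ∈ (A1 π).comap (prP π), π (a e * (b e)⁻¹) = 1 := by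
    rintro ⟨⟨g, f⟩, hg⟩ ⟨x, hx, hxg⟩
    have hxg' : o1 π x = g := hxg
    subst hxg'
    have h3 : a ⟨(o1 π x, f), hg⟩ = x.1 := by
      change (r1 π (o1 π x)).1 = x.1
      rw [r1_o]
    have h4 : b ⟨(o1 π x, f), hg⟩ = f := rfl
    rw [h3, h4, map_mul, map_inv, mul_inv_eq_one]
    have h5 := (mem_gph π).1 hx
    rw [← h5, ← p1_o π x]
    exact hg
  refine Group.IsFinitelyPresented.of_surjective π hπ ?_
  let U : Set F := (fun e => a e * (b e)⁻¹) '' (S : Set (PP π))
  refine ⟨U, S.finite_toSet.image _, ?_⟩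
  apply le_antisymm
  · apply Subgroup.normalClosure_le_normal
    rintro _ ⟨e, he, rfl⟩
    refine hE e ?_
    rw [← hS]
    exact Subgroup.subset_closure he
  · intro f hf
    let q := QuotientGroup.mk' (Subgroup.normalClosure U)
    have h3 : (A1 π).comap (prP π) ≤ (q.comp a).eqLocus (q.comp b) := by
      rw [← hS, Subgroup.closure_le]
      intro e he
      change q (a e) = q (b e)
      rw [← mul_inv_eq_one, ← map_inv, ← map_mul, ← MonoidHom.mem_ker, QuotientGroup.ker_mk']
      exact Subgroup.subset_normalClosure ⟨e, he, rfl⟩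
    have hf' : π f = 1 := hf
    have h4 : (⟨(o1 π (f, π f), 1), by
        rw [mem_PP, p1_o]
        change π f = π 1
        rw [hf', map_one]⟩ : PP π) ∈ (A1 π).comap (prP π) :=
      ⟨(f, π f), ⟨f, rfl⟩, rfl⟩
    have h5 := h3 h4
    have h6 : q (r1 π (o1 π (f, π f))).1 = q 1 := h5
    rw [r1_o, map_one] at h6
    rw [← QuotientGroup.ker_mk' (Subgroup.normalClosure U)]
    exact h6

end hnn

theorem hnn_th : PropHNN := by
  intro Q _ hQ hfg hnfp
  obtain ⟨W, hW, π, hπ⟩ := FW_surj hfg
  have hF : ∀ j, FPs (ZG (FW W)) j (Triv (FW W)) := by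
    intro j
    cases j with
    | zero => trivial
    | succ j => exact fps_triv (fps_FW W j)
  refine ⟨G1 π, FW W, inferInstance, inferInstance, p1 π, π, ?_, hπ, ?_,
    fps_G1 π hF inferInstance hQ hfg, hF 3, not_fps_PP π hπ inferInstance hnfp⟩
  · intro q
    exact ⟨o1 π (1, q), p1_o π _⟩
  · rw [KK_eq π hπ, Group.fg_iff_subgroup_fg]
    exact KK_fg π inferInstance

end Pool.Agent.R662.HC
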