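import Pool.Agent.R662.HC.M8Data

/-!
# M8: the graph exists
-/

set_option autoImplicit false

namespace Pool.Agent.R662.HC.M8

open Pool.Agent.W326.DU
open Pool.Agent.Y66.HC

theorem adj_symm : ∀ a b, adj a b → adj b a := by decide +kernel

theorem adj_irr : ∀ a, ¬ adj a a := by decide +kernel

/-- the dimension of a cell -/
def dm (a : Fin 21) : ℕ := if a.val < 5 then 0 else if a.val < 15 then 1 else 2

theorem dm_le : ∀ a, dm a ≤ 2 := by decide +kernel

theorem dm_ne : ∀ a b, adj a b → dm a ≠ dm b := by decide +kernel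

theorem adj_k4 (a b c d : Fin 21) (h1 : adj a b) (h2 : adj a c) (h3 : adj a d) (h4 : adj b c)
    (h5 : adj b d) : ¬ adj c d := by
  intro h6
  have := dm_ne _ _ h1
  have := dm_ne _ _ h2
  have := dm_ne _ _ h3
  have := dm_ne _ _ h4
  have := dm_ne _ _ h5
  have := dm_ne _ _ h6
  have := dm_le a
  have := dm_le b
  have := dm_le c
  have := dm_le d
  omega

theorem prt_adj : ∀ a, prt a = a ∨ adj a (prt a) := by decide +kernel

theorem prt_root : ∀ a, prt (prt a) = 3 := by decide +kernel

theorem to_root (a : Fin 21) : Relation.ReflTransGen adj a 3 := by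
  have h : ∀ a, Relation.ReflTransGen adj a (prt a) := by
    intro a
    rcases prt_adj a with h | h
    · rw [h]
    · exact Relation.ReflTransGen.single h
  have h1 := (h a).trans (h (prt a))
  rwa [prt_root] at h1

theorem of_root (a : Fin 21) : Relation.ReflTransGen adj 3 a := by
  have h : ∀ a, Relation.ReflTransGen adj (prt a) a := by
    intro a
    rcases prt_adj a with h | h
    · rw [h]
    · exact Relation.ReflTransGen.single (adj_symm _ _ h)
  have h1 := (h (prt a)).trans (h a)
  rwa [prt_root] at h1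

theorem adj_conn (a b : Fin 21) : Relation.ReflTransGen adj a b :=
  (to_root a).trans (of_root b)

theorem ed_ad : ∀ i, adj (ed i).1 (ed i).2 := by decide +kernel

theorem ed_lt : ∀ i, (ed i).1 < (ed i).2 := by decide +kernel

theorem ed_inj : ∀ i j, ed i = ed j → i = j := by decide +kernel

theorem ed_ex : ∀ a b, adj a b → a < b → ∃ i, ed i = (a, b) := by decide +kernel

theorem tr_ad : ∀ j, adj (tr j).1 (tr j).2.1 ∧ adj (tr j).2.1 (tr j).2.2 ∧
    adj (tr j).1 (tr j).2.2 := by decide +kernel

theorem tr_lt : ∀ j, (tr j).1 < (tr j).2.1 ∧ (tr j).2.1 < (tr j).2.2 := by decide +kernel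

theorem tr_inj : ∀ i j, tr i = tr j → i = j := by decide +kernel

theorem fc0 : ∀ j, ed (fc 0 j) = ((tr j).2.1, (tr j).2.2) := by decide +kernel

theorem fc1 : ∀ j, ed (fc 1 j) = ((tr j).1, (tr j).2.2) := by decide +kernel

theorem fc2 : ∀ j, ed (fc 2 j) = ((tr j).1, (tr j).2.1) := by decide +kernel

theorem tr_ex : ∀ a b c, adj a b → adj b c → adj a c → a < b → b < c →
    ∃ j, tr j = (a, b, c) := by decide +kernel

theorem hS1 : ∀ j j', S1 j (fc 0 j') - S1 j (fc 1 j') + S1 j (fc 2 j') =
    if j = j' then 1 else 0 := by decide +kernel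

theorem hco : ∀ i j, ((if fc 0 j = i then 1 else 0) - (if fc 1 j = i then 1 else 0) +
    (if fc 2 j = i then 1 else 0) : ℤ) = ((co i).map fun p => if p.1 = j then p.2 else 0).sum := by
  decide +kernel

theorem hS0 : ∀ i i', S0 i (ed i').2 - S0 i (ed i').1 +
    ((co i).map fun p => p.2 * S1 p.1 i').sum = if i = i' then 1 else 0 := by
  decide +kernel

theorem hdata : HData adj ed tr (fc 0) (fc 1) (fc 2) S0 S1 co where
  symm := adj_symm
  irr := adj_irr
  e_ad := ed_ad
  e_lt := ed_lt
  e_inj := ed_inj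
  e_ex := ed_ex
  t_ad := tr_ad
  t_lt := tr_lt
  t_inj := tr_inj
  t_ex := tr_ex
  h0 := fc0
  h1 := fc1
  h2 := fc2
  hS1 := hS1
  hco := hco
  hS0 := hS0
  conn := adj_conn
  ne := ⟨0⟩

theorem coc_aux : ∀ u v w : Fin 21, (u = v ∨ adj u v) → (v = w ∨ adj v w) → (u = w ∨ adj u w) →
    ∀ k : Fin 5, gf u v (gf v w k) = gf u w k := by decide +kernel

theorem path_aux : ∀ i : Fin 6, adj (pth i.val) (pth (i.val + 1)) := by decide +kernel

theorem hol_aux : ((List.range 6).map (fun i => gam (pth i) (pth (i + 1)))).prod 0 ≠ 0 := by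
  decide +kernel

theorem grData : GrData adj gam 6 pth where
  symm := adj_symm
  irr := adj_irr
  k4 := adj_k4
  acyc := hdata.acyc
  conn := adj_conn
  coc u v w h1 h2 h3 := by
    ext k
    exact congrArg Fin.val (coc_aux u v w h1 h2 h3 k)
  closed := by decide +kernel
  path i hi := path_aux ⟨i, hi⟩
  hol h := hol_aux (by rw [h]; rfl)

/-- **M8**. -/
theorem th : PropM8 :=
  ⟨Fin 21, inferInstance, inferInstance, adj, gam, 6, pth, grData⟩

end Pool.Agent.R662.HC.M8
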