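import Pool.Agent.R662.HC.Stm

/-!
# NFP: the Bestvina-Brady group of the graph data is not finitely presented (pilings)
-/

set_option autoImplicit false

namespace Pool.Agent.R662.HC.NFP

open Pool.Agent.W326.DU (RAAG rels gen)
open Pool.Agent.Y66.HC (GrData)
open Pool.Agent.W386 (ker_ifng)
open scoped Classical

/-! ### Pilings -/

section pil

variable {V : Type} (ad : V → V → Prop)

/-- pilings: a stack of beads over each vertex (`none` is the zero bead) -/
abbrev Pil (V : Type) : Type := V → List (Option Bool)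

/-- drop the letter `v^ε` -/
noncomputable def add (v : V) (ε : Bool) (π : Pil V) : Pil V := fun w =>
  if w = v then some ε :: π w else if ad v w then π w else none :: π w

/-- remove the top tile `v` -/
noncomputable def rem (v : V) (π : Pil V) : Pil V := fun w =>
  if w = v then (π w).tail else if ad v w then π w else (π w).tail

/-- the top bead over `v` is `ε` -/
def top (v : V) (ε : Bool) (π : Pil V) : Prop := (π v).head? = some (some ε)

/-- sign of a letter -/
def sgn (ε : Bool) : ℤ := if ε then 1 else -1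

/-- reduced pilings together with their height -/
inductive Valid : Pil V → ℤ → Prop
  | nil : Valid (fun _ => []) 0
  | add (v : V) (ε : Bool) (π : Pil V) (k : ℤ) : Valid π k → ¬ top v (!ε) π →
      Valid (add ad v ε π) (k + sgn ε)

theorem rem_add (v : V) (ε : Bool) (π : Pil V) : rem ad v (add ad v ε π) = π := by
  funext w
  unfold rem add
  split_ifs <;> simp_all

theorem top_add_self (v : V) (ε : Bool) (π : Pil V) : top v ε (add ad v ε π) := by
  simp [top, add]

variable {ad}

theorem add_comm' (hs : ∀ a b, ad a b → ad b a) (hi : ∀ a, ¬ ad a a) {u v : V} (h : ad u v)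
    (δ ε : Bool) (π : Pil V) : add ad u δ (add ad v ε π) = add ad v ε (add ad u δ π) := by
  funext w
  have h' := hs _ _ h
  have hne : u ≠ v := by rintro rfl; exact hi _ h
  unfold add
  by_cases h1 : w = u
  · subst h1
    simp [hne, h']
  · by_cases h2 : w = v
    · subst h2
      simp [h1, h]
    · simp only [h1, h2, if_false]
      split_ifs <;> rfl

theorem add_apply_ad (hi : ∀ a, ¬ ad a a) {u v : V} (h : ad v u) (ε : Bool) (π : Pil V) :
    add ad v ε π u = π u := by
  have : u ≠ v := by rintro rfl; exact hi _ h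
  simp [add, this, h]

theorem rem_apply_ad (hi : ∀ a, ¬ ad a a) {u v : V} (h : ad v u) (π : Pil V) :
    rem ad v π u = π u := by
  have : u ≠ v := by rintro rfl; exact hi _ h
  simp [rem, this, h]

theorem p1 (hs : ∀ a b, ad a b → ad b a) (hi : ∀ a, ¬ ad a a) {π : Pil V} {k : ℤ}
    (h : Valid ad π k) (v : V) (ε : Bool) (ht : top v ε π) :
    π = add ad v ε (rem ad v π) ∧ Valid ad (rem ad v π) (k - sgn ε) ∧
      ¬ top v (!ε) (rem ad v π) := by
  induction h with
  | nil => simp [top] at ht
  | add u δ π1 k hv hn ih =>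
    by_cases huv : u = v
    · subst huv
      have : δ = ε := by
        simp [top, add] at ht
        exact ht
      subst this
      rw [rem_add]
      exact ⟨rfl, by simpa using hv, hn⟩
    · have hne : v ≠ u := fun h => huv h.symm
      by_cases had : ad u v
      · have hvu := hs _ _ had
        have ht1 : top v ε π1 := by
          unfold top at ht ⊢
          rwa [add_apply_ad hi had] at ht
        obtain ⟨e1, e2, e3⟩ := ih ht1
        have e4 : add ad u δ π1 = add ad v ε (add ad u δ (rem ad v π1)) := by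
          conv_lhs => rw [e1]
          exact add_comm' hs hi had _ _ _
        have e5 : rem ad v (add ad u δ π1) = add ad u δ (rem ad v π1) := by
          rw [e4, rem_add]
        refine ⟨by rw [e5]; exact e4, ?_, ?_⟩
        · rw [e5]
          have : k + sgn δ - sgn ε = (k - sgn ε) + sgn δ := by ring
          rw [this]
          refine Valid.add _ _ _ _ e2 ?_
          unfold top at hn ⊢
          rwa [rem_apply_ad hi hvu]
        · rw [e5]
          unfold top at e3 ⊢
          rwa [add_apply_ad hi had]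
      · simp [top, add, hne, had] at ht

/-- the action of a letter -/
noncomputable def T (ad : V → V → Prop) (v : V) (ε : Bool) (π : Pil V) : Pil V :=
  if top v (!ε) π then rem ad v π else add ad v ε π

theorem sgn_not (ε : Bool) : sgn (!ε) = - sgn ε := by
  cases ε <;> simp [sgn]

theorem T_valid (hs : ∀ a b, ad a b → ad b a) (hi : ∀ a, ¬ ad a a) {π : Pil V} {k : ℤ}
    (h : Valid ad π k) (v : V) (ε : Bool) : Valid ad (T ad v ε π) (k + sgn ε) := by
  unfold T
  split_ifs with ht
  · obtain ⟨-, h2, -⟩ := p1 hs hi h v _ ht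
    rwa [sgn_not, sub_neg_eq_add] at h2
  · exact Valid.add _ _ _ _ h ht

theorem T_inv (hs : ∀ a b, ad a b → ad b a) (hi : ∀ a, ¬ ad a a) {π : Pil V} {k : ℤ}
    (h : Valid ad π k) (v : V) (ε : Bool) : T ad v (!ε) (T ad v ε π) = π := by
  by_cases ht : top v (!ε) π
  · obtain ⟨h1, -, h3⟩ := p1 hs hi h v _ ht
    have e : T ad v ε π = rem ad v π := by simp [T, ht]
    rw [e]
    unfold T
    rw [if_neg h3]
    exact h1.symm
  · have e : T ad v ε π = add ad v ε π := by simp [T, ht]
    rw [e]
    have : top v (!!ε) (add ad v ε π) := by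
      rw [Bool.not_not]; exact top_add_self _ _ _ _
    unfold T
    rw [if_pos this, rem_add]

theorem T_apply_ad (hi : ∀ a, ¬ ad a a) {u v : V} (h : ad v u) (ε : Bool) (π : Pil V) :
    T ad v ε π u = π u := by
  unfold T
  split_ifs
  · exact rem_apply_ad hi h _
  · exact add_apply_ad hi h _ _

theorem top_T_ad (hi : ∀ a, ¬ ad a a) {u v : V} (h : ad v u) (ε δ : Bool) (π : Pil V) :
    top u δ (T ad v ε π) ↔ top u δ π := by
  unfold top
  rw [T_apply_ad hi h]

/-- mixed commutation -/
theorem add_rem_comm (hs : ∀ a b, ad a b → ad b a) (hi : ∀ a, ¬ ad a a) {π : Pil V} {k : ℤ}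
    (h : Valid ad π k) {u v : V} (had : ad u v) (δ ε : Bool) (ht : top v ε π) :
    add ad u δ (rem ad v π) = rem ad v (add ad u δ π) := by
  obtain ⟨h1, -, -⟩ := p1 hs hi h v _ ht
  conv_rhs => rw [h1, add_comm' hs hi had, rem_add]

theorem rem_rem_comm (hs : ∀ a b, ad a b → ad b a) (hi : ∀ a, ¬ ad a a) {π : Pil V}
    {u v : V} (had : ad u v) :
    rem ad u (rem ad v π) = rem ad v (rem ad u π) := by
  funext w
  have h' := hs _ _ had
  have hne : u ≠ v := by rintro rfl; exact hi _ had
  unfold rem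
  by_cases h1 : w = u
  · subst h1
    simp [hne, h']
  · by_cases h2 : w = v
    · subst h2
      simp [h1, had]
    · simp only [h1, h2, if_false]
      split_ifs <;> rfl

theorem T_comm (hs : ∀ a b, ad a b → ad b a) (hi : ∀ a, ¬ ad a a) {π : Pil V} {k : ℤ}
    (h : Valid ad π k) {u v : V} (had : ad u v) (δ ε : Bool) :
    T ad u δ (T ad v ε π) = T ad v ε (T ad u δ π) := by
  have hvu := hs _ _ had
  have e1 := top_T_ad hi hvu ε (!δ) π
  have e2 := top_T_ad hi had δ (!ε) π
  by_cases a : top u (!δ) π <;> by_cases b : top v (!ε) π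
  · have := rem_rem_comm hs hi had (π := π)
    unfold T at e1 e2 ⊢
    simp only [a, b, if_true, iff_true] at e1 e2 ⊢
    rw [if_pos e1, if_pos e2, this]
  · have := add_rem_comm hs hi h hvu ε (!δ) a
    unfold T at e1 e2 ⊢
    simp only [a, b, if_true, iff_true, if_false, iff_false] at e1 e2 ⊢
    rw [if_pos e1, if_neg e2, this]
  · have := add_rem_comm hs hi h had δ (!ε) b
    unfold T at e1 e2 ⊢
    simp only [a, b, if_true, iff_true, if_false, iff_false] at e1 e2 ⊢
    rw [if_neg e1, if_pos e2, this]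
  · have := add_comm' hs hi had δ ε π
    unfold T at e1 e2 ⊢
    simp only [a, b, if_false, iff_false] at e1 e2 ⊢
    rw [if_neg e1, if_neg e2, this]

/-! ### Heads -/

/-- the bottom bead over `w` is signed -/
def Hd (π : Pil V) (w : V) : Prop := ∃ ε, (π w).getLast? = some (some ε)

theorem getLast_cons {α : Type} (a : α) (l : List α) (h : l ≠ []) :
    (a :: l).getLast? = l.getLast? := by
  cases l with
  | nil => exact absurd rfl h
  | cons b l => simp

theorem Hd_ne {π : Pil V} {w : V} (h : Hd π w) : π w ≠ [] := by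
  obtain ⟨ε, h⟩ := h
  intro h'
  rw [h'] at h
  simp at h

theorem Hd_add {π : Pil V} {w : V} (h : Hd π w) (v : V) (ε : Bool) : Hd (add ad v ε π) w := by
  have h0 := Hd_ne h
  unfold Hd add at *
  split_ifs
  · rwa [getLast_cons _ _ h0]
  · exact h
  · rwa [getLast_cons _ _ h0]

/-- if `w` is in the head then all nonadjacent stacks are nonempty -/
theorem ne_of_Hd (_hs : ∀ a b, ad a b → ad b a) {π : Pil V} {k : ℤ}
    (h : Valid ad π k) {w w' : V} (hw : Hd π w) (hne : w' ≠ w) (had : ¬ ad w w') :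
    π w' ≠ [] := by
  induction h with
  | nil => exact absurd rfl (Hd_ne hw)
  | add u δ π1 k hv hn ih =>
    by_cases h1 : Hd π1 w
    · have := ih h1
      unfold add
      split_ifs
      · simp
      · exact this
      · simp
    · have h2 : w = u := by
        by_contra h2
        apply h1
        unfold Hd add at hw
        unfold Hd
        simp only [h2, if_false] at hw
        split_ifs at hw with h3
        · exact hw
        · by_cases h4 : π1 w = []
          · rw [h4] at hw
            simp at hw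
          · rwa [getLast_cons _ _ h4] at hw
      subst h2
      simp [add, hne, had]

theorem Hd_adj (hs : ∀ a b, ad a b → ad b a) {π : Pil V} {k : ℤ}
    (h : Valid ad π k) {w w' : V} (hw : Hd π w) (hw' : Hd π w') : w = w' ∨ ad w w' := by
  induction h with
  | nil => exact absurd rfl (Hd_ne hw)
  | add u δ π1 k hv hn ih =>
    have key : ∀ x, Hd (add ad u δ π1) x → Hd π1 x ∨ (x = u ∧ π1 x = []) := by
      intro x hx
      by_cases h4 : π1 x = []
      · right
        refine ⟨?_, h4⟩
        by_contra h2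
        unfold Hd add at hx
        simp only [h2, if_false, h4] at hx
        split_ifs at hx <;> simp at hx
      · left
        unfold Hd add at hx
        unfold Hd
        split_ifs at hx
        · rwa [getLast_cons _ _ h4] at hx
        · exact hx
        · rwa [getLast_cons _ _ h4] at hx
    rcases key w hw with h1 | ⟨h1, h1'⟩ <;> rcases key w' hw' with h2 | ⟨h2, h2'⟩
    · exact ih h1 h2
    · by_cases e : w = w'
      · exact Or.inl e
      · right
        by_contra had
        exact ne_of_Hd hs hv h1 (fun h => e h.symm) had h2'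
    · by_cases e : w = w'
      · exact Or.inl e
      · right
        by_contra had
        exact ne_of_Hd hs hv h2 e (fun h => had (hs _ _ h)) h1'
    · left; rw [h1, h2]

theorem exists_Hd {π : Pil V} {k : ℤ} (h : Valid ad π k) (hk : π ≠ fun _ => []) :
    ∃ w, Hd π w := by
  induction h with
  | nil => exact absurd rfl hk
  | add u δ π1 k hv hn ih =>
    by_cases h1 : π1 = fun _ => []
    · refine ⟨u, δ, ?_⟩
      rw [h1]
      simp [add]
    · obtain ⟨w, hw⟩ := ih h1
      exact ⟨w, Hd_add hw _ _⟩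

theorem valid_nil {π : Pil V} {k : ℤ} (h : Valid ad π k) (hπ : π = fun _ => []) : k = 0 := by
  induction h with
  | nil => rfl
  | add u δ π1 k hv hn ih =>
    have := congrFun hπ u
    simp [add] at this

/-- all four heads of a square are contained in the head of a corner -/
theorem square (hs : ∀ a b, ad a b → ad b a) (hi : ∀ a, ¬ ad a a) {π : Pil V} {k : ℤ}
    (h : Valid ad π k) {u v : V} (had : ad u v) (δ ε : Bool) :
    ∃ (M : Pil V) (m : ℤ), Valid ad M m ∧ (∀ w, Hd π w → Hd M w) ∧
      (∀ w, Hd (T ad u δ π) w → Hd M w) ∧ (∀ w, Hd (T ad v ε π) w → Hd M w) ∧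
      (∀ w, Hd (T ad u δ (T ad v ε π)) w → Hd M w) := by
  have hvu := hs _ _ had
  have step : ∀ (x : V) (η : Bool) (σ : Pil V) (m : ℤ), Valid ad σ m → top x (!η) σ →
      ∀ w, Hd (T ad x η σ) w → Hd σ w := by
    intro x η σ m hσ ht w hw
    obtain ⟨h1, -, -⟩ := p1 hs hi hσ x _ ht
    rw [h1]
    have : T ad x η σ = rem ad x σ := by simp [T, ht]
    rw [this] at hw
    exact Hd_add hw _ _
  have step' : ∀ (x : V) (η : Bool) (σ : Pil V), ¬ top x (!η) σ →
      ∀ w, Hd σ w → Hd (T ad x η σ) w := by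
    intro x η σ ht w hw
    have : T ad x η σ = add ad x η σ := by simp [T, ht]
    rw [this]
    exact Hd_add hw _ _
  have hv1 := T_valid hs hi h u δ
  have hv2 := T_valid hs hi h v ε
  have hv3 := T_valid hs hi hv2 u δ
  have hcm := T_comm hs hi h had δ ε
  have e1 := top_T_ad hi hvu ε (!δ) π
  have e2 := top_T_ad hi had δ (!ε) π
  by_cases a : top u (!δ) π <;> by_cases b : top v (!ε) π
  · refine ⟨π, k, h, fun w => id, step _ _ _ _ h a, step _ _ _ _ h b, fun w hw => ?_⟩
    exact step _ _ _ _ h b _ (step _ _ _ _ hv2 (e1.2 a) _ hw)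
  · refine ⟨T ad v ε π, _, hv2, step' _ _ _ b, fun w hw => ?_, fun w => id, fun w hw => ?_⟩
    · exact step' _ _ _ b _ (step _ _ _ _ h a _ hw)
    · exact step _ _ _ _ hv2 (e1.2 a) _ hw
  · refine ⟨T ad u δ π, _, hv1, step' _ _ _ a, fun w => id, fun w hw => ?_, fun w hw => ?_⟩
    · exact step' _ _ _ a _ (step _ _ _ _ h b _ hw)
    · rw [hcm] at hw
      exact step _ _ _ _ hv1 (e2.2 b) _ hw
  · refine ⟨T ad u δ (T ad v ε π), _, hv3, fun w hw => ?_, fun w hw => ?_, fun w hw => ?_,
      fun w => id⟩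
    · exact step' _ _ _ (fun h => a (e1.1 h)) _ (step' _ _ _ b _ hw)
    · rw [hcm]
      exact step' _ _ _ (fun h => b (e2.1 h)) _ hw
    · exact step' _ _ _ (fun h => a (e1.1 h)) _ hw

/-- no signed bead over `w` -/
def NoSig (π : Pil V) (w : V) : Prop := ∀ b ∈ π w, b = none

theorem NoSig_T {π : Pil V} {w v : V} (hne : w ≠ v) (ε : Bool) (h : NoSig π w) :
    NoSig (T ad v ε π) w := by
  intro b hb
  unfold T at hb
  split_ifs at hb
  · unfold rem at hb
    simp only [hne, if_false] at hb
    split_ifs at hb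
    · exact h b hb
    · exact h b (List.mem_of_mem_tail hb)
  · unfold add at hb
    simp only [hne, if_false] at hb
    split_ifs at hb
    · exact h b hb
    · rcases List.mem_cons.1 hb with h1 | h1
      · exact h1
      · exact h b h1

theorem not_Hd {π : Pil V} {w : V} (h : NoSig π w) : ¬ Hd π w := by
  rintro ⟨ε, hε⟩
  have := h _ (List.mem_of_getLast? hε)
  simp at this

end pil

/-! ### The action -/

section act

variable {V J : Type} [Group J]

/-- states -/
abbrev St (ad : V → V → Prop) : Type := {q : Pil V × ℤ // Valid ad q.1 q.2}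

/-- the action of a generator on the states -/
noncomputable def TS {ad : V → V → Prop} (hs : ∀ a b, ad a b → ad b a) (hi : ∀ a, ¬ ad a a)
    (v : V) : Equiv.Perm (St ad) where
  toFun q := ⟨(T ad v true q.1.1, q.1.2 + 1), by
    have := T_valid hs hi q.2 v true
    simpa [sgn] using this⟩
  invFun q := ⟨(T ad v false q.1.1, q.1.2 - 1), by
    have := T_valid hs hi q.2 v false
    rw [sub_eq_add_neg]
    simpa [sgn] using this⟩
  left_inv q := by
    apply Subtype.ext
    have := T_inv hs hi q.2 v true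
    simp only [Bool.not_true] at this
    simp [this]
  right_inv q := by
    apply Subtype.ext
    have := T_inv hs hi q.2 v false
    simp only [Bool.not_false] at this
    simp [this]

/-- the empty piling -/
def s0 (ad : V → V → Prop) : St ad := ⟨(fun _ => [], 0), Valid.nil⟩

/-- a vertex of the head -/
noncomputable def lam (v0 : V) (q : Pil V) : V := if h : ∃ w, Hd q w then h.choose else v0

theorem lam_spec {ad : V → V → Prop} (v0 : V) (q : St ad) (h : q.1.2 ≠ 0) :
    Hd q.1.1 (lam v0 q.1.1) := by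
  have h1 : ∃ w, Hd q.1.1 w := by
    apply exists_Hd q.2
    intro h2
    exact h (valid_nil q.2 h2)
  unfold lam
  rw [dif_pos h1]
  exact h1.choose_spec

/-- the twisted action of a generator -/
noncomputable def tau {ad : V → V → Prop} (hs : ∀ a b, ad a b → ad b a) (hi : ∀ a, ¬ ad a a)
    (γ : V → V → J) (v0 : V) (v : V) : Equiv.Perm (St ad × J) :=
  Equiv.prodShear (TS hs hi v)
    (fun q => Equiv.mulLeft (γ (lam v0 (TS hs hi v q).1.1) (lam v0 q.1.1)))

theorem tau_apply {ad : V → V → Prop} (hs : ∀ a b, ad a b → ad b a) (hi : ∀ a, ¬ ad a a)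
    (γ : V → V → J) (v0 : V) (v : V) (q : St ad) (j : J) :
    tau hs hi γ v0 v (q, j)
      = (TS hs hi v q, γ (lam v0 (TS hs hi v q).1.1) (lam v0 q.1.1) * j) := rfl

/-- the action of the free group -/
noncomputable def rho {ad : V → V → Prop} (hs : ∀ a b, ad a b → ad b a) (hi : ∀ a, ¬ ad a a)
    (γ : V → V → J) (v0 : V) : FreeGroup V →* Equiv.Perm (St ad × J) :=
  FreeGroup.lift (tau hs hi γ v0)

/-- exponent sum -/
def hF (V : Type) : FreeGroup V →* Multiplicative ℤ :=
  FreeGroup.lift (fun _ => Multiplicative.ofAdd (1 : ℤ))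

variable {ad : V → V → Prop} (hs : ∀ a b, ad a b → ad b a) (hi : ∀ a, ¬ ad a a)
    (γ : V → V → J) (v0 : V)

theorem hgt_tau (v : V) (s : St ad × J) : (tau hs hi γ v0 v s).1.1.2 = s.1.1.2 + 1 := rfl

theorem hgt_rho (g : FreeGroup V) (s : St ad × J) :
    (rho hs hi γ v0 g s).1.1.2 = s.1.1.2 + Multiplicative.toAdd (hF V g) := by
  induction g using FreeGroup.induction_on generalizing s with
  | C1 => simp
  | of v => simp [rho, hF, hgt_tau]
  | inv_of v ih =>
    have h1 := ih ((rho hs hi γ v0 (FreeGroup.of v)⁻¹) s)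
    rw [← Equiv.Perm.mul_apply, ← map_mul, mul_inv_cancel, map_one, Equiv.Perm.one_apply] at h1
    rw [map_inv (hF V), toAdd_inv]
    linarith
  | mul x y hx hy =>
    rw [map_mul, Equiv.Perm.mul_apply, hx, hy, map_mul, toAdd_mul]
    ring

theorem TS_comm {u v : V} (had : ad u v) (q : St ad) :
    TS hs hi u (TS hs hi v q) = TS hs hi v (TS hs hi u q) := by
  apply Subtype.ext
  have := T_comm hs hi q.2 had true true
  simp [TS, this]

theorem tau_comm (coc : ∀ u v w, (u = v ∨ ad u v) → (v = w ∨ ad v w) → (u = w ∨ ad u w) →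
    γ u v * γ v w = γ u w) {u v : V} (had : ad u v) (s : St ad × J)
    (h0 : s.1.1.2 ≠ 0) (h1 : s.1.1.2 + 1 ≠ 0) (h2 : s.1.1.2 + 1 + 1 ≠ 0) :
    tau hs hi γ v0 u (tau hs hi γ v0 v s) = tau hs hi γ v0 v (tau hs hi γ v0 u s) := by
  obtain ⟨q, j⟩ := s
  rw [tau_apply, tau_apply, tau_apply, tau_apply]
  obtain ⟨M, m, hM, a1, a2, a3, a4⟩ := square hs hi q.2 had true true
  have b1 := a1 _ (lam_spec v0 q h0)
  have b2 := a2 _ (lam_spec v0 (TS hs hi u q) h1)
  have b3 := a3 _ (lam_spec v0 (TS hs hi v q) h1)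
  have b4 := a4 _ (lam_spec v0 (TS hs hi u (TS hs hi v q)) h2)
  rw [← mul_assoc, ← mul_assoc]
  rw [coc _ _ _ (Hd_adj hs hM b4 b3) (Hd_adj hs hM b3 b1) (Hd_adj hs hM b4 b1)]
  rw [← TS_comm hs hi had]
  rw [coc _ _ _ (Hd_adj hs hM b4 b2) (Hd_adj hs hM b2 b1) (Hd_adj hs hM b4 b1)]

/-- (A1) -/
theorem A1 (coc : ∀ u v w, (u = v ∨ ad u v) → (v = w ∨ ad v w) → (u = w ∨ ad u w) →
    γ u v * γ v w = γ u w) (r : FreeGroup V) (hr : r ∈ Subgroup.normalClosure (rels ad)) :
    ∃ N : ℤ, ∀ s, N ≤ |s.1.1.2| → rho hs hi γ v0 r s = s := by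
  let K : Subgroup (FreeGroup V) :=
    { carrier := {r | ∃ N : ℤ, ∀ s, N ≤ |s.1.1.2| → rho hs hi γ v0 r s = s}
      one_mem' := ⟨0, fun s _ => by simp⟩
      mul_mem' := by
        rintro a b ⟨N, hN⟩ ⟨N', hN'⟩
        refine ⟨max N N', fun s hs' => ?_⟩
        rw [map_mul, Equiv.Perm.mul_apply, hN' s (le_trans (le_max_right _ _) hs'),
          hN s (le_trans (le_max_left _ _) hs')]
      inv_mem' := by
        rintro a ⟨N, hN⟩
        refine ⟨N, fun s hs' => ?_⟩
        rw [map_inv, Equiv.Perm.inv_eq_iff_eq, hN s hs'] }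
  have hK : K.Normal := by
    refine ⟨?_⟩
    rintro a ⟨N, hN⟩ g
    refine ⟨N + |Multiplicative.toAdd (hF V g)|, fun s hs' => ?_⟩
    rw [map_mul, map_mul, Equiv.Perm.mul_apply, Equiv.Perm.mul_apply, hN]
    · rw [← Equiv.Perm.mul_apply, ← map_mul, mul_inv_cancel, map_one, Equiv.Perm.one_apply]
    · rw [hgt_rho, map_inv, toAdd_inv]
      have h1 := abs_sub_abs_le_abs_sub s.1.1.2 (Multiplicative.toAdd (hF V g))
      rw [← sub_eq_add_neg]
      linarith
  have hle : Subgroup.normalClosure (rels ad) ≤ K := by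
    apply Subgroup.normalClosure_le_normal
    rintro _ ⟨a, b, hab, rfl⟩
    refine ⟨5, fun s hs' => ?_⟩
    set s' := rho hs hi γ v0 ((FreeGroup.of a)⁻¹ * (FreeGroup.of b)⁻¹) s with hs'def
    have e1 : rho hs hi γ v0 (FreeGroup.of a * FreeGroup.of b * (FreeGroup.of a)⁻¹
        * (FreeGroup.of b)⁻¹) s = tau hs hi γ v0 a (tau hs hi γ v0 b s') := by
      rw [hs'def, mul_assoc _ _ ((FreeGroup.of b)⁻¹), map_mul, Equiv.Perm.mul_apply, map_mul,
        Equiv.Perm.mul_apply]
      simp [rho]
    have e2 : tau hs hi γ v0 b (tau hs hi γ v0 a s') = s := by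
      have : rho hs hi γ v0 (FreeGroup.of b * FreeGroup.of a * ((FreeGroup.of a)⁻¹
        * (FreeGroup.of b)⁻¹)) s = tau hs hi γ v0 b (tau hs hi γ v0 a s') := by
        rw [hs'def, map_mul, Equiv.Perm.mul_apply, map_mul, Equiv.Perm.mul_apply]
        simp [rho]
      rw [← this]
      have h2 : FreeGroup.of b * FreeGroup.of a * ((FreeGroup.of a)⁻¹ * (FreeGroup.of b)⁻¹) = 1 := by
        group
      rw [h2, map_one, Equiv.Perm.one_apply]
    have e3 : s'.1.1.2 = s.1.1.2 - 2 := by
      rw [hs'def, hgt_rho, map_mul, map_inv, map_inv, toAdd_mul, toAdd_inv, toAdd_inv]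
      simp [hF]
      ring
    have h5 : s.1.1.2 ≤ -5 ∨ 5 ≤ s.1.1.2 := by
      rcases abs_cases s.1.1.2 with ⟨h, _⟩ | ⟨h, _⟩
      · right; linarith
      · left; linarith
    rw [e1, tau_comm hs hi γ v0 coc hab s' (by rw [e3]; omega) (by rw [e3]; omega)
      (by rw [e3]; omega), e2]
  exact hle hr

end act

/-! ### The generators of the Bestvina-Brady group -/

section gens

variable {V : Type} (ad : V → V → Prop)

/-- the map from the free group on the pairs of vertices -/
noncomputable def Phi : FreeGroup (V × V) →* BB ad :=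
  FreeGroup.lift (fun q => ⟨gen ad q.1 * (gen ad q.2)⁻¹, by
    rw [MonoidHom.mem_ker, map_mul, map_inv, ht_gen, ht_gen, mul_inv_cancel]⟩)

/-- its lift to the free group on the vertices -/
def Psi (V : Type) : FreeGroup (V × V) →* FreeGroup V :=
  FreeGroup.lift (fun q => FreeGroup.of q.1 * (FreeGroup.of q.2)⁻¹)

theorem Phi_of (u v : V) : ((Phi ad (FreeGroup.of (u, v)) : BB ad) : RAAG ad)
    = gen ad u * (gen ad v)⁻¹ := by
  simp [Phi]

theorem Phi_coe (x : FreeGroup (V × V)) :
    ((Phi ad x : BB ad) : RAAG ad) = PresentedGroup.mk (rels ad) (Psi V x) := by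
  have : ((ht ad).ker.subtype).comp (Phi ad) = (PresentedGroup.mk (rels ad)).comp (Psi V) := by
    ext q
    simp only [MonoidHom.comp_apply, Phi, Psi, FreeGroup.lift_apply_of, map_mul, map_inv]
    rfl
  exact DFunLike.congr_fun this x

theorem gen_comm {u v : V} (h : ad u v) : Commute (gen ad u) (gen ad v) := by
  have h1 : PresentedGroup.mk (rels ad) (FreeGroup.of u * FreeGroup.of v * (FreeGroup.of u)⁻¹
      * (FreeGroup.of v)⁻¹) = 1 := PresentedGroup.one_of_mem ⟨u, v, h, rfl⟩
  rw [map_mul, map_mul, map_mul, map_inv, map_inv, mul_inv_eq_one, mul_inv_eq_iff_eq_mul] at h1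
  exact h1

theorem Phi_surj (v0 : V) (conn : ∀ a b, Relation.ReflTransGen ad a b) :
    Function.Surjective (Phi ad) := by
  set H : Subgroup (RAAG ad) := (((ht ad).ker.subtype).comp (Phi ad)).range with hH
  have m1 : ∀ u v, gen ad u * (gen ad v)⁻¹ ∈ H := fun u v => ⟨FreeGroup.of (u, v), Phi_of ad u v⟩
  have m2 : ∀ u v, ad u v → ∀ n : ℤ, gen ad u ^ n * gen ad v ^ (-n) ∈ H := by
    intro u v h n
    have h1 := H.zpow_mem (m1 u v) n
    rw [((gen_comm ad h).inv_right).mul_zpow, inv_zpow'] at h1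
    exact h1
  have m3 : ∀ v, ∀ n : ℤ, gen ad v0 ^ n * gen ad v ^ (-n) ∈ H := by
    intro v n
    have h := conn v0 v
    induction h with
    | refl => simp [H.one_mem]
    | tail _ hbc ih =>
      have := H.mul_mem ih (m2 _ _ hbc n)
      rwa [mul_assoc, ← mul_assoc (gen ad _ ^ (-n)), ← zpow_add, neg_add_cancel, zpow_zero,
        one_mul] at this
  have m4 : ∀ v, ∀ n : ℤ, gen ad v0 ^ n * gen ad v * gen ad v0 ^ (-(n + 1)) ∈ H := by
    intro v n
    have h1 := H.mul_mem (m3 v n) (H.inv_mem (m3 v (n + 1)))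
    rw [mul_inv_rev, ← zpow_neg, ← zpow_neg, neg_neg, mul_assoc, ← mul_assoc (gen ad v ^ (-n)),
      ← zpow_add, neg_add_cancel_left, zpow_one, ← mul_assoc] at h1
    exact h1
  have m5 : ∀ g : RAAG ad, ∃ n : ℤ, g * gen ad v0 ^ (-n) ∈ H := by
    intro g
    have hg : g ∈ Subgroup.closure (Set.range (PresentedGroup.of : V → RAAG ad)) := by
      rw [PresentedGroup.closure_range_of]; trivial
    induction hg using Subgroup.closure_induction_right with
    | one => exact ⟨0, by simp [H.one_mem]⟩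
    | mul_right x hx y hy ih =>
      obtain ⟨v, rfl⟩ := hy
      obtain ⟨n, hn⟩ := ih
      refine ⟨n + 1, ?_⟩
      have := H.mul_mem hn (m4 v n)
      have e : x * gen ad v0 ^ (-n) * (gen ad v0 ^ n * gen ad v * gen ad v0 ^ (-(n + 1)))
          = x * gen ad v * gen ad v0 ^ (-(n + 1)) := by
        rw [zpow_neg (gen ad v0) n]
        group
      rw [e] at this
      exact this
    | mul_inv_cancel x hx y hy ih =>
      obtain ⟨v, rfl⟩ := hy
      obtain ⟨n, hn⟩ := ih
      refine ⟨n - 1, ?_⟩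
      have := H.mul_mem hn (H.inv_mem (m4 v (n - 1)))
      have e : x * gen ad v0 ^ (-n) * (gen ad v0 ^ (n - 1) * gen ad v
          * gen ad v0 ^ (-(n - 1 + 1)))⁻¹ = x * (gen ad v)⁻¹ * gen ad v0 ^ (-(n - 1)) := by
        group
      rw [e] at this
      exact this
  intro b
  obtain ⟨n, x, hx⟩ := m5 b
  have hx' : ((Phi ad x : BB ad) : RAAG ad) = b * gen ad v0 ^ (-n) := hx
  have h1 : ht ad ((Phi ad x : BB ad) : RAAG ad) = 1 := (Phi ad x).2
  have h2 : ht ad (b : RAAG ad) = 1 := b.2
  rw [hx', map_mul, h2, one_mul, map_zpow, ht_gen, ← ofAdd_zsmul] at h1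
  have h3 : n = 0 := by
    have := congrArg Multiplicative.toAdd h1
    simpa using this
  subst h3
  refine ⟨x, Subtype.ext ?_⟩
  rw [hx']
  simp

end gens

/-! ### The path -/

section path

variable {V J : Type} [Group J] {ad : V → V → Prop} (hs : ∀ a b, ad a b → ad b a)
  (hi : ∀ a, ¬ ad a a) (γ : V → V → J) (v0 : V)

/-- the state `u^k v^m` -/
noncomputable def pw (u v : V) (k m : ℕ) : St ad := (TS hs hi u ^ k) ((TS hs hi v ^ m) (s0 ad))

theorem TS_pow_inv {v w : V} (hne : w ≠ v) (k : ℕ) (q : St ad) (h : NoSig q.1.1 w) :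
    NoSig ((TS hs hi v ^ k) q).1.1 w := by
  induction k with
  | zero => exact h
  | succ k ih =>
    rw [pow_succ', Equiv.Perm.mul_apply]
    exact NoSig_T hne true ih

theorem TS_pow_hgt (v : V) (k : ℕ) (q : St ad) :
    ((TS hs hi v ^ k) q).1.2 = q.1.2 + k := by
  induction k with
  | zero => simp
  | succ k ih =>
    rw [pow_succ', Equiv.Perm.mul_apply]
    have : (TS hs hi v ((TS hs hi v ^ k) q)).1.2 = ((TS hs hi v ^ k) q).1.2 + 1 := rfl
    rw [this, ih]
    push_cast
    ring

theorem pw_hgt (u v : V) (k m : ℕ) : (pw hs hi u v k m).1.2 = m + k := by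
  rw [pw, TS_pow_hgt, TS_pow_hgt]
  simp [s0]

theorem lam_pw (u v : V) (k m : ℕ) (h : 0 < k + m) :
    lam v0 (pw hs hi u v k m).1.1 = u ∨ lam v0 (pw hs hi u v k m).1.1 = v := by
  have h1 := lam_spec v0 (pw hs hi u v k m) (by rw [pw_hgt]; omega)
  by_contra hc
  push Not at hc
  refine not_Hd ?_ h1
  refine TS_pow_inv hs hi hc.1 _ _ (TS_pow_inv hs hi hc.2 _ _ ?_)
  intro b hb
  simp [s0] at hb

theorem pw_succ (u v : V) (k m : ℕ) :
    TS hs hi u (pw hs hi u v k m) = pw hs hi u v (k + 1) m := by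
  rw [pw, pw, pow_succ', Equiv.Perm.mul_apply]

theorem TS_comm_pow {u v : V} (had : ad u v) (k : ℕ) (q : St ad) :
    TS hs hi v ((TS hs hi u ^ k) q) = (TS hs hi u ^ k) (TS hs hi v q) := by
  induction k with
  | zero => rfl
  | succ k ih =>
    rw [pow_succ', Equiv.Perm.mul_apply, Equiv.Perm.mul_apply, ← ih, TS_comm hs hi had]

theorem pw_succ' {u v : V} (had : ad u v) (k m : ℕ) :
    TS hs hi v (pw hs hi u v k m) = pw hs hi u v k (m + 1) := by
  rw [pw, pw, TS_comm_pow hs hi had, pow_succ', Equiv.Perm.mul_apply]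

theorem pw_self (u : V) (n : ℕ) : pw hs hi u u n 0 = pw hs hi u u 0 n := by
  simp [pw]

theorem pw_left (u v : V) (n : ℕ) : pw hs hi u v n 0 = pw hs hi u u 0 n := by
  simp [pw]

theorem pw_right (u v : V) (n : ℕ) : pw hs hi u v 0 n = pw hs hi v v 0 n := by
  simp [pw]

theorem tau_inv (v : V) (q : St ad) (j : J) :
    (tau hs hi γ v0 v)⁻¹ (TS hs hi v q, j)
      = (q, (γ (lam v0 (TS hs hi v q).1.1) (lam v0 q.1.1))⁻¹ * j) := by
  rw [Equiv.Perm.inv_eq_iff_eq, tau_apply, mul_inv_cancel_left]

variable (coc : ∀ u v w, (u = v ∨ ad u v) → (v = w ∨ ad v w) → (u = w ∨ ad u w) →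
    γ u v * γ v w = γ u w)

include coc in
theorem seg_aux {u v : V} (had : ad u v) (n : ℕ) (j : J) :
    ∀ k, k ≤ n → 1 < n → rho hs hi γ v0 ((FreeGroup.of u * (FreeGroup.of v)⁻¹) ^ k)
      (pw hs hi u v 0 n, j)
      = (pw hs hi u v k (n - k), γ (lam v0 (pw hs hi u v k (n - k)).1.1) v * j) := by
  have hadj : ∀ a b : V, (a = u ∨ a = v) → (b = u ∨ b = v) → (a = b ∨ ad a b) := by
    rintro a b (rfl | rfl) (rfl | rfl)
    · exact Or.inl rfl
    · exact Or.inr had
    · exact Or.inr (hs _ _ had)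
    · exact Or.inl rfl
  intro k
  induction k with
  | zero =>
    intro _ hn
    have h1 : lam v0 (pw hs hi u v 0 n).1.1 = v := by
      rw [pw_right]
      rcases lam_pw hs hi v0 v v 0 n (by omega) with h | h <;> exact h
    have h2 : γ v v = 1 := by
      have := coc v v v (Or.inl rfl) (Or.inl rfl) (Or.inl rfl)
      simpa using this
    simp [h1, h2]
  | succ k ih =>
    intro hk hn
    rw [pow_succ', map_mul, Equiv.Perm.mul_apply, ih (by omega) hn, map_mul, map_inv,
      Equiv.Perm.mul_apply]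
    have e1 : pw hs hi u v k (n - k) = TS hs hi v (pw hs hi u v k (n - (k + 1))) := by
      rw [pw_succ' hs hi had]
      congr 1
      omega
    have r1 : rho hs hi γ v0 (FreeGroup.of u) = tau hs hi γ v0 u := by simp [rho]
    have r2 : rho hs hi γ v0 (FreeGroup.of v) = tau hs hi γ v0 v := by simp [rho]
    rw [r1, r2]
    have a1 := lam_pw hs hi v0 u v k (n - k) (by omega)
    rw [e1] at a1 ⊢
    rw [tau_inv, tau_apply, pw_succ]
    congr 1
    have a2 := lam_pw hs hi v0 u v k (n - (k + 1)) (by omega)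
    have a3 := lam_pw hs hi v0 u v (k + 1) (n - (k + 1)) (by omega)
    rw [← coc _ _ _ (hadj _ _ a1 a2) (hadj _ _ a2 (Or.inr rfl)) (hadj _ _ a1 (Or.inr rfl))]
    rw [mul_assoc (γ _ _) (γ _ _) j, inv_mul_cancel_left, ← mul_assoc,
      coc _ _ _ (hadj _ _ a3 a2) (hadj _ _ a2 (Or.inr rfl)) (hadj _ _ a3 (Or.inr rfl))]

include coc in
theorem seg {u v : V} (had : ad u v) (n : ℕ) (hn : 1 < n) (j : J) :
    rho hs hi γ v0 ((FreeGroup.of u * (FreeGroup.of v)⁻¹) ^ n) (pw hs hi v v 0 n, j)
      = (pw hs hi u u 0 n, γ u v * j) := by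
  have h := seg_aux hs hi γ v0 coc had n j n le_rfl hn
  rw [Nat.sub_self, pw_right, pw_left] at h
  have h1 : lam v0 (pw hs hi u u 0 n).1.1 = u := by
    rcases lam_pw hs hi v0 u u 0 n (by omega) with h | h <;> exact h
  rw [h1] at h
  exact h

/-- the word of a path -/
def wd {V : Type} (p : ℕ → V) (n l : ℕ) : FreeGroup (V × V) :=
  ((List.range l).map (fun i => (FreeGroup.of (p i, p (i + 1))) ^ n)).prod

theorem wd_succ {V : Type} (p : ℕ → V) (n l : ℕ) :
    wd p n (l + 1) = wd p n l * (FreeGroup.of (p l, p (l + 1))) ^ n := by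
  simp [wd, List.range_succ]

include coc in
theorem rho_wd (p : ℕ → V) (n l : ℕ) (hp : ∀ i < l, ad (p i) (p (i + 1))) (hn : 1 < n) (j : J) :
    rho hs hi γ v0 (Psi V (wd p n l)) (pw hs hi (p l) (p l) 0 n, j)
      = (pw hs hi (p 0) (p 0) 0 n,
        ((List.range l).map (fun i => γ (p i) (p (i + 1)))).prod * j) := by
  induction l generalizing j with
  | zero => simp [wd]
  | succ l ih =>
    have e : Psi V ((FreeGroup.of (p l, p (l + 1))) ^ n)
        = (FreeGroup.of (p l) * (FreeGroup.of (p (l + 1)))⁻¹) ^ n := by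
      simp [Psi]
    rw [wd_succ, map_mul, map_mul, Equiv.Perm.mul_apply, e,
      seg hs hi γ v0 coc (hp l (by omega)) n hn, ih (fun i hi => hp i (by omega))]
    simp [List.range_succ, mul_assoc]

theorem Phi_wd (p : ℕ → V) (n l : ℕ) (hp : ∀ i < l, ad (p i) (p (i + 1))) :
    ((Phi ad (wd p n l) : BB ad) : RAAG ad) = gen ad (p 0) ^ n * (gen ad (p l) ^ n)⁻¹ := by
  induction l with
  | zero => simp [wd]
  | succ l ih =>
    rw [wd_succ, map_mul, Subgroup.coe_mul, ih (fun i hi => hp i (by omega)), map_pow,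
      Subgroup.coe_pow, Phi_of, ((gen_comm ad (hp l (by omega))).inv_right).mul_pow, inv_pow]
    group

end path

/-- **NFP** -/
theorem th : PropNFP := by
  intro V J _ _ _ ad γ l p hG hfp
  have hs := hG.symm
  have hi := hG.irr
  have v0 : V := p 0
  obtain ⟨T, hTf, hT⟩ := ker_ifng (Phi ad) (Phi_surj ad v0 hG.conn) inferInstance hfp
  -- the bound
  have h1 : ∀ t ∈ T, ∃ N : ℤ, ∀ s, N ≤ |s.1.1.2| → rho hs hi γ v0 (Psi V t) s = s := by
    intro t ht
    apply A1 hs hi γ v0 hG.coc
    rw [← PresentedGroup.mk_eq_one_iff, ← Phi_coe]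
    have : t ∈ (Phi ad).ker := by rw [← hT]; exact Subgroup.subset_normalClosure ht
    rw [MonoidHom.mem_ker.1 this]
    rfl
  choose! N hN using h1
  obtain ⟨N', hN'⟩ := (hTf.image N).bddAbove
  have h2 : ∀ x ∈ (Phi ad).ker, ∀ s : St ad × J, N' ≤ |s.1.1.2| →
      rho hs hi γ v0 (Psi V x) s = s := by
    let K : Subgroup (FreeGroup (V × V)) :=
      { carrier := {x | ∀ s : St ad × J, N' ≤ |s.1.1.2| → rho hs hi γ v0 (Psi V x) s = s}
        one_mem' := fun s _ => by simp
        mul_mem' := by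
          intro a b ha hb s hs'
          rw [map_mul, map_mul, Equiv.Perm.mul_apply, hb s hs', ha s hs']
        inv_mem' := by
          intro a ha s hs'
          rw [map_inv, map_inv, Equiv.Perm.inv_eq_iff_eq, ha s hs'] }
    have hPsi : ∀ x : FreeGroup (V × V), hF V (Psi V x) = 1 := by
      intro x
      have : (hF V).comp (Psi V) = 1 := by
        ext q
        simp [hF, Psi]
      exact DFunLike.congr_fun this x
    have hK : K.Normal := by
      refine ⟨?_⟩
      intro a ha g s hs'
      rw [map_mul, map_mul, map_mul, map_mul, Equiv.Perm.mul_apply, Equiv.Perm.mul_apply, ha]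
      · rw [← Equiv.Perm.mul_apply, ← map_mul, ← map_mul, mul_inv_cancel, map_one, map_one,
          Equiv.Perm.one_apply]
      · rw [hgt_rho, hPsi]
        simpa using hs'
    rw [← hT]
    have : Subgroup.normalClosure T ≤ K := by
      apply Subgroup.normalClosure_le_normal
      intro t ht s hs'
      refine hN t ht s (le_trans (hN' ⟨t, ht, rfl⟩) hs')
    exact fun x hx => this hx
  -- the path
  obtain ⟨n, hn1, hn2⟩ : ∃ n : ℕ, 1 < n ∧ N' ≤ n := ⟨N'.toNat + 2, by omega, by omega⟩
  have h3 : wd p n l ∈ (Phi ad).ker := by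
    rw [MonoidHom.mem_ker]
    apply Subtype.ext
    rw [Phi_wd p n l hG.path, hG.closed, mul_inv_cancel]
    rfl
  have h4 := h2 _ h3 (pw hs hi (p l) (p l) 0 n, 1) (by
    rw [pw_hgt]
    simp only [Nat.cast_zero, add_zero]
    exact le_trans hn2 (le_abs_self _))
  rw [rho_wd hs hi γ v0 hG.coc p n l hG.path hn1] at h4
  have h5 := congrArg Prod.snd h4
  simp only [mul_one] at h5
  exact hG.hol h5

end Pool.Agent.R662.HC.NFP
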