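import Pool.Agent.W386.Conv
import Pool.Agent.Y66.HC.Defs

/-!
# The homological 1-2-3 conjecture fails (MP_3ca9d5_al, S01246): statements of the parts

The idea, the condition `FPc` and the graph data `GrData` come from the starting file
`Pool/Agent/Y66/HC/Defs.lean`.

Conventions: `FPs R (m + 1) M` (from `Pool.Agent.W386.FPs`) is type `FP_m`.
-/

set_option autoImplicit false

namespace Pool.Agent.R662.HC

open Pool.Agent.W326.DU (RAAG rels gen)
open Pool.Agent.W386 (FPs Triv ZG)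
open Pool.Agent.Y66.HC (FPc GrData Acyc PropM8)

/-- the height homomorphism of a right-angled Artin group -/
def ht {V : Type} (ad : V → V → Prop) : RAAG ad →* Multiplicative ℤ :=
  PresentedGroup.toGroup (f := fun _ => Multiplicative.ofAdd (1 : ℤ)) (by
    rintro _ ⟨a, b, -, rfl⟩
    simp)

theorem ht_gen {V : Type} (ad : V → V → Prop) (v : V) :
    ht ad (gen ad v) = Multiplicative.ofAdd (1 : ℤ) :=
  PresentedGroup.toGroup.of _

/-- the Bestvina-Brady group -/
abbrev BB {V : Type} (ad : V → V → Prop) : Type := (ht ad).ker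

/-- **C1** -/
def PropC1 : Prop := ∀ (m : ℕ) (G : Type) [Group G], FPc m G → FPs (ZG G) (m + 1) (Triv G)

/-- **C2** -/
def PropC2 : Prop := ∀ (m : ℕ) (G : Type) [Group G], FPs (ZG G) (m + 1) (Triv G) → FPc m G

/-- **NFP**: the Bestvina-Brady group is not finitely presented. -/
def PropNFP : Prop := ∀ (V J : Type) [Fintype V] [DecidableEq V] [Group J] (ad : V → V → Prop)
  (γ : V → V → J) (l : ℕ) (p : ℕ → V), GrData ad γ l p →
  ¬ Group.IsFinitelyPresented (BB ad)

/-- **SLAB**: the Bestvina-Brady group is of type `FP_3`. -/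
def PropSLAB : Prop := ∀ (V J : Type) [Fintype V] [DecidableEq V] [Group J] (ad : V → V → Prop)
  (γ : V → V → J) (l : ℕ) (p : ℕ → V), GrData ad γ l p →
  FPs (ZG (BB ad)) 4 (Triv (BB ad))

/-- **HNN**: the construction. -/
def PropHNN : Prop := ∀ (Q : Type) [Group Q], FPs (ZG Q) 3 (Triv Q) → Group.FG Q →
  ¬ Group.IsFinitelyPresented Q →
  ∃ (G₁ G₂ : Type) (_ : Group G₁) (_ : Group G₂) (π₁ : G₁ →* Q) (π₂ : G₂ →* Q),
    Function.Surjective π₁ ∧ Function.Surjective π₂ ∧ Group.FG π₁.ker ∧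
    FPs (ZG G₁) 3 (Triv G₁) ∧ FPs (ZG G₂) 3 (Triv G₂) ∧
    ¬ FPs (ZG ((π₁.comp (MonoidHom.fst G₁ G₂)).eqLocus (π₂.comp (MonoidHom.snd G₁ G₂)))) 3
      (Triv ((π₁.comp (MonoidHom.fst G₁ G₂)).eqLocus (π₂.comp (MonoidHom.snd G₁ G₂))))

end Pool.Agent.R662.HC
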