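import Pool.Agent.W304.DU.EX
import Pool.Agent.R662.HC.Stm

/-!
# Height pushing in a graded module
-/

set_option autoImplicit false

namespace Pool.Agent.R662.HC

open Pool.Agent.W326.DU (Reg IsAlt2 IsAlt3 Im)
open Pool.Agent.Y66.HC (Acyc)

/-- graded abelian group with automorphisms of degree one -/
structure GM {V M : Type} [AddCommGroup M] (ad : V → V → Prop) (τ : V → M ≃+ M)
    (P : ℤ → M →+ M) : Prop where
  idem : ∀ n x, P n (P n x) = P n x
  orth : ∀ m n x, m ≠ n → P m (P n x) = 0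
  tau : ∀ v n x, P (n + 1) (τ v x) = τ v (P n x)
  comm : ∀ a b, ad a b → ∀ x, τ a (τ b x) = τ b (τ a x)
  fin : ∀ x, ∃ N : ℕ, ∀ m : ℤ, (m < -N ∨ (N : ℤ) < m) → P m x = 0
  sep : ∀ x, (∀ n, P n x = 0) → x = 0

/-- supported in degrees `lo..hi` -/
def In {M : Type} [AddCommGroup M] (P : ℤ → M →+ M) (lo hi : ℤ) (x : M) : Prop :=
  ∀ m, (m < lo ∨ hi < m) → P m x = 0

/-- `τ v - 1` -/
def RT {V M : Type} [AddCommGroup M] (τ : V → M ≃+ M) (v : V) : M →+ M :=
  (τ v : M →+ M) - AddMonoidHom.id M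

section

variable {V M : Type} [Fintype V] [AddCommGroup M] {ad : V → V → Prop} {τ : V → M ≃+ M}
  {P : ℤ → M →+ M}

omit [Fintype V] in
theorem RT_apply (v : V) (x : M) : RT τ v x = τ v x - x := rfl

theorem In.mono {lo hi lo' hi' : ℤ} {x : M} (h : In P lo hi x) (h1 : lo' ≤ lo) (h2 : hi ≤ hi') :
    In P lo' hi' x := fun m hm => h m (by omega)

omit [Fintype V] in
theorem GM.tau' (h : GM ad τ P) (v : V) (n : ℤ) (x : M) : P n (τ v x) = τ v (P (n - 1) x) := by
  have := h.tau v (n - 1) x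
  rwa [sub_add_cancel] at this

omit [Fintype V] in
theorem GM.sig (h : GM ad τ P) (v : V) (n : ℤ) (x : M) :
    P n ((τ v).symm x) = (τ v).symm (P (n + 1) x) := by
  rw [AddEquiv.eq_symm_apply, ← h.tau, AddEquiv.apply_symm_apply]

omit [Fintype V] in
theorem GM.PRT (h : GM ad τ P) (v : V) (n : ℤ) (x : M) :
    P n (RT τ v x) = τ v (P (n - 1) x) - P n x := by
  rw [RT_apply, map_sub, h.tau']

omit [Fintype V] in
theorem GM.hom (h : GM ad τ P) {lo hi : ℤ} {x : M} (hx : In P lo hi x) (n : ℤ)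
    (hn : n < lo ∨ hi < n) : P n x = 0 := hx n hn

/-- bottom computation -/
theorem GM.coreB (h : GM ad τ P) {lo hi : ℤ} (hlt : lo < hi) {u : M} (hu : In P lo hi u)
    (w : V → M) (hw : ∀ a, In P lo lo (w a)) (he : P lo u = ∑ a, P lo (w a)) :
    In P (lo + 1) hi (u + ∑ a, RT τ a (w a)) := by
  intro m hm
  rw [map_add, map_sum]
  simp only [h.PRT]
  by_cases h1 : m = lo
  · subst h1
    have : ∀ a, P (m - 1) (w a) = 0 := fun a => hw a _ (by omega)
    simp only [this, map_zero, zero_sub, Finset.sum_neg_distrib]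
    rw [he, add_neg_cancel]
  · have h2 : P m u = 0 := hu m (by omega)
    have h3 : ∀ a, P (m - 1) (w a) = 0 := fun a => hw a _ (by omega)
    have h4 : ∀ a, P m (w a) = 0 := fun a => hw a _ (by omega)
    simp [h2, h3, h4]

/-- top computation -/
theorem GM.coreT (h : GM ad τ P) {lo hi : ℤ} (hlt : lo < hi) {u : M} (hu : In P lo hi u)
    (w : V → M) (hw : ∀ a, In P (hi - 1) (hi - 1) (w a))
    (he : P hi u = ∑ a, τ a (P (hi - 1) (w a))) :
    In P lo (hi - 1) (u - ∑ a, RT τ a (w a)) := by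
  intro m hm
  rw [map_sub, map_sum]
  simp only [h.PRT]
  by_cases h1 : m = hi
  · subst h1
    have : ∀ a, P m (w a) = 0 := fun a => hw a _ (by omega)
    simp only [this, sub_zero]
    rw [he, sub_self]
  · have h2 : P m u = 0 := hu m (by omega)
    have h3 : ∀ a, P (m - 1) (w a) = 0 := fun a => hw a _ (by omega)
    have h4 : ∀ a, P m (w a) = 0 := fun a => hw a _ (by omega)
    simp [h2, h3, h4]

omit [Fintype V] in
theorem GM.inP (h : GM ad τ P) (n : ℤ) (x : M) : In P n n (P n x) :=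
  fun m hm => h.orth m n x (by omega)

theorem GM.dbot (h : GM ad τ P) {lo hi : ℤ} {x : V → M} (hx : ∀ v, In P lo hi (x v))
    (hd : P lo (∑ v, RT τ v (x v)) = 0) : ∑ v, P lo (x v) = 0 := by
  rw [map_sum] at hd
  simp only [h.PRT] at hd
  have : ∀ v, P (lo - 1) (x v) = 0 := fun v => hx v _ (by omega)
  simp only [this, map_zero, zero_sub, Finset.sum_neg_distrib] at hd
  exact neg_eq_zero.1 hd

theorem GM.dtop (h : GM ad τ P) {lo hi : ℤ} {x : V → M} (hx : ∀ v, In P lo hi (x v))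
    (hd : P (hi + 1) (∑ v, RT τ v (x v)) = 0) : ∑ v, τ v (P hi (x v)) = 0 := by
  rw [map_sum] at hd
  simp only [h.PRT] at hd
  have : ∀ v, P (hi + 1) (x v) = 0 := fun v => hx v _ (by omega)
  simp only [this, sub_zero, add_sub_cancel_right] at hd
  exact hd

theorem GM.bot1 (h : GM ad τ P) (ac : Acyc ad) {lo hi : ℤ} (hlt : lo < hi) {x : V → M}
    (hx : ∀ v, In P lo hi (x v)) (hd : P lo (∑ v, RT τ v (x v)) = 0) :
    ∃ y : V → V → M, IsAlt2 ad Set.univ y ∧ (∀ a b, In P lo lo (y a b)) ∧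
      ∀ b, In P (lo + 1) hi (x b + ∑ a, RT τ a (y a b)) := by
  obtain ⟨y, hy, hy'⟩ := ac.ac1 M (fun v => P lo (x v)) (h.dbot hx hd)
  refine ⟨fun a b => P lo (y a b), ⟨?_, ?_⟩, fun a b => h.inP _ _, ?_⟩
  · intro a b
    beta_reduce
    rw [hy.1 a b, map_neg]
  · intro a b hab
    beta_reduce
    rw [hy.2 a b hab, map_zero]
  · intro b
    refine h.coreB hlt (hx b) _ (fun a => h.inP _ _) ?_
    simp only [h.idem]
    rw [← map_sum, ← hy' b, h.idem]

theorem GM.bot2 (h : GM ad τ P) (ac : Acyc ad) {lo hi : ℤ} (hlt : lo < hi) {y : V → V → M}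
    (hy : IsAlt2 ad Set.univ y) (hI : ∀ a b, In P lo hi (y a b))
    (hd : ∀ c, P lo (∑ b, RT τ b (y b c)) = 0) :
    ∃ z : V → V → V → M, IsAlt3 ad Set.univ z ∧ (∀ a b c, In P lo lo (z a b c)) ∧
      ∀ b c, In P (lo + 1) hi (y b c + ∑ a, RT τ a (z a b c)) := by
  obtain ⟨z, hz, hz'⟩ := ac.ac2 M (fun a b => P lo (y a b))
    ⟨fun a b => by beta_reduce; rw [hy.1 a b, map_neg], fun a b hab => by beta_reduce; rw [hy.2 a b hab, map_zero]⟩
    (fun c => h.dbot (fun b => hI b c) (hd c))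
  refine ⟨fun a b c => P lo (z a b c), ⟨?_, ?_, ?_⟩, fun a b c => h.inP _ _, ?_⟩
  · intro a b c
    beta_reduce
    rw [hz.1 a b c, map_neg]
  · intro a b c
    beta_reduce
    rw [hz.2.1 a b c, map_neg]
  · intro a b c habc
    beta_reduce
    rw [hz.2.2 a b c habc, map_zero]
  · intro b c
    refine h.coreB hlt (hI b c) _ (fun a => h.inP _ _) ?_
    simp only [h.idem]
    rw [← map_sum, ← hz' b c, h.idem]

theorem GM.bot3 (h : GM ad τ P) (ac : Acyc ad) {lo hi : ℤ} {z : V → V → V → M}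
    (hz : IsAlt3 ad Set.univ z) (hI : ∀ a b c, In P lo hi (z a b c))
    (hd : ∀ b c, P lo (∑ a, RT τ a (z a b c)) = 0) :
    ∀ a b c, In P (lo + 1) hi (z a b c) := by
  have h1 := ac.ac3 M (fun a b c => P lo (z a b c))
    ⟨fun a b c => by beta_reduce; rw [hz.1 a b c, map_neg], fun a b c => by beta_reduce; rw [hz.2.1 a b c, map_neg],
      fun a b c hab => by beta_reduce; rw [hz.2.2 a b c hab, map_zero]⟩
    (fun b c => h.dbot (fun a => hI a b c) (hd b c))
  intro a b c m hm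
  by_cases h2 : m = lo
  · subst h2
    exact h1 a b c
  · exact hI a b c m (by omega)

omit [Fintype V] in
theorem GM.scomm (h : GM ad τ P) {a b : V} (hab : ad a b) (x : M) :
    (τ a).symm ((τ b).symm x) = (τ b).symm ((τ a).symm x) := by
  rw [AddEquiv.symm_apply_eq, AddEquiv.symm_apply_eq, ← h.comm a b hab, AddEquiv.apply_symm_apply,
    AddEquiv.apply_symm_apply]

theorem GM.top1 (h : GM ad τ P) (ac : Acyc ad) {lo hi : ℤ} (hlt : lo < hi) {x : V → M}
    (hx : ∀ v, In P lo hi (x v)) (hd : P (hi + 1) (∑ v, RT τ v (x v)) = 0) :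
    ∃ y : V → V → M, IsAlt2 ad Set.univ y ∧ (∀ a b, In P (hi - 1) (hi - 1) (y a b)) ∧
      ∀ b, In P lo (hi - 1) (x b - ∑ a, RT τ a (y a b)) := by
  obtain ⟨y, hy, hy'⟩ := ac.ac1 M (fun v => τ v (P hi (x v))) (h.dtop hx hd)
  have hI : ∀ a b, In P (hi - 1) (hi - 1) ((τ a).symm ((τ b).symm (P (hi + 1) (y a b)))) := by
    intro a b m hm
    rw [h.sig, h.sig, h.orth _ _ _ (by omega), map_zero, map_zero]
  refine ⟨fun a b => (τ a).symm ((τ b).symm (P (hi + 1) (y a b))), ⟨?_, ?_⟩, hI, ?_⟩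
  · intro a b
    by_cases hab : ad a b
    · beta_reduce; rw [hy.1 a b, map_neg, map_neg, map_neg, h.scomm hab]
    · have h1 : y a b = 0 := hy.2 a b (fun h => hab h.2.2)
      have h2 : y b a = 0 := by beta_reduce; rw [hy.1 b a, h1, neg_zero]
      simp [h1, h2]
  · intro a b hab
    beta_reduce
    rw [hy.2 a b hab]
    simp
  · intro b
    refine h.coreT hlt (hx b) _ (fun a => hI a b) ?_
    have h1 : ∀ a, τ a (P (hi - 1) ((τ a).symm ((τ b).symm (P (hi + 1) (y a b))))) =
        (τ b).symm (P (hi + 1) (y a b)) := by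
      intro a
      rw [h.sig, h.sig, AddEquiv.apply_symm_apply]
      have : hi - 1 + 1 + 1 = hi + 1 := by ring
      rw [this, h.idem]
    simp only [h1]
    rw [← map_sum, ← map_sum, ← hy' b, h.tau, h.idem, AddEquiv.symm_apply_apply]

theorem GM.top2 (h : GM ad τ P) (ac : Acyc ad) {lo hi : ℤ}
    (hlt : lo < hi) {y : V → V → M}
    (hy : IsAlt2 ad Set.univ y) (hI : ∀ a b, In P lo hi (y a b))
    (hd : ∀ c, P (hi + 1) (∑ b, RT τ b (y b c)) = 0) :
    ∃ z : V → V → V → M, IsAlt3 ad Set.univ z ∧ (∀ a b c, In P (hi - 1) (hi - 1) (z a b c)) ∧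
      ∀ b c, In P lo (hi - 1) (y b c - ∑ a, RT τ a (z a b c)) := by
  have hy0 : ∀ a b, ¬ ad a b → y a b = 0 := fun a b hab => hy.2 a b (fun h => hab h.2.2)
  obtain ⟨z, hz, hz'⟩ := ac.ac2 M (fun a b => τ a (τ b (P hi (y a b))))
    ⟨fun a b => by
      by_cases hab : ad a b
      · beta_reduce; rw [hy.1 a b, map_neg, map_neg, map_neg, h.comm a b hab]
      · have h1 : y a b = 0 := hy0 a b hab
        have h2 : y b a = 0 := by beta_reduce; rw [hy.1 b a, h1, neg_zero]
        simp [h1, h2], fun a b hab => by beta_reduce; rw [hy.2 a b hab]; simp⟩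
    (fun c => by
      have h1 := h.dtop (fun b => hI b c) (hd c)
      have h2 : ∀ b, τ b (τ c (P hi (y b c))) = τ c (τ b (P hi (y b c))) := by
        intro b
        by_cases hbc : ad b c
        · exact h.comm b c hbc _
        · rw [hy0 b c hbc]; simp
      simp only [h2]
      rw [← map_sum, h1, map_zero])
  have hz0 : ∀ a b c, ¬ (ad a b ∧ ad b c ∧ ad a c) → z a b c = 0 :=
    fun a b c habc => hz.2.2 a b c (fun h => habc h.2.2.2)
  have hIz : ∀ a b c, In P (hi - 1) (hi - 1)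
      ((τ a).symm ((τ b).symm ((τ c).symm (P (hi + 2) (z a b c))))) := by
    intro a b c m hm
    rw [h.sig, h.sig, h.sig, h.orth _ _ _ (by omega), map_zero, map_zero, map_zero]
  refine ⟨fun a b c => (τ a).symm ((τ b).symm ((τ c).symm (P (hi + 2) (z a b c)))),
    ⟨?_, ?_, ?_⟩, hIz, ?_⟩
  · intro a b c
    by_cases hab : ad a b
    · beta_reduce; rw [hz.1 a b c, map_neg, map_neg, map_neg, map_neg, h.scomm hab]
    · have h1 : z a b c = 0 := hz0 a b c (fun h => hab h.1)
      have h2 : z b a c = 0 := by beta_reduce; rw [hz.1 b a c, h1, neg_zero]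
      simp [h1, h2]
  · intro a b c
    by_cases hbc : ad b c
    · beta_reduce; rw [hz.2.1 a b c, map_neg, map_neg, map_neg, map_neg, h.scomm hbc]
    · have h1 : z a b c = 0 := hz0 a b c (fun h => hbc h.2.1)
      have h2 : z a c b = 0 := by beta_reduce; rw [hz.2.1 a c b, h1, neg_zero]
      simp [h1, h2]
  · intro a b c habc
    beta_reduce
    rw [hz.2.2 a b c habc]
    simp
  · intro b c
    refine h.coreT hlt (hI b c) _ (fun a => hIz a b c) ?_
    have h1 : ∀ a, τ a (P (hi - 1) ((τ a).symm ((τ b).symm ((τ c).symm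
        (P (hi + 2) (z a b c)))))) = (τ b).symm ((τ c).symm (P (hi + 2) (z a b c))) := by
      intro a
      rw [h.sig, h.sig, h.sig, AddEquiv.apply_symm_apply]
      have : hi - 1 + 1 + 1 + 1 = hi + 2 := by ring
      rw [this, h.idem]
    simp only [h1]
    rw [← map_sum, ← map_sum, ← map_sum, ← hz' b c]
    by_cases hbc : ad b c
    · have h2 : (hi : ℤ) + 2 = hi + 1 + 1 := by ring
      rw [h2, h.tau, h.tau, h.idem, h.comm b c hbc, AddEquiv.symm_apply_apply,
        AddEquiv.symm_apply_apply]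
    · rw [hy0 b c hbc]; simp

theorem GM.top3 (h : GM ad τ P) (ac : Acyc ad) {lo hi : ℤ} {z : V → V → V → M}
    (hz : IsAlt3 ad Set.univ z) (hI : ∀ a b c, In P lo hi (z a b c))
    (hd : ∀ b c, P (hi + 1) (∑ a, RT τ a (z a b c)) = 0) :
    ∀ a b c, In P lo (hi - 1) (z a b c) := by
  have hz0 : ∀ a b c, ¬ (ad a b ∧ ad b c ∧ ad a c) → z a b c = 0 :=
    fun a b c habc => hz.2.2 a b c (fun h => habc h.2.2.2)
  have h1 := ac.ac3 M (fun a b c => τ a (τ b (τ c (P hi (z a b c)))))
    ⟨fun a b c => by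
      by_cases hab : ad a b
      · beta_reduce; rw [hz.1 a b c, map_neg, map_neg, map_neg, map_neg, h.comm a b hab]
      · have h1 : z a b c = 0 := hz0 a b c (fun h => hab h.1)
        have h2 : z b a c = 0 := by beta_reduce; rw [hz.1 b a c, h1, neg_zero]
        simp [h1, h2], fun a b c => by
      by_cases hbc : ad b c
      · beta_reduce; rw [hz.2.1 a b c, map_neg, map_neg, map_neg, map_neg, h.comm b c hbc]
      · have h1 : z a b c = 0 := hz0 a b c (fun h => hbc h.2.1)
        have h2 : z a c b = 0 := by beta_reduce; rw [hz.2.1 a c b, h1, neg_zero]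
        simp [h1, h2],
      fun a b c hab => by beta_reduce; rw [hz.2.2 a b c hab]; simp⟩
    (fun b c => by
      have h1 := h.dtop (fun a => hI a b c) (hd b c)
      have h2 : ∀ a, τ a (τ b (τ c (P hi (z a b c)))) = τ b (τ c (τ a (P hi (z a b c)))) := by
        intro a
        by_cases habc : ad a b ∧ ad b c ∧ ad a c
        · rw [h.comm a b habc.1, h.comm a c habc.2.2]
        · rw [hz0 a b c habc]; simp
      simp only [h2]
      rw [← map_sum, ← map_sum, h1, map_zero, map_zero])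
  intro a b c m hm
  by_cases h2 : m = hi
  · subst h2
    have := h1 a b c
    simpa using this
  · exact hI a b c m (by omega)

end

end Pool.Agent.R662.HC
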